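import Pool.Agent.KS6_96.Pen.Final

/-!
# Rotations, multicurves and products of twists
-/

set_option autoImplicit false

namespace Pool.Agent.KS6_96.Pen

open Matrix

lemma geometric_one' : Geometric 1 (1 : MulAut F3) :=
  ⟨1, fun i => by simpa using IsConj.refl (per i)⟩

lemma geometric_pow {φ : MulAut F3} (h : Geometric 1 φ) (k : ℕ) : Geometric 1 (φ ^ k) := by
  induction k with
  | zero => exact geometric_one'
  | succ k ih => rw [pow_succ]; simpa using ih.mul h

lemma coprime_of_det {a b c d : ℤ} (h : a * d - b * c = 1) : IsCoprime a c :=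
  ⟨d, -b, by linarith⟩

/-- All twists about the components of a multicurve have the same linear part. -/
lemma multicurve_rep' {A : Set OutF3} (hA : IsMulticurve A) :
    ∃ a c : ℤ, IsCoprime a c ∧
      ∀ t ∈ A, ∃ τ : MulAut F3, ParPres τ ∧ (τ : OutF3) = t ∧ lin τ = T a c := by
  rcases A.eq_empty_or_nonempty with rfl | ⟨t0, ht0⟩
  · exact ⟨1, 0, isCoprime_one_left, by simp⟩
  · obtain ⟨φ0, hφ0, e0⟩ := hA.1 t0 ht0
    obtain ⟨hp0, hl0⟩ := lin_twist hφ0
    have d0 := hφ0.det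
    rw [Matrix.det_fin_two] at d0
    simp only [Units.val_one] at d0
    refine ⟨lin φ0 0 0, lin φ0 1 0, coprime_of_det d0, fun t ht => ?_⟩
    obtain ⟨φ, hφ, e⟩ := hA.1 t ht
    obtain ⟨hp, hl⟩ := lin_twist hφ
    refine ⟨φ * twist0 * φ⁻¹, hp, e.symm, ?_⟩
    rw [hl]
    have hc := hA.2 t0 ht0 t ht
    have hc' : (((φ * twist0 * φ⁻¹) * (φ0 * twist0 * φ0⁻¹) : MulAut F3) : OutF3) =
        (((φ0 * twist0 * φ0⁻¹) * (φ * twist0 * φ⁻¹) : MulAut F3) : OutF3) := by
      rw [QuotientGroup.mk_mul, QuotientGroup.mk_mul _ (φ0 * twist0 * φ0⁻¹)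
        (φ * twist0 * φ⁻¹), ← e, ← e0]
      exact hc.eq.symm
    have h3 := lin_out (hp.mul hp0) hc'
    rw [lin_mul hp hp0, lin_mul hp0 hp, hl0, hl] at h3
    have hpar := parallel_of_commute h3
    have d1 := hφ.det
    rw [Matrix.det_fin_two] at d1
    simp only [Units.val_one] at d1
    exact T_eq_of_parallel d0 d1 hpar

/-- A product of twists from two multicurves is represented by a word in two matrices. -/
lemma prod_rep' {A B : Set OutF3} (hA : IsMulticurve A) (hB : IsMulticurve B) :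
    ∃ a c b d : ℤ, IsCoprime a c ∧ IsCoprime b d ∧ ∀ l : List OutF3, (∀ g ∈ l, g ∈ A ∨ g⁻¹ ∈ B) →
      ∃ ψ : MulAut F3, ParPres ψ ∧ (ψ : OutF3) = l.prod ∧
        ∃ m : List Bool, lin ψ = sword a c b d m := by
  obtain ⟨a, c, hco, hac⟩ := multicurve_rep' hA
  obtain ⟨b, d, hco', hbd⟩ := multicurve_rep' hB
  refine ⟨a, c, b, d, hco, hco', fun l => ?_⟩
  induction l with
  | nil =>
    intro _
    exact ⟨1, ParPres.one, by simp, [], by simp [lin_one, sword]⟩
  | cons g l ih =>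
    intro h
    obtain ⟨ψ, hψ, hψ', m, hm⟩ := ih (fun g' hg' => h g' (List.mem_cons_of_mem _ hg'))
    rcases h g List.mem_cons_self with hg | hg
    · obtain ⟨τ, h1, h2, h3⟩ := hac g hg
      refine ⟨τ * ψ, h1.mul hψ, ?_, true :: m, ?_⟩
      · rw [QuotientGroup.mk_mul, h2, hψ', List.prod_cons]
      · rw [lin_mul h1 hψ, h3, hm, sword_cons]; rfl
    · obtain ⟨τ, h1, h2, h3⟩ := hbd g⁻¹ hg
      refine ⟨τ⁻¹ * ψ, h1.inv.mul hψ, ?_, false :: m, ?_⟩
      · rw [QuotientGroup.mk_mul, QuotientGroup.mk_inv, h2, inv_inv, hψ', List.prod_cons]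
      · rw [lin_mul h1.inv hψ, inv_rep h1 h3, hm, sword_cons]; rfl

/-- The rotation of the four punctures. -/
def rotHom : F3 →* F3 := FreeGroup.lift ![x 1, x 2, (x 0 * x 1 * x 2)⁻¹]

/-- The inverse rotation. -/
def rotInvHom : F3 →* F3 := FreeGroup.lift ![(x 0 * x 1 * x 2)⁻¹, x 0, x 1]

lemma rotHom_x0 : rotHom (x 0) = x 1 := by simp [rotHom, x]
lemma rotHom_x1 : rotHom (x 1) = x 2 := by simp [rotHom, x]
lemma rotHom_x2 : rotHom (x 2) = (x 0 * x 1 * x 2)⁻¹ := by simp [rotHom, x]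
lemma rotInvHom_x0 : rotInvHom (x 0) = (x 0 * x 1 * x 2)⁻¹ := by simp [rotInvHom, x]
lemma rotInvHom_x1 : rotInvHom (x 1) = x 0 := by simp [rotInvHom, x]
lemma rotInvHom_x2 : rotInvHom (x 2) = x 1 := by simp [rotInvHom, x]

lemma rot_comp1 : rotInvHom.comp rotHom = MonoidHom.id F3 := by
  ext i
  fin_cases i
  · change rotInvHom (rotHom (x 0)) = x 0
    rw [rotHom_x0, rotInvHom_x1]
  · change rotInvHom (rotHom (x 1)) = x 1
    rw [rotHom_x1, rotInvHom_x2]
  · change rotInvHom (rotHom (x 2)) = x 2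
    rw [rotHom_x2, map_inv, map_mul, map_mul, rotInvHom_x0, rotInvHom_x1, rotInvHom_x2]
    group

lemma rot_comp2 : rotHom.comp rotInvHom = MonoidHom.id F3 := by
  ext i
  fin_cases i
  · change rotHom (rotInvHom (x 0)) = x 0
    rw [rotInvHom_x0, map_inv, map_mul, map_mul, rotHom_x0, rotHom_x1, rotHom_x2]
    group
  · change rotHom (rotInvHom (x 1)) = x 1
    rw [rotInvHom_x1, rotHom_x0]
  · change rotHom (rotInvHom (x 2)) = x 2
    rw [rotInvHom_x2, rotHom_x1]

/-- The rotation as an automorphism. -/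
def rot : MulAut F3 := MonoidHom.toMulEquiv rotHom rotInvHom rot_comp1 rot_comp2

lemma rot_x0 : rot (x 0) = x 1 := rotHom_x0
lemma rot_x1 : rot (x 1) = x 2 := rotHom_x1
lemma rot_x2 : rot (x 2) = (x 0 * x 1 * x 2)⁻¹ := rotHom_x2

lemma rot_geometric : Geometric 1 rot := by
  refine ⟨finRotate 4, fun i => ?_⟩
  have e0 : (finRotate 4) 0 = 1 := by decide
  have e1 : (finRotate 4) 1 = 2 := by decide
  have e2 : (finRotate 4) 2 = 3 := by decide
  have e3 : (finRotate 4) 3 = 0 := by decide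
  fin_cases i
  · change IsConj (rot (per 0)) (per (finRotate 4 0) ^ (1 : ℤ))
    rw [e0, per0, per1, rot_x0, zpow_one]
  · change IsConj (rot (per 1)) (per (finRotate 4 1) ^ (1 : ℤ))
    rw [e1, per1, per2, rot_x1, zpow_one]
  · change IsConj (rot (per 2)) (per (finRotate 4 2) ^ (1 : ℤ))
    rw [e2, per2, per3, rot_x2, zpow_one]
  · change IsConj (rot (per 3)) (per (finRotate 4 3) ^ (1 : ℤ))
    rw [e3, per3, per0, map_inv, map_mul, map_mul, rot_x0, rot_x1, rot_x2, zpow_one]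
    have e : (x 1 * x 2 * (x 0 * x 1 * x 2)⁻¹)⁻¹ = x 0 := by group
    rw [e]

lemma lin_rot : (lin rot) 0 0 = 0 := by
  unfold lin
  rw [rot_x0, rot_x1]
  simp

/-- Reflecting the twist gives the inverse of a twist. -/
lemma refl_twist : Pen.refl * twist0 * Pen.refl = (rot * twist0 * rot⁻¹)⁻¹ := by
  have h : Pen.refl * twist0 * Pen.refl * (rot * twist0) = rot := by
    apply MulEquiv.toMonoidHom_injective
    ext i
    fin_cases i
    · change Pen.refl (twist0 (Pen.refl (rot (twist0 (x 0))))) = rot (x 0)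
      simp only [map_mul, map_inv, twist0_x0, curve0, rot_x0, rot_x1, rot_x2, refl_x0, refl_x1,
        refl_x2, twist0_x1, twist0_x2]
      group
    · change Pen.refl (twist0 (Pen.refl (rot (twist0 (x 1))))) = rot (x 1)
      simp only [map_mul, map_inv, twist0_x0, curve0, rot_x0, rot_x1, rot_x2, refl_x0, refl_x1,
        refl_x2, twist0_x1, twist0_x2]
      group
    · change Pen.refl (twist0 (Pen.refl (rot (twist0 (x 2))))) = rot (x 2)
      simp only [map_mul, map_inv, twist0_x0, curve0, rot_x0, rot_x1, rot_x2, refl_x0, refl_x1,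
        refl_x2, twist0_x1, twist0_x2]
      group
  rw [eq_inv_iff_mul_eq_one, ← mul_assoc, h, mul_inv_cancel]

lemma refl_refl : Pen.refl * Pen.refl = 1 := by
  apply MulEquiv.toMonoidHom_injective
  exact refl_comp

/-- Two twists which commute are about parallel curves. -/
lemma parallel {φ ψ : MulAut F3} (hφ : Geometric 1 φ) (hψ : Geometric 1 ψ)
    (h : Commute ((φ * twist0 * φ⁻¹ : MulAut F3) : OutF3)
      ((ψ * twist0 * ψ⁻¹ : MulAut F3) : OutF3)) :
    lin φ 0 0 * lin ψ 1 0 - lin ψ 0 0 * lin φ 1 0 = 0 := by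
  obtain ⟨hp, hl⟩ := lin_twist hφ
  obtain ⟨hp', hl'⟩ := lin_twist hψ
  have h3 := lin_out (hp'.mul hp)
    (ψ := (φ * twist0 * φ⁻¹) * (ψ * twist0 * ψ⁻¹)) (by
      rw [QuotientGroup.mk_mul, QuotientGroup.mk_mul _ (φ * twist0 * φ⁻¹) (ψ * twist0 * ψ⁻¹)]
      exact h.eq.symm)
  rw [lin_mul hp hp', lin_mul hp' hp, hl, hl'] at h3
  exact parallel_of_commute h3

end Pool.Agent.KS6_96.Pen
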