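import Pool.Agent.KS6_96.Pen.Braid

/-!
# Blocks
-/

set_option autoImplicit false

namespace Pool.Agent.KS6_96.Pen

/-- The word `w` with the two letters exchanged. -/
def swp (w : List Bool) : List Bool := w.map not

/-- The block `L ^ (2 p + 1) (R m L) R ^ (2 q + 1) (L m' R)`, where `m'` is `m` read backwards with
the letters `L` and `R` exchanged.  The letter `L` is `true` and the letter `R` is `false`. -/
def blk (m : List Bool) (p : ℕ × ℕ) : List Bool :=
  List.replicate (2 * p.1 + 1) true ++ ([false] ++ m ++ [true]) ++
    List.replicate (2 * p.2 + 1) false ++ ([true] ++ (swp m).reverse ++ [false])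

/-- The word in which every letter of `l` is doubled. -/
def dbl (l : List Bool) : List Bool := l.flatMap (fun c => [c, c])

/-- A Penner word: up to rotation it is a concatenation of squares `LL`, `RR` of letters, or there
is a word `m` such that it is a concatenation of blocks `L ^ odd (R m L) R ^ odd (L m' R)`. -/
def PennerWord (c : List Bool) : Prop :=
  (∃ l : List Bool, c ~r dbl l) ∨
    ∃ (m : List Bool) (l : List (ℕ × ℕ)), c ~r l.flatMap (blk m)

section group

variable {G : Type*} [Group G]

lemma ev_replicate_true (a b : G) (n : ℕ) : ev a b (List.replicate n true) = a ^ n := by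
  simp [ev]

lemma ev_replicate_false (a b : G) (n : ℕ) : ev a b (List.replicate n false) = b ^ n := by
  simp [ev]

lemma ev_dbl (a b : G) (l : List Bool) : ev a b (dbl l) = ev (a ^ 2) (b ^ 2) l := by
  induction l with
  | nil => rfl
  | cons c l ih =>
    have : dbl (c :: l) = c :: c :: dbl l := rfl
    rw [this, ev_cons, ev_cons, ev_cons, ih]
    cases c <;> simp [pow_two, mul_assoc]

/-- The key identity. -/
lemma ev_twist {a b : G} (h : a * b⁻¹ * a = b⁻¹ * a * b⁻¹) (m : List Bool) :
    ev a b m * (a * b⁻¹ * a) * ev a b (swp m).reverse = a * b⁻¹ * a := by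
  have e1 : a * (a * b⁻¹ * a) * b = a * b⁻¹ * a := by
    calc a * (a * b⁻¹ * a) * b = a * (b⁻¹ * a * b⁻¹) * b := by rw [h]
      _ = _ := by group
  have e2 : b * (a * b⁻¹ * a) * a = a * b⁻¹ * a := by
    calc b * (a * b⁻¹ * a) * a = b * (b⁻¹ * a * b⁻¹) * a := by rw [h]
      _ = _ := by group
  induction m with
  | nil => simp [swp]
  | cons c m ih =>
    have hs : (swp (c :: m)).reverse = (swp m).reverse ++ [!c] := by simp [swp]
    rw [hs, ev_append, ev_cons]
    have : cond c a b * ev a b m * (a * b⁻¹ * a) * (ev a b (swp m).reverse * ev a b [!c]) =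
        cond c a b * (ev a b m * (a * b⁻¹ * a) * ev a b (swp m).reverse) * ev a b [!c] := by
      group
    rw [this, ih]
    cases c
    · simpa [ev] using e2
    · simpa [ev] using e1

/-- The conjugating element of the second twist. -/
def conjElt (a b : G) (m : List Bool) : G := a⁻¹ * b * ev a b m * a

lemma conjElt_inv {a b : G} (h : a * b⁻¹ * a = b⁻¹ * a * b⁻¹) (m : List Bool) :
    (conjElt a b m)⁻¹ = b⁻¹ * a * ev a b (swp m).reverse * b := by
  apply inv_eq_of_mul_eq_one_right
  have h1 := ev_twist h m
  calc conjElt a b m * (b⁻¹ * a * ev a b (swp m).reverse * b)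
      = a⁻¹ * b * (ev a b m * (a * b⁻¹ * a) * ev a b (swp m).reverse) * b := by
        unfold conjElt; group
    _ = a⁻¹ * b * (b⁻¹ * a * b⁻¹) * b := by rw [h1, h]
    _ = 1 := by group

lemma ev_blk {a b : G} (h : a * b⁻¹ * a = b⁻¹ * a * b⁻¹) (m : List Bool) (p : ℕ × ℕ) :
    ev a b (blk m p) = (a ^ 2) ^ (p.1 + 1) *
      (conjElt a b m * b ^ 2 * (conjElt a b m)⁻¹) ^ (p.2 + 1) := by
  rw [conj_pow, conjElt_inv h]
  unfold blk conjElt
  simp only [ev_append, ev_replicate_true, ev_replicate_false]
  have e1 : ev a b [false] = b := by simp [ev]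
  have e2 : ev a b [true] = a := by simp [ev]
  rw [e1, e2, ← pow_mul, ← pow_mul]
  have e3 : 2 * (p.1 + 1) = (2 * p.1 + 1) + 1 := by ring
  have e4 : 2 * (p.2 + 1) = (2 * p.2 + 1) + 1 := by ring
  rw [e3, e4, pow_succ a (2 * p.1 + 1), pow_succ b (2 * p.2 + 1)]
  group

lemma ev_blks {a b : G} (h : a * b⁻¹ * a = b⁻¹ * a * b⁻¹) (m : List Bool) (l : List (ℕ × ℕ)) :
    ev a b (l.flatMap (blk m)) = ev (a ^ 2) (conjElt a b m * b ^ 2 * (conjElt a b m)⁻¹)
      (l.flatMap (fun p => List.replicate (p.1 + 1) true ++ List.replicate (p.2 + 1) false)) := by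
  induction l with
  | nil => rfl
  | cons p l ih =>
    rw [List.flatMap_cons, List.flatMap_cons, ev_append, ev_append, ih, ev_blk h, ev_append,
      ev_replicate_true, ev_replicate_false]

end group

/-- A word which begins with `true` and ends with `false` is a product of powers of the letters. -/
lemma compress (n : ℕ) : ∀ l : List Bool, l.length ≤ n → ∃ (ps : List (ℕ × ℕ)),
    true :: (l ++ [false]) =
      ps.flatMap (fun p => List.replicate (p.1 + 1) true ++ List.replicate (p.2 + 1) false) := by
  induction n with
  | zero =>
    intro l hl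
    have : l = [] := List.length_eq_zero_iff.1 (by omega)
    subst this
    exact ⟨[(0, 0)], rfl⟩
  | succ n ih =>
    intro l hl
    rcases l with _ | ⟨c, l⟩
    · exact ⟨[(0, 0)], rfl⟩
    · cases c
      · -- second letter `false`
        rcases l with _ | ⟨c, l⟩
        · exact ⟨[(0, 1)], rfl⟩
        · cases c
          · obtain ⟨ps, hps⟩ := ih (false :: l) (by simp at hl ⊢; omega)
            rcases ps with _ | ⟨⟨i, j⟩, ps⟩
            · simp at hps
            · rcases i with _ | i
              · refine ⟨(0, j + 1) :: ps, ?_⟩
                have e : false :: (l ++ [false]) = List.replicate (j + 1) false ++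
                    ps.flatMap (fun p => List.replicate (p.1 + 1) true ++
                      List.replicate (p.2 + 1) false) := by
                  simpa using hps
                rw [List.flatMap_cons, List.replicate_succ (n := j + 1)]
                simp only [zero_add, List.replicate_one, List.cons_append, List.nil_append,
                  List.append_assoc]
                rw [← e]
              · exfalso
                simp [List.replicate_succ] at hps
          · obtain ⟨ps, hps⟩ := ih l (by simp at hl ⊢; omega)
            refine ⟨(0, 0) :: ps, ?_⟩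
            rw [List.flatMap_cons, ← hps]
            rfl
      · obtain ⟨ps, hps⟩ := ih l (by simp at hl ⊢; omega)
        rcases ps with _ | ⟨⟨i, j⟩, ps⟩
        · simp at hps
        · refine ⟨(i + 1, j) :: ps, ?_⟩
          rw [List.flatMap_cons, List.replicate_succ (n := i + 1)]
          rw [List.flatMap_cons] at hps
          simp only [List.cons_append, List.append_assoc] at hps ⊢
          rw [← hps]

/-- A word with both letters has a rotation which begins with `true` and ends with `false`. -/
lemma exists_rotation {l : List Bool} (ht : true ∈ l) (hf : false ∈ l) :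
    ∃ u v w : List Bool, l = u ++ v ∧ v ++ u = true :: (w ++ [false]) := by
  -- find a place where `false` is followed by `true`, cyclically
  have key : ∀ l : List Bool, true ∈ l → false ∈ l →
      (∃ l1 l2, l = l1 ++ false :: true :: l2) ∨ (∃ w, l = true :: (w ++ [false])) := by
    intro l
    induction l with
    | nil => intro h; simp at h
    | cons c l ih =>
      intro ht hf
      cases c
      · -- first letter `false`
        have ht' : true ∈ l := by simpa using ht
        by_cases hf' : false ∈ l
        · rcases ih ht' hf' with ⟨l1, l2, h⟩ | ⟨w, h⟩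
          · exact Or.inl ⟨false :: l1, l2, by rw [h]; rfl⟩
          · exact Or.inl ⟨[], w ++ [false], by rw [h]; rfl⟩
        · rcases l with _ | ⟨c, l⟩
          · simp at ht'
          · cases c
            · simp at hf'
            · exact Or.inl ⟨[], l, rfl⟩
      · have hf' : false ∈ l := by simpa using hf
        by_cases ht' : true ∈ l
        · rcases ih ht' hf' with ⟨l1, l2, h⟩ | ⟨w, h⟩
          · exact Or.inl ⟨true :: l1, l2, by rw [h]; rfl⟩
          · exact Or.inr ⟨true :: w, by rw [h]; rfl⟩
        · right
          rcases List.eq_nil_or_concat l with rfl | ⟨l', c, rfl⟩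
          · simp at hf'
          · rw [List.concat_eq_append] at ht' ⊢
            cases c
            · exact ⟨l', rfl⟩
            · simp at ht'
  rcases key l ht hf with ⟨l1, l2, h⟩ | ⟨w, h⟩
  · exact ⟨l1 ++ [false], true :: l2, l2 ++ l1, by rw [h]; simp, by simp⟩
  · exact ⟨[], l, w, by simp, by rw [h]; simp⟩

end Pool.Agent.KS6_96.Pen
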