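import Mathlib

/-!
# Words in the matrices `L = !![1, 1; 0, 1]` and `R = !![1, 0; 1, 1]`

The monoid of the matrices in `SL(2, ℤ)` with entries `≥ 0` is free on `L` and `R`; two words in
which both letters occur are conjugate in `SL(2, ℤ)` only if they are rotations of each other.
-/

set_option autoImplicit false

namespace Pool.Agent.KS6_96.Pen

open Matrix

/-- The letters: `true` is `L` and `false` is `R`. -/
def LRl : Bool → Matrix (Fin 2) (Fin 2) ℤ
  | true => !![1, 1; 0, 1]
  | false => !![1, 0; 1, 1]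

/-- The product of the letters of a word. -/
def LR (l : List Bool) : Matrix (Fin 2) (Fin 2) ℤ := (l.map LRl).prod

@[simp] lemma LR_nil : LR [] = 1 := rfl

lemma LR_cons (c : Bool) (l : List Bool) : LR (c :: l) = LRl c * LR l := by simp [LR]

lemma LR_append (l m : List Bool) : LR (l ++ m) = LR l * LR m := by simp [LR]

lemma LR_cons_true (l : List Bool) : LR (true :: l) =
    !![LR l 0 0 + LR l 1 0, LR l 0 1 + LR l 1 1; LR l 1 0, LR l 1 1] := by
  rw [LR_cons]
  ext i j
  fin_cases i <;> fin_cases j <;> simp [LRl, Matrix.mul_apply, Fin.sum_univ_two]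

lemma LR_cons_false (l : List Bool) : LR (false :: l) =
    !![LR l 0 0, LR l 0 1; LR l 0 0 + LR l 1 0, LR l 0 1 + LR l 1 1] := by
  rw [LR_cons]
  ext i j
  fin_cases i <;> fin_cases j <;> simp [LRl, Matrix.mul_apply, Fin.sum_univ_two]

lemma det_LR (l : List Bool) : (LR l).det = 1 := by
  induction l with
  | nil => simp
  | cons c l ih =>
    rw [LR_cons, Matrix.det_mul, ih]
    cases c <;> simp [LRl, Matrix.det_fin_two]

lemma det_LR' (l : List Bool) : LR l 0 0 * LR l 1 1 - LR l 0 1 * LR l 1 0 = 1 := by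
  rw [← Matrix.det_fin_two, det_LR]

lemma LR_nonneg (l : List Bool) :
    1 ≤ LR l 0 0 ∧ 1 ≤ LR l 1 1 ∧ 0 ≤ LR l 0 1 ∧ 0 ≤ LR l 1 0 := by
  induction l with
  | nil => simp
  | cons c l ih =>
    obtain ⟨h1, h2, h3, h4⟩ := ih
    cases c
    · rw [LR_cons_false]; simp; omega
    · rw [LR_cons_true]; simp; omega

lemma LR_pos01 {l : List Bool} (h : true ∈ l) : 1 ≤ LR l 0 1 := by
  induction l with
  | nil => simp at h
  | cons c l ih =>
    obtain ⟨h1, h2, h3, h4⟩ := LR_nonneg l
    cases c
    · have := ih (by simpa using h)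
      rw [LR_cons_false]; simp; omega
    · rw [LR_cons_true]; simp; omega

lemma LR_pos10 {l : List Bool} (h : false ∈ l) : 1 ≤ LR l 1 0 := by
  induction l with
  | nil => simp at h
  | cons c l ih =>
    obtain ⟨h1, h2, h3, h4⟩ := LR_nonneg l
    cases c
    · rw [LR_cons_false]; simp; omega
    · have := ih (by simpa using h)
      rw [LR_cons_true]; simp; omega

lemma eq_nil_of_LR {l : List Bool} (h01 : LR l 0 1 = 0) (h10 : LR l 1 0 = 0) : l = [] := by
  rcases l with _ | ⟨c, l⟩
  · rfl
  · exfalso
    cases c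
    · have := LR_pos10 (l := false :: l) (by simp)
      omega
    · have := LR_pos01 (l := true :: l) (by simp)
      omega

lemma LR_injective : Function.Injective LR := by
  intro l
  induction l with
  | nil =>
    intro m h
    exact (eq_nil_of_LR (by rw [← h]; simp) (by rw [← h]; simp)).symm
  | cons c l ih =>
    intro m h
    rcases m with _ | ⟨c', m⟩
    · exact eq_nil_of_LR (by rw [h]; simp) (by rw [h]; simp)
    · obtain ⟨h1, h2, h3, h4⟩ := LR_nonneg l
      obtain ⟨h1', h2', h3', h4'⟩ := LR_nonneg m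
      have e : ∀ i j, LR (c :: l) i j = LR (c' :: m) i j := fun i j => by rw [h]
      have e00 := e 0 0
      have e01 := e 0 1
      have e10 := e 1 0
      have e11 := e 1 1
      cases c <;> cases c'
      · rw [LR_cons_false, LR_cons_false] at e00 e01 e10 e11
        simp at e00 e01 e10 e11
        congr 1
        apply ih
        ext i j
        fin_cases i <;> fin_cases j <;> simp <;> omega
      · exfalso
        rw [LR_cons_false, LR_cons_true] at e00 e01 e10 e11
        simp at e00 e01 e10 e11
        omega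
      · exfalso
        rw [LR_cons_false, LR_cons_true] at e00 e01 e10 e11
        simp at e00 e01 e10 e11
        omega
      · rw [LR_cons_true, LR_cons_true] at e00 e01 e10 e11
        simp at e00 e01 e10 e11
        congr 1
        apply ih
        ext i j
        fin_cases i <;> fin_cases j <;> simp <;> omega

/-- Every matrix of determinant one with entries `≥ 0` is the matrix of a word. -/
lemma LR_surj (n : ℕ) : ∀ a b c d : ℤ, 0 ≤ a → 0 ≤ b → 0 ≤ c → 0 ≤ d → a * d - b * c = 1 →
    a + b + c + d ≤ n → ∃ l, LR l = !![a, b; c, d] := by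
  induction n with
  | zero =>
    intro a b c d h1 h2 h3 h4 hd hn
    exfalso
    have : a = 0 := by push_cast at hn; omega
    have : b = 0 := by push_cast at hn; omega
    subst_vars
    simp at hd
  | succ n ih =>
    intro a b c d h1 h2 h3 h4 hd hn
    have ha : 1 ≤ a := by
      by_contra hcon
      have : a = 0 := by omega
      subst this
      nlinarith [mul_nonneg h2 h3]
    have hd' : 1 ≤ d := by
      by_contra hcon
      have : d = 0 := by omega
      subst this
      nlinarith [mul_nonneg h2 h3]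
    by_cases h0 : b = 0 ∧ c = 0
    · obtain ⟨rfl, rfl⟩ := h0
      have had : a * d = 1 := by linarith
      have ha1 : a = 1 := by nlinarith
      subst ha1
      have hd1 : d = 1 := by linarith
      subst hd1
      exact ⟨[], by simp [Matrix.one_fin_two]⟩
    · by_cases hA : c ≤ a ∧ d ≤ b
      · obtain ⟨l, hl⟩ := ih (a - c) (b - d) c d (by omega) (by omega) h3 h4
          (by linear_combination hd) (by push_cast at hn ⊢; omega)
        refine ⟨true :: l, ?_⟩
        rw [LR_cons_true, hl]
        simp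
      · by_cases hB : a ≤ c ∧ b ≤ d
        · obtain ⟨l, hl⟩ := ih a b (c - a) (d - b) h1 h2 (by omega) (by omega)
            (by linear_combination hd) (by push_cast at hn ⊢; omega)
          refine ⟨false :: l, ?_⟩
          rw [LR_cons_false, hl]
          simp
        · exfalso
          rcases lt_or_ge c a with h | h
          · have h' : b < d := by
              by_contra hcon
              exact hA ⟨h.le, not_lt.1 hcon⟩
            have : (c + 1) * (b + 1) ≤ a * d :=
              mul_le_mul (by omega) (by omega) (by omega) (by omega)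
            apply h0
            constructor <;> nlinarith
          · have h' : d < b := by
              by_contra hcon
              exact hB ⟨h, not_lt.1 hcon⟩
            have : a * d ≤ c * b := mul_le_mul h (by omega) (by omega) (by omega)
            nlinarith

/-- Every pair of coprime positive integers is the sum of the columns of the matrix of a word. -/
lemma stern_brocot (n : ℕ) : ∀ a b : ℤ, 1 ≤ a → 1 ≤ b → IsCoprime a b → a + b ≤ n →
    ∃ m, LR m 0 0 + LR m 0 1 = a ∧ LR m 1 0 + LR m 1 1 = b := by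
  induction n with
  | zero => intro a b h1 h2 _ h; exfalso; push_cast at h; omega
  | succ n ih =>
    intro a b h1 h2 hco hn
    rcases lt_trichotomy a b with h | h | h
    · have hco' : IsCoprime a (b - a) := by
        have : IsCoprime a (b + a * (-1)) := (IsCoprime.add_mul_left_right_iff).2 hco
        convert this using 1; ring
      obtain ⟨m, hm1, hm2⟩ := ih a (b - a) h1 (by omega) hco' (by push_cast at hn ⊢; omega)
      refine ⟨false :: m, ?_⟩
      rw [LR_cons_false]
      simp
      omega
    · subst h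
      have hu : IsUnit a := isCoprime_self.1 hco
      rcases Int.isUnit_iff.1 hu with rfl | rfl
      · exact ⟨[], by simp⟩
      · omega
    · have hco' : IsCoprime (a - b) b := by
        have : IsCoprime (a + b * (-1)) b := (IsCoprime.add_mul_left_left_iff).2 hco
        convert this using 1; ring
      obtain ⟨m, hm1, hm2⟩ := ih (a - b) b (by omega) h2 hco' (by push_cast at hn ⊢; omega)
      refine ⟨true :: m, ?_⟩
      rw [LR_cons_true]
      simp
      omega

/-! ### Conjugate words -/

/-- A vector which is multiplied by a positive matrix again and again does not keep coordinates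
of opposite signs. -/
lemma descent {a b c d : ℤ} (ha : 1 ≤ a) (hb : 1 ≤ b) (hc : 1 ≤ c) (hd : 1 ≤ d)
    (hdet : a * d - b * c = 1) (n : ℕ) : ∀ p q : ℤ, |p| + |q| ≤ n →
    ∃ k : ℕ, 0 ≤ ((!![a, b; c, d] ^ k : Matrix (Fin 2) (Fin 2) ℤ) 0 0 * p +
        (!![a, b; c, d] ^ k : Matrix (Fin 2) (Fin 2) ℤ) 0 1 * q) *
      ((!![a, b; c, d] ^ k : Matrix (Fin 2) (Fin 2) ℤ) 1 0 * p +
        (!![a, b; c, d] ^ k : Matrix (Fin 2) (Fin 2) ℤ) 1 1 * q) := by
  induction n with
  | zero =>
    intro p q h
    refine ⟨0, ?_⟩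
    have hp : |p| = 0 := by have := abs_nonneg p; have := abs_nonneg q; push_cast at h; omega
    rw [abs_eq_zero] at hp
    subst hp
    simp
  | succ n ih =>
    intro p q h
    by_cases h0 : 0 ≤ p * q
    · exact ⟨0, by simpa using h0⟩
    · push Not at h0
      set p' := a * p + b * q with hp'
      set q' := c * p + d * q with hq'
      have ep : p = d * p' - b * q' := by rw [hp', hq']; linear_combination (-p) * hdet
      have eq : q = -(c * p') + a * q' := by rw [hp', hq']; linear_combination (-q) * hdet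
      by_cases h1 : 0 ≤ p' * q'
      · refine ⟨1, ?_⟩
        rw [pow_one]
        simpa [← hp', ← hq'] using h1
      · push Not at h1
        have hlt : |p'| + |q'| + 1 ≤ |p| + |q| := by
          rcases lt_trichotomy p' 0 with hp0 | hp0 | hp0
          · have hq0 : 0 < q' := by
              by_contra hcon
              nlinarith [mul_nonneg_of_nonpos_of_nonpos hp0.le (not_lt.1 hcon)]
            have e1 : p ≤ p' - q' := by rw [ep]; nlinarith
            have e2 : q' - p' ≤ q := by rw [eq]; nlinarith
            rw [abs_of_neg hp0, abs_of_pos hq0, abs_of_neg (by omega), abs_of_pos (by omega)]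
            omega
          · rw [hp0] at h1; simp at h1
          · have hq0 : q' < 0 := by
              by_contra hcon
              nlinarith [mul_nonneg hp0.le (not_lt.1 hcon)]
            have e1 : p' - q' ≤ p := by rw [ep]; nlinarith
            have e2 : q ≤ q' - p' := by rw [eq]; nlinarith
            rw [abs_of_pos hp0, abs_of_neg hq0, abs_of_pos (by omega), abs_of_neg (by omega)]
            omega
        obtain ⟨k, hk⟩ := ih p' q' (by push_cast at h ⊢; omega)
        refine ⟨k + 1, ?_⟩
        rw [pow_succ]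
        set X := (!![a, b; c, d] ^ k : Matrix (Fin 2) (Fin 2) ℤ)
        have e0 : (X * !![a, b; c, d]) 0 0 * p + (X * !![a, b; c, d]) 0 1 * q =
            X 0 0 * p' + X 0 1 * q' := by
          simp [Matrix.mul_apply, Fin.sum_univ_two, hp', hq']; ring
        have e1 : (X * !![a, b; c, d]) 1 0 * p + (X * !![a, b; c, d]) 1 1 * q =
            X 1 0 * p' + X 1 1 * q' := by
          simp [Matrix.mul_apply, Fin.sum_univ_two, hp', hq']; ring
        rw [e0, e1]
        exact hk

/-- Multiplication by a matrix with entries `≥ 0` preserves vectors without sign change. -/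
lemma unmixed_step {a b c d p q : ℤ} (ha : 0 ≤ a) (hb : 0 ≤ b) (hc : 0 ≤ c) (hd : 0 ≤ d)
    (h : 0 ≤ p * q) : 0 ≤ (a * p + b * q) * (c * p + d * q) := by
  have e : (a * p + b * q) * (c * p + d * q) =
      (a * c) * p ^ 2 + (a * d + b * c) * (p * q) + (b * d) * q ^ 2 := by ring
  rw [e]
  positivity

lemma descent' {M : Matrix (Fin 2) (Fin 2) ℤ} (ha : 1 ≤ M 0 0) (hb : 1 ≤ M 0 1) (hc : 1 ≤ M 1 0)
    (hd : 1 ≤ M 1 1) (hdet : M.det = 1) (p q : ℤ) :
    ∃ k : ℕ, ∀ m ≥ k, 0 ≤ ((M ^ m) 0 0 * p + (M ^ m) 0 1 * q) *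
      ((M ^ m) 1 0 * p + (M ^ m) 1 1 * q) := by
  have hM : M = !![M 0 0, M 0 1; M 1 0, M 1 1] := by
    ext i j
    fin_cases i <;> fin_cases j <;> rfl
  rw [Matrix.det_fin_two] at hdet
  obtain ⟨k, hk⟩ := descent ha hb hc hd hdet (|p| + |q|).toNat p q (by
    have := abs_nonneg p; have := abs_nonneg q; omega)
  rw [← hM] at hk
  refine ⟨k, fun m hm => ?_⟩
  induction m, hm using Nat.le_induction with
  | base => exact hk
  | succ m hm ih =>
    rw [pow_succ']
    set X := M ^ m
    have e0 : (M * X) 0 0 * p + (M * X) 0 1 * q =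
        M 0 0 * (X 0 0 * p + X 0 1 * q) + M 0 1 * (X 1 0 * p + X 1 1 * q) := by
      simp [Matrix.mul_apply, Fin.sum_univ_two]; ring
    have e1 : (M * X) 1 0 * p + (M * X) 1 1 * q =
        M 1 0 * (X 0 0 * p + X 0 1 * q) + M 1 1 * (X 1 0 * p + X 1 1 * q) := by
      simp [Matrix.mul_apply, Fin.sum_univ_two]; ring
    rw [e0, e1]
    exact unmixed_step (by omega) (by omega) (by omega) (by omega) ih

/-- The combinatorial conjugacy of words. -/
lemma rotated_of_comm (n : ℕ) : ∀ U A B : List Bool, U.length ≤ n → B ≠ [] → U ++ A = B ++ U →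
    A ~r B := by
  induction n with
  | zero =>
    intro U A B hn _ h
    have : U = [] := List.length_eq_zero_iff.1 (by omega)
    subst this
    simp at h
    rw [h]
  | succ n ih =>
    intro U A B hn hB h
    rcases le_or_gt B.length U.length with hle | hlt
    · have hp : B <+: U := by
        apply List.prefix_of_prefix_length_le (l₃ := U ++ A)
        · rw [h]; exact List.prefix_append _ _
        · exact List.prefix_append _ _
        · exact hle
      obtain ⟨U', rfl⟩ := hp
      have h' : U' ++ A = B ++ U' := by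
        apply List.append_cancel_left (as := B)
        rw [← List.append_assoc, h]
      refine ih U' A B ?_ hB h'
      have : 0 < B.length := List.length_pos_iff.2 hB
      simp at hn
      omega
    · have hp : U <+: B := by
        apply List.prefix_of_prefix_length_le (l₃ := U ++ A)
        · exact List.prefix_append _ _
        · rw [h]; exact List.prefix_append _ _
        · exact hlt.le
      obtain ⟨V, rfl⟩ := hp
      have h' : A = V ++ U := by
        apply List.append_cancel_left (as := U)
        rw [h]; simp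
      rw [h']
      exact List.isRotated_append

lemma sign_key {p q r s a c : ℤ} (ha : 1 ≤ a) (hc : 1 ≤ c) (P0 : 0 ≤ p * r) (P1 : 0 ≤ q * s)
    (P2 : 0 ≤ p * q) (P3 : 0 ≤ r * s) (P4 : 0 ≤ (p * a + q * c) * (r * a + s * c))
    (hdet : p * s - q * r = 1) :
    (0 ≤ p ∧ 0 ≤ q ∧ 0 ≤ r ∧ 0 ≤ s) ∨ (0 ≤ -p ∧ 0 ≤ -q ∧ 0 ≤ -r ∧ 0 ≤ -s) := by
  rcases lt_trichotomy p 0 with hp | hp | hp
  · right
    have hq : q ≤ 0 := by
      by_contra hcon
      have := mul_neg_of_neg_of_pos hp (not_le.1 hcon)
      omega
    have hr : r ≤ 0 := by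
      by_contra hcon
      have := mul_neg_of_neg_of_pos hp (not_le.1 hcon)
      omega
    have hs : s ≤ 0 := by
      by_contra hcon
      have h1 := mul_neg_of_neg_of_pos hp (not_le.1 hcon)
      have h2 := mul_nonneg_of_nonpos_of_nonpos hq hr
      omega
    omega
  · exfalso
    subst hp
    have hqr : q * r = -1 := by linarith
    have hs : s = 0 := by
      rcases Int.eq_one_or_neg_one_of_mul_eq_neg_one hqr with hq | hq
      · subst hq
        have hr : r = -1 := by linarith
        subst hr
        omega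
      · subst hq
        have hr : r = 1 := by linarith
        subst hr
        omega
    subst hs
    have e : (0 * a + q * c) * (r * a + 0 * c) = -(a * c) := by linear_combination (a * c) * hqr
    rw [e] at P4
    have := mul_pos (show 0 < a by omega) (show 0 < c by omega)
    omega
  · left
    have hq : 0 ≤ q := by
      by_contra hcon
      have := mul_neg_of_pos_of_neg hp (not_le.1 hcon)
      omega
    have hr : 0 ≤ r := by
      by_contra hcon
      have := mul_neg_of_pos_of_neg hp (not_le.1 hcon)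
      omega
    have hs : 0 ≤ s := by
      by_contra hcon
      have h1 := mul_neg_of_pos_of_neg hp (not_le.1 hcon)
      have h2 := mul_nonneg hq hr
      omega
    omega

/-- Words with both letters which are conjugate in `SL(2, ℤ)` are rotations of each other. -/
theorem rotated_of_conj {W1 W2 : List Bool} (t1 : true ∈ W1) (f1 : false ∈ W1) (t2 : true ∈ W2)
    (f2 : false ∈ W2) {g : Matrix (Fin 2) (Fin 2) ℤ} (hg : g.det = 1)
    (h : g * LR W1 = LR W2 * g) : W1 ~r W2 := by
  obtain ⟨a1, d1, -, -⟩ := LR_nonneg W1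
  obtain ⟨a2, d2, -, -⟩ := LR_nonneg W2
  have b1 := LR_pos01 t1
  have c1 := LR_pos10 f1
  have b2 := LR_pos01 t2
  have c2 := LR_pos10 f2
  have hcomm : ∀ n : ℕ, g * LR W1 ^ n = LR W2 ^ n * g := by
    intro n
    induction n with
    | zero => simp
    | succ n ih => rw [pow_succ, ← Matrix.mul_assoc, ih, Matrix.mul_assoc, h, ← Matrix.mul_assoc,
        ← pow_succ]
  -- columns
  obtain ⟨k0, hk0⟩ := descent' a2 b2 c2 d2 (det_LR W2) (g 0 0) (g 1 0)
  obtain ⟨k1, hk1⟩ := descent' a2 b2 c2 d2 (det_LR W2) (g 0 1) (g 1 1)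
  -- rows
  have tr : (LR W1)ᵀ.det = 1 := by rw [Matrix.det_transpose, det_LR]
  obtain ⟨k2, hk2⟩ := descent' (M := (LR W1)ᵀ) a1 c1 b1 d1 tr (g 0 0) (g 0 1)
  obtain ⟨k3, hk3⟩ := descent' (M := (LR W1)ᵀ) a1 c1 b1 d1 tr (g 1 0) (g 1 1)
  set n := max (max k0 k1) (max k2 k3) with hn
  have P0 := hk0 n (by omega)
  have P0' := hk0 (n + 1) (by omega)
  have P1 := hk1 n (by omega)
  have P2 := hk2 n (by omega)
  have P3 := hk3 n (by omega)
  set N := g * LR W1 ^ n with hN
  have hNdet : N.det = 1 := by rw [hN, Matrix.det_mul, Matrix.det_pow, hg, det_LR]; simp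
  have hNc : LR W2 * N = N * LR W1 := by
    rw [hN, hcomm n, ← Matrix.mul_assoc, ← pow_succ', ← hcomm, pow_succ, ← Matrix.mul_assoc,
      ← hcomm n]
  have c00 : N 0 0 = (LR W2 ^ n) 0 0 * g 0 0 + (LR W2 ^ n) 0 1 * g 1 0 := by
    rw [hN, hcomm, Matrix.mul_apply, Fin.sum_univ_two]
  have c10 : N 1 0 = (LR W2 ^ n) 1 0 * g 0 0 + (LR W2 ^ n) 1 1 * g 1 0 := by
    rw [hN, hcomm, Matrix.mul_apply, Fin.sum_univ_two]
  have c01 : N 0 1 = (LR W2 ^ n) 0 0 * g 0 1 + (LR W2 ^ n) 0 1 * g 1 1 := by
    rw [hN, hcomm, Matrix.mul_apply, Fin.sum_univ_two]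
  have c11 : N 1 1 = (LR W2 ^ n) 1 0 * g 0 1 + (LR W2 ^ n) 1 1 * g 1 1 := by
    rw [hN, hcomm, Matrix.mul_apply, Fin.sum_univ_two]
  rw [← c00, ← c10] at P0
  rw [← c01, ← c11] at P1
  rw [← Matrix.transpose_pow] at P2 P3
  simp only [Matrix.transpose_apply] at P2 P3
  have r00 : N 0 0 = (LR W1 ^ n) 0 0 * g 0 0 + (LR W1 ^ n) 1 0 * g 0 1 := by
    rw [hN, Matrix.mul_apply, Fin.sum_univ_two]; ring
  have r01 : N 0 1 = (LR W1 ^ n) 0 1 * g 0 0 + (LR W1 ^ n) 1 1 * g 0 1 := by
    rw [hN, Matrix.mul_apply, Fin.sum_univ_two]; ring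
  have r10 : N 1 0 = (LR W1 ^ n) 0 0 * g 1 0 + (LR W1 ^ n) 1 0 * g 1 1 := by
    rw [hN, Matrix.mul_apply, Fin.sum_univ_two]; ring
  have r11 : N 1 1 = (LR W1 ^ n) 0 1 * g 1 0 + (LR W1 ^ n) 1 1 * g 1 1 := by
    rw [hN, Matrix.mul_apply, Fin.sum_univ_two]; ring
  rw [← r00, ← r01] at P2
  rw [← r10, ← r11] at P3
  -- the next column
  have hN1 : g * LR W1 ^ (n + 1) = N * LR W1 := by rw [pow_succ, ← Matrix.mul_assoc]
  have q00 : (N * LR W1) 0 0 = (LR W2 ^ (n + 1)) 0 0 * g 0 0 + (LR W2 ^ (n + 1)) 0 1 * g 1 0 := by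
    rw [← hN1, hcomm, Matrix.mul_apply, Fin.sum_univ_two]
  have q10 : (N * LR W1) 1 0 = (LR W2 ^ (n + 1)) 1 0 * g 0 0 + (LR W2 ^ (n + 1)) 1 1 * g 1 0 := by
    rw [← hN1, hcomm, Matrix.mul_apply, Fin.sum_univ_two]
  rw [← q00, ← q10, Matrix.mul_apply, Matrix.mul_apply, Fin.sum_univ_two, Fin.sum_univ_two] at P0'
  rw [Matrix.det_fin_two] at hNdet
  have hNe : N = !![N 0 0, N 0 1; N 1 0, N 1 1] := by
    ext i j
    fin_cases i <;> fin_cases j <;> rfl
  -- all entries have the same sign
  have key := sign_key a1 c1 P0 P1 P2 P3 P0' hNdet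
  have fin : ∀ U : List Bool, (LR U = N ∨ LR U = -N) → W1 ~r W2 := by
    intro U hU
    have e : LR (U ++ W1) = LR (W2 ++ U) := by
      rw [LR_append, LR_append]
      rcases hU with hU | hU
      · rw [hU, hNc]
      · rw [hU, Matrix.neg_mul, Matrix.mul_neg, hNc]
    have := LR_injective e
    refine rotated_of_comm U.length U W1 W2 le_rfl ?_ this
    rintro rfl
    simp at t2
  rcases key with ⟨k1, k2, k3, k4⟩ | ⟨k1, k2, k3, k4⟩
  · obtain ⟨U, hU⟩ := LR_surj (N 0 0 + N 0 1 + N 1 0 + N 1 1).toNat _ _ _ _ k1 k2 k3 k4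
      (by linarith) (by omega)
    exact fin U (Or.inl (hU.trans hNe.symm))
  · obtain ⟨U, hU⟩ := LR_surj (-N 0 0 + -N 0 1 + -N 1 0 + -N 1 1).toNat _ _ _ _ k1 k2 k3 k4
      (by linarith) (by omega)
    refine fin U (Or.inr (hU.trans ?_))
    rw [hNe]
    ext i j
    fin_cases i <;> fin_cases j <;> simp

end Pool.Agent.KS6_96.Pen
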