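import Pool.Agent.KS6_96.Pen.FG
import Pool.Agent.KS6_96.Pen.Base
import Pool.Agent.KS6_96.Pen.LR

/-!
# The braid group inside the automorphism group and faithfulness of the linear part
-/

set_option autoImplicit false

namespace Pool.Agent.KS6_96.Pen



/-! ### Words in a group generated by two elements -/

section words

variable {G : Type*} [Group G]

/-- Evaluation of a word: `true` is `a` and `false` is `b`. -/
def ev (a b : G) (l : List Bool) : G := (l.map (fun c => cond c a b)).prod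

@[simp] lemma ev_nil (a b : G) : ev a b [] = 1 := rfl

lemma ev_cons (a b : G) (c : Bool) (l : List Bool) : ev a b (c :: l) = cond c a b * ev a b l := by
  simp [ev]

lemma ev_append (a b : G) (l m : List Bool) : ev a b (l ++ m) = ev a b l * ev a b m := by
  simp [ev]

lemma ev_true (a b : G) (l : List Bool) : ev a b (true :: l) = a * ev a b l := ev_cons a b true l

lemma ev_false (a b : G) (l : List Bool) : ev a b (false :: l) = b * ev a b l :=
  ev_cons a b false l

/-- The relations of the braid group modulo its centre. -/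
structure BR (a b D : G) : Prop where
  h1 : D = a * b⁻¹ * a
  h2 : D = b⁻¹ * a * b⁻¹
  h3 : D * D = 1

/-- The normal form. -/
def NF (a b D : G) (g : G) : Prop :=
  ∃ (P Q : G) (w : List Bool), (P = 1 ∨ P = D) ∧ (Q = 1 ∨ Q = D) ∧ g = P * ev a b w * Q

lemma BR.inv {a b D : G} (h : BR a b D) : D⁻¹ = D := inv_eq_of_mul_eq_one_left h.h3

lemma BR.DQ {a b D : G} (h : BR a b D) {Q : G} (hQ : Q = 1 ∨ Q = D) : D * Q = 1 ∨ D * Q = D := by
  rcases hQ with rfl | rfl
  · right; simp
  · left; exact h.h3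

lemma BR.aD {a b D : G} (h : BR a b D) : a * D = D * b⁻¹ := by
  have e : D * a = b⁻¹ * D := by
    conv_rhs => rw [h.h1]
    conv_lhs => rw [h.h2]
    group
  have e2 : a = D * b⁻¹ * D := by
    calc a = D⁻¹ * (D * a) := by group
      _ = D * (b⁻¹ * D) := by rw [e, h.inv]
      _ = _ := by group
  calc a * D = D * b⁻¹ * (D * D) := by nth_rewrite 1 [e2]; group
    _ = _ := by rw [h.h3, mul_one]

lemma BR.bD {a b D : G} (h : BR a b D) : b * D = D * a⁻¹ := by
  have e : D * a = b⁻¹ * D := by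
    conv_rhs => rw [h.h1]
    conv_lhs => rw [h.h2]
    group
  calc b * D = b * (D * a) * a⁻¹ := by group
    _ = b * (b⁻¹ * D) * a⁻¹ := by rw [e]
    _ = _ := by group

lemma BR.aiD {a b D : G} (h : BR a b D) : a⁻¹ * D = D * b := by
  conv_lhs => rw [h.h1]
  conv_rhs => rw [h.h2]
  group

lemma BR.biD {a b D : G} (h : BR a b D) : b⁻¹ * D = D * a := by
  conv_lhs => rw [h.h1]
  conv_rhs => rw [h.h2]
  group

lemma BR.bia {a b D : G} (h : BR a b D) : b⁻¹ * a = D * b := by
  rw [h.h2]; group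

lemma BR.aib {a b D : G} (h : BR a b D) : a⁻¹ * b = D * a := by
  have : D⁻¹ = a⁻¹ * b * a⁻¹ := by
    rw [h.h1]; group
  rw [← h.inv, this]; group

lemma NF.mulD {a b D g : G} (h : BR a b D) (hg : NF a b D g) : NF a b D (D * g) := by
  obtain ⟨P, Q, w, hP, hQ, rfl⟩ := hg
  refine ⟨D * P, Q, w, h.DQ hP, hQ, by group⟩

lemma NF.mul_a {a b D g : G} (h : BR a b D) (hg : NF a b D g) : NF a b D (a * g) := by
  obtain ⟨P, Q, w, hP, hQ, rfl⟩ := hg
  rcases hP with rfl | rfl
  · exact ⟨1, Q, true :: w, Or.inl rfl, hQ, by rw [ev_true]; group⟩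
  · rcases w with _ | ⟨c, w⟩
    · refine ⟨1, P * Q, [true], Or.inl rfl, h.DQ hQ, ?_⟩
      rw [ev_true]; simp
    · cases c
      · refine ⟨P, Q, w, Or.inr rfl, hQ, ?_⟩
        rw [ev_false]
        calc a * (P * (b * ev a b w) * Q) = (a * P) * b * ev a b w * Q := by group
          _ = _ := by rw [h.aD]; group
      · refine ⟨1, Q, false :: w, Or.inl rfl, hQ, ?_⟩
        rw [ev_true, ev_false]
        calc a * (P * (a * ev a b w) * Q) = (a * P) * a * ev a b w * Q := by group
          _ = P * (b⁻¹ * a) * ev a b w * Q := by rw [h.aD]; group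
          _ = (P * P) * b * ev a b w * Q := by rw [h.bia]; group
          _ = _ := by rw [h.h3]; group

lemma NF.mul_b {a b D g : G} (h : BR a b D) (hg : NF a b D g) : NF a b D (b * g) := by
  obtain ⟨P, Q, w, hP, hQ, rfl⟩ := hg
  rcases hP with rfl | rfl
  · exact ⟨1, Q, false :: w, Or.inl rfl, hQ, by rw [ev_false]; group⟩
  · rcases w with _ | ⟨c, w⟩
    · refine ⟨1, P * Q, [false], Or.inl rfl, h.DQ hQ, ?_⟩
      rw [ev_false]; simp
    · cases c
      · refine ⟨1, Q, true :: w, Or.inl rfl, hQ, ?_⟩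
        rw [ev_true, ev_false]
        calc b * (P * (b * ev a b w) * Q) = (b * P) * b * ev a b w * Q := by group
          _ = P * (a⁻¹ * b) * ev a b w * Q := by rw [h.bD]; group
          _ = (P * P) * a * ev a b w * Q := by rw [h.aib]; group
          _ = _ := by rw [h.h3]; group
      · refine ⟨P, Q, w, Or.inr rfl, hQ, ?_⟩
        rw [ev_true]
        calc b * (P * (a * ev a b w) * Q) = (b * P) * a * ev a b w * Q := by group
          _ = _ := by rw [h.bD]; group

lemma NF.mul_ai {a b D g : G} (h : BR a b D) (hg : NF a b D g) : NF a b D (a⁻¹ * g) := by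
  -- `a⁻¹ = D * b * D`
  have e : a⁻¹ = D * b * D := by
    calc a⁻¹ = a⁻¹ * D * D⁻¹ := by group
      _ = _ := by rw [h.aiD, h.inv]
  rw [e]
  have := ((hg.mulD h).mul_b h).mulD h
  simpa [mul_assoc] using this

lemma NF.mul_bi {a b D g : G} (h : BR a b D) (hg : NF a b D g) : NF a b D (b⁻¹ * g) := by
  have e : b⁻¹ = D * a * D := by
    calc b⁻¹ = b⁻¹ * D * D⁻¹ := by group
      _ = _ := by rw [h.biD, h.inv]
  rw [e]
  have := ((hg.mulD h).mul_a h).mulD h
  simpa [mul_assoc] using this

/-- Every element of the subgroup generated by `a` and `b` has a normal form. -/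
theorem nf_of_mem {a b D : G} (h : BR a b D) {g : G} (hg : g ∈ Subgroup.closure {a, b}) :
    NF a b D g := by
  induction hg using Subgroup.closure_induction_left with
  | one => exact ⟨1, 1, [], Or.inl rfl, Or.inl rfl, by simp⟩
  | mul_left x hx y _ ih =>
    simp only [Set.mem_insert_iff, Set.mem_singleton_iff] at hx
    rcases hx with rfl | rfl
    · exact ih.mul_a h
    · exact ih.mul_b h
  | inv_mul_cancel x hx y _ ih =>
    simp only [Set.mem_insert_iff, Set.mem_singleton_iff] at hx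
    rcases hx with rfl | rfl
    · exact ih.mul_ai h
    · exact ih.mul_bi h

end words

/-! ### The second generator -/

/-- The reflected half twist. -/
def hb : MulAut F3 := Pen.refl * half * Pen.refl

lemma half_inv_x0 : half⁻¹ (x 0) = x 1 := halfInvHom_x0
lemma half_inv_x1 : half⁻¹ (x 1) = (x 1)⁻¹ * x 0 * x 1 := halfInvHom_x1
lemma half_inv_x2 : half⁻¹ (x 2) = x 2 := halfInvHom_x2

lemma refl_inv : Pen.refl⁻¹ = Pen.refl := inv_eq_of_mul_eq_one_left refl_refl

lemma hb_inv : hb⁻¹ = Pen.refl * half⁻¹ * Pen.refl := by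
  unfold hb
  rw [mul_inv_rev, mul_inv_rev, refl_inv, mul_assoc]

lemma hb_x0 : hb (x 0) = x 0 := by
  change Pen.refl (half (Pen.refl (x 0))) = _
  simp only [refl_x0, map_inv, half_x2, refl_x2, inv_inv]

lemma hb_x1 : hb (x 1) = x 2 := by
  change Pen.refl (half (Pen.refl (x 1))) = _
  simp only [refl_x1, map_inv, half_x1, refl_x0, inv_inv]

lemma hb_x2 : hb (x 2) = (x 2)⁻¹ * x 1 * x 2 := by
  change Pen.refl (half (Pen.refl (x 2))) = _
  simp only [refl_x2, map_inv, half_x0, map_mul, refl_x0, refl_x1]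
  group

lemma hb_inv_x0 : hb⁻¹ (x 0) = x 0 := by
  rw [hb_inv]
  change Pen.refl (half⁻¹ (Pen.refl (x 0))) = _
  simp only [refl_x0, map_inv, half_inv_x2, refl_x2, inv_inv]

lemma hb_inv_x1 : hb⁻¹ (x 1) = x 1 * x 2 * (x 1)⁻¹ := by
  rw [hb_inv]
  change Pen.refl (half⁻¹ (Pen.refl (x 1))) = _
  simp only [refl_x1, map_inv, half_inv_x1, refl_x0, refl_x1, map_mul]
  group

lemma hb_inv_x2 : hb⁻¹ (x 2) = x 1 := by
  rw [hb_inv]
  change Pen.refl (half⁻¹ (Pen.refl (x 2))) = _
  simp only [refl_x2, map_inv, half_inv_x0, refl_x1, inv_inv]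

lemma mulAut_ext {φ ψ : MulAut F3} (h : ∀ i, φ (x i) = ψ (x i)) : φ = ψ := by
  apply MulEquiv.toMonoidHom_injective
  ext i
  exact h i

/-- The braid relation. -/
lemma braid : half * hb⁻¹ * half = hb⁻¹ * half * hb⁻¹ := by
  apply mulAut_ext
  intro i
  change half (hb⁻¹ (half (x i))) = hb⁻¹ (half (hb⁻¹ (x i)))
  fin_cases i
  · change half (hb⁻¹ (half (x 0))) = hb⁻¹ (half (hb⁻¹ (x 0)))
    simp only [map_mul, map_inv, half_x0, half_x1, half_x2, hb_inv_x0, hb_inv_x1, hb_inv_x2]
    simp only [mul_assoc, mul_inv_rev, inv_inv, inv_mul_cancel_left]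
  · change half (hb⁻¹ (half (x 1))) = hb⁻¹ (half (hb⁻¹ (x 1)))
    simp only [map_mul, map_inv, half_x0, half_x1, half_x2, hb_inv_x0, hb_inv_x1, hb_inv_x2]
  · change half (hb⁻¹ (half (x 2))) = hb⁻¹ (half (hb⁻¹ (x 2)))
    simp only [map_mul, map_inv, half_x0, half_x1, half_x2, hb_inv_x0, hb_inv_x1, hb_inv_x2]

/-- The half twist of all three strands. -/
def Dl : MulAut F3 := half * hb⁻¹ * half

lemma Dl_sq : Dl * Dl = MulAut.conj (x 0 * x 1 * x 2) := by
  apply mulAut_ext
  intro i
  rw [MulAut.conj_apply]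
  change half (hb⁻¹ (half (half (hb⁻¹ (half (x i)))))) = _
  fin_cases i
  · change half (hb⁻¹ (half (half (hb⁻¹ (half (x 0)))))) = x 0 * x 1 * x 2 * x 0 *
      (x 0 * x 1 * x 2)⁻¹
    simp only [map_mul, map_inv, half_x0, half_x1, half_x2, hb_inv_x0, hb_inv_x1, hb_inv_x2]
    group
  · change half (hb⁻¹ (half (half (hb⁻¹ (half (x 1)))))) = x 0 * x 1 * x 2 * x 1 *
      (x 0 * x 1 * x 2)⁻¹
    simp only [map_mul, map_inv, half_x0, half_x1, half_x2, hb_inv_x0, hb_inv_x1, hb_inv_x2]
    group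
  · change half (hb⁻¹ (half (half (hb⁻¹ (half (x 2)))))) = x 0 * x 1 * x 2 * x 2 *
      (x 0 * x 1 * x 2)⁻¹
    simp only [map_mul, map_inv, half_x0, half_x1, half_x2, hb_inv_x0, hb_inv_x1, hb_inv_x2]
    group

/-- The relations in the outer automorphism group. -/
lemma br_out : BR ((half : MulAut F3) : OutF3) ((hb : MulAut F3) : OutF3)
    ((Dl : MulAut F3) : OutF3) := by
  refine ⟨rfl, ?_, ?_⟩
  · unfold Dl; rw [braid]; rfl
  · rw [← QuotientGroup.mk_mul, Dl_sq]
    exact (QuotientGroup.eq_one_iff _).2 ⟨_, rfl⟩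

/-- The subgroup generated by the two half twists. -/
def Br : Subgroup (MulAut F3) := Subgroup.closure {half, hb}

lemma half_mem : half ∈ Br := Subgroup.subset_closure (by simp)
lemma hb_mem : hb ∈ Br := Subgroup.subset_closure (by simp)

/-- Transitivity of the Hurwitz moves (Artin). -/
theorem hurwitz (n : ℕ) : ∀ y0 y1 y2 : F3, FreeGroup.norm y0 + FreeGroup.norm y1 + FreeGroup.norm y2 ≤ n →
    ConjGen y0 → ConjGen y1 → ConjGen y2 → y0 * y1 * y2 = x 0 * x 1 * x 2 →
    ∃ s ∈ Br, s (x 0) = y0 ∧ s (x 1) = y1 ∧ s (x 2) = y2 := by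
  induction n with
  | zero =>
    intro y0 y1 y2 hn h0 h1 h2 hp
    rcases hurwitz_step h0 h1 h2 hp with (h | h) | (h | h) | ⟨r0, r1, r2⟩
    · omega
    · omega
    · omega
    · omega
    · exact ⟨1, Br.one_mem, by simp [r0], by simp [r1], by simp [r2]⟩
  | succ n ih =>
    intro y0 y1 y2 hn h0 h1 h2 hp
    rcases hurwitz_step h0 h1 h2 hp with (h | h) | (h | h) | ⟨r0, r1, r2⟩
    · obtain ⟨s, hs, e0, e1, e2⟩ := ih (y0 * y1 * y0⁻¹) y0 y2 (by omega) (h1.conj y0) h0 h2
        (by rw [← hp]; group)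
      refine ⟨s * half⁻¹, Br.mul_mem hs (Br.inv_mem half_mem), ?_, ?_, ?_⟩
      · rw [MulAut.mul_apply, half_inv_x0, e1]
      · rw [MulAut.mul_apply, half_inv_x1, map_mul, map_mul, map_inv, e0, e1]; group
      · rw [MulAut.mul_apply, half_inv_x2, e2]
    · obtain ⟨s, hs, e0, e1, e2⟩ := ih y1 (y1⁻¹ * y0 * y1) y2 (by omega) h1
        (by simpa using h0.conj y1⁻¹) h2 (by rw [← hp]; group)
      refine ⟨s * half, Br.mul_mem hs half_mem, ?_, ?_, ?_⟩
      · rw [MulAut.mul_apply, half_x0, map_mul, map_mul, map_inv, e0, e1]; group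
      · rw [MulAut.mul_apply, half_x1, e0]
      · rw [MulAut.mul_apply, half_x2, e2]
    · obtain ⟨s, hs, e0, e1, e2⟩ := ih y0 (y1 * y2 * y1⁻¹) y1 (by omega) h0 (h2.conj y1) h1
        (by rw [← hp]; group)
      refine ⟨s * hb, Br.mul_mem hs hb_mem, ?_, ?_, ?_⟩
      · rw [MulAut.mul_apply, hb_x0, e0]
      · rw [MulAut.mul_apply, hb_x1, e2]
      · rw [MulAut.mul_apply, hb_x2, map_mul, map_mul, map_inv, e1, e2]; group
    · obtain ⟨s, hs, e0, e1, e2⟩ := ih y0 y2 (y2⁻¹ * y1 * y2) (by omega) h0 h2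
        (by simpa using h1.conj y2⁻¹) (by rw [← hp]; group)
      refine ⟨s * hb⁻¹, Br.mul_mem hs (Br.inv_mem hb_mem), ?_, ?_, ?_⟩
      · rw [MulAut.mul_apply, hb_inv_x0, e0]
      · rw [MulAut.mul_apply, hb_inv_x1, map_mul, map_mul, map_inv, e1, e2]; group
      · rw [MulAut.mul_apply, hb_inv_x2, e1]
    · exact ⟨1, Br.one_mem, by simp [r0], by simp [r1], by simp [r2]⟩

/-! ### Linear parts -/

lemma geometric_inv {ε : ℤˣ} {φ : MulAut F3} (h : Geometric ε φ) : Geometric ε φ⁻¹ := by
  obtain ⟨σ, hσ⟩ := h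
  refine ⟨σ⁻¹, fun i => ?_⟩
  obtain ⟨c, hc⟩ := isConj_iff.1 (hσ (σ⁻¹ i))
  have hpi : σ (σ⁻¹ i) = i := by simp
  rw [hpi] at hc
  have h1 : φ⁻¹ (c * φ (per (σ⁻¹ i)) * c⁻¹) = φ⁻¹ c * per (σ⁻¹ i) * (φ⁻¹ c)⁻¹ := by
    rw [map_mul, map_mul, map_inv, MulAut.inv_apply_self]
  rw [hc, map_zpow] at h1
  have h2 : (φ⁻¹ (per i)) = (φ⁻¹ c * per (σ⁻¹ i) * (φ⁻¹ c)⁻¹) ^ (ε : ℤ) := by
    rw [← h1, ← zpow_mul]
    rcases Int.units_eq_one_or ε with h | h <;> simp [h]
  rw [h2, conj_zpow]
  exact (isConj_iff.2 ⟨φ⁻¹ c, rfl⟩).symm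

lemma hb_geometric : Geometric 1 hb := by
  have := (refl_geometric.mul half_geometric).mul refl_geometric
  simpa [hb] using this

lemma lin_hb : lin hb = LRl false := by
  have h1 := refl_geometric.parPres
  have h2 := half_geometric.parPres
  rw [hb, lin_mul (h1.mul h2) h1, lin_mul h1 h2, lin_refl, lin_half]
  ext i j
  fin_cases i <;> fin_cases j <;> simp [LRl, Matrix.mul_apply, Fin.sum_univ_two]

/-- The mapping class of a word. -/
def wd (l : List Bool) : MulAut F3 := ev half hb l

lemma wd_false (l : List Bool) : wd (false :: l) = hb * wd l := ev_false _ _ l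

lemma wd_true (l : List Bool) : wd (true :: l) = half * wd l := ev_true _ _ l

lemma wd_geometric (l : List Bool) : Geometric 1 (wd l) := by
  induction l with
  | nil => exact geometric_one'
  | cons c l ih =>
    cases c
    · rw [wd_false]; simpa using hb_geometric.mul ih
    · rw [wd_true]; simpa using half_geometric.mul ih

lemma lin_wd (l : List Bool) : lin (wd l) = LR l := by
  induction l with
  | nil => simp [wd, lin_one]
  | cons c l ih =>
    have hp := (wd_geometric l).parPres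
    cases c
    · rw [wd_false, lin_mul hb_geometric.parPres hp, LR_cons, lin_hb, ih]
    · rw [wd_true, lin_mul half_geometric.parPres hp, LR_cons, lin_half, ih]
      rfl

lemma wd_append (l m : List Bool) : wd (l ++ m) = wd l * wd m := ev_append _ _ _ _

lemma Dl_geometric : Geometric 1 Dl := by
  have := (half_geometric.mul (geometric_inv hb_geometric)).mul half_geometric
  simpa [Dl] using this

lemma lin_Dl : lin Dl = !![0, 1; -1, 0] := by
  have h1 := half_geometric.parPres
  have h2 := hb_geometric.parPres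
  have hi : lin hb⁻¹ = !![1, 0; -1, 1] := by
    have h3 := (lin_inv h2).1
    rw [lin_hb] at h3
    have h4 : (!![1, 0; -1, 1] : Matrix (Fin 2) (Fin 2) ℤ) * LRl false = 1 := by
      ext i j
      fin_cases i <;> fin_cases j <;> simp [LRl, Matrix.mul_apply, Fin.sum_univ_two]
    calc lin hb⁻¹ = (!![1, 0; -1, 1] * LRl false) * lin hb⁻¹ := by rw [h4, Matrix.one_mul]
      _ = !![1, 0; -1, 1] * (LRl false * lin hb⁻¹) := by rw [Matrix.mul_assoc]
      _ = _ := by rw [h3, Matrix.mul_one]
  rw [Dl, lin_mul (h1.mul h2.inv) h1, lin_mul h1 h2.inv, lin_half, hi]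
  ext i j
  fin_cases i <;> fin_cases j <;> simp [Matrix.mul_apply, Fin.sum_univ_two]

lemma ev_out (l : List Bool) : ev ((half : MulAut F3) : OutF3) ((hb : MulAut F3) : OutF3) l =
    ((wd l : MulAut F3) : OutF3) := by
  induction l with
  | nil => simp [wd]
  | cons c l ih =>
    cases c
    · rw [ev_false, ih, wd_false]; rfl
    · rw [ev_true, ih, wd_true]; rfl

lemma J_mul (M : Matrix (Fin 2) (Fin 2) ℤ) :
    !![0, 1; -1, 0] * M = !![M 1 0, M 1 1; -M 0 0, -M 0 1] := by
  ext i j
  fin_cases i <;> fin_cases j <;> simp [Matrix.mul_apply, Fin.sum_univ_two]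

lemma mul_J (M : Matrix (Fin 2) (Fin 2) ℤ) :
    M * !![0, 1; -1, 0] = !![-M 0 1, M 0 0; -M 1 1, M 1 0] := by
  ext i j
  fin_cases i <;> fin_cases j <;> simp [Matrix.mul_apply, Fin.sum_univ_two]

/-- An element of the braid group with linear part `± 1` is inner. -/
theorem inner_of_mem {s : MulAut F3} (hs : s ∈ Br) (hl : lin s = 1 ∨ lin s = -1) :
    ((s : MulAut F3) : OutF3) = 1 := by
  have hm : ((s : MulAut F3) : OutF3) ∈ Subgroup.closure
      {((half : MulAut F3) : OutF3), ((hb : MulAut F3) : OutF3)} := by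
    have : (Subgroup.closure {half, hb}).map (QuotientGroup.mk' (MulAut.conj : F3 →* _).range) =
        Subgroup.closure {((half : MulAut F3) : OutF3), ((hb : MulAut F3) : OutF3)} := by
      rw [MonoidHom.map_closure, Set.image_pair]
      rfl
    rw [← this]
    exact Subgroup.mem_map_of_mem _ hs
  obtain ⟨P, Q, w, hP, hQ, e⟩ := nf_of_mem br_out hm
  rw [ev_out] at e
  obtain ⟨n00, n11, n01, n10⟩ := LR_nonneg w
  have hw := (wd_geometric w).parPres
  have hD := Dl_geometric.parPres
  rcases hP with rfl | rfl <;> rcases hQ with rfl | rfl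
  · rw [one_mul, mul_one] at e
    have h := lin_out hw e.symm
    rw [lin_wd] at h
    have : w = [] := by
      apply eq_nil_of_LR
      · rcases hl with hl | hl <;> rcases h with h | h <;>
          · have := congrFun (congrFun h 0) 1
            rw [hl] at this
            simpa using this.symm
      · rcases hl with hl | hl <;> rcases h with h | h <;>
          · have := congrFun (congrFun h 1) 0
            rw [hl] at this
            simpa using this.symm
    rw [e, this]; rfl
  · exfalso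
    rw [one_mul, ← QuotientGroup.mk_mul] at e
    have h := lin_out (hw.mul hD) e.symm
    rw [lin_mul hw hD, lin_wd, lin_Dl, mul_J] at h
    rcases hl with hl | hl <;> rcases h with h | h <;>
      · have := congrFun (congrFun h 0) 1
        rw [hl] at this
        simp at this
        omega
  · exfalso
    rw [mul_one, ← QuotientGroup.mk_mul] at e
    have h := lin_out (hD.mul hw) e.symm
    rw [lin_mul hD hw, lin_wd, lin_Dl, J_mul] at h
    rcases hl with hl | hl <;> rcases h with h | h <;>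
      · have := congrFun (congrFun h 0) 1
        rw [hl] at this
        simp at this
        omega
  · have e' := e
    rw [← QuotientGroup.mk_mul, ← QuotientGroup.mk_mul] at e
    have h := lin_out ((hD.mul hw).mul hD) e.symm
    rw [lin_mul (hD.mul hw) hD, lin_mul hD hw, lin_wd, lin_Dl, J_mul, mul_J] at h
    have : w = [] := by
      apply eq_nil_of_LR
      · rcases hl with hl | hl <;> rcases h with h | h <;>
          · have := congrFun (congrFun h 1) 0
            rw [hl] at this
            simp at this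
            omega
      · rcases hl with hl | hl <;> rcases h with h | h <;>
          · have := congrFun (congrFun h 0) 1
            rw [hl] at this
            simp at this
            omega
    rw [e', this]
    have : ((wd [] : MulAut F3) : OutF3) = 1 := rfl
    rw [this, mul_one]
    exact br_out.h3

/-- Faithfulness: a mapping class which fixes all punctures and has linear part `± 1` is
trivial. -/
theorem faithful {φ : MulAut F3} (hφ : ∀ i, IsConj (φ (per i)) (per i))
    (hl : lin φ = 1 ∨ lin φ = -1) : ((φ : MulAut F3) : OutF3) = 1 := by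
  obtain ⟨c, hc⟩ := isConj_iff.1 (hφ 3)
  have hg : Geometric 1 φ := ⟨1, fun i => by simpa using hφ i⟩
  set ψ : MulAut F3 := MulAut.conj c * φ with hψ
  have hψa : ∀ g, ψ g = c * φ g * c⁻¹ := fun g => rfl
  have e3 : ψ (x 0 * x 1 * x 2) = x 0 * x 1 * x 2 := by
    have h1 : ψ (per 3) = per 3 := by rw [hψa]; exact hc
    rw [per3, map_inv] at h1
    exact inv_injective h1
  have hcg : ∀ i : Fin 3, ∀ y, per (Fin.castSucc i) = x i → ψ (x i) = y → ConjGen y := by
    intro i y hi hy
    obtain ⟨d, hd⟩ := isConj_iff.1 (hφ (Fin.castSucc i)).symm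
    rw [hi] at hd
    exact ⟨i, c * d, by rw [← hy, hψa, ← hd]; group⟩
  obtain ⟨s, hs, e0, e1, e2⟩ := hurwitz _ (ψ (x 0)) (ψ (x 1)) (ψ (x 2)) le_rfl
    (hcg 0 _ rfl rfl) (hcg 1 _ rfl rfl) (hcg 2 _ rfl rfl) (by rw [← map_mul, ← map_mul, e3])
  have hsψ : s = ψ := by
    apply mulAut_ext
    intro i
    fin_cases i
    · exact e0
    · exact e1
    · exact e2
  have hout : ((ψ : MulAut F3) : OutF3) = ((φ : MulAut F3) : OutF3) := by
    rw [hψ, QuotientGroup.mk_mul]
    have : ((MulAut.conj c : MulAut F3) : OutF3) = 1 := (QuotientGroup.eq_one_iff _).2 ⟨_, rfl⟩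
    rw [this, one_mul]
  rw [← hout, ← hsψ]
  apply inner_of_mem hs
  rw [hsψ, hψ, lin_mul (ParPres.conj c) hg.parPres]
  rcases lin_conj c with h | h <;> rcases hl with hl | hl <;> rw [h, hl] <;> simp

end Pool.Agent.KS6_96.Pen
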