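import Pool.Agent.KS6_96.Pen.Reduce

/-!
# Every pseudo-Anosov class has a code
-/

set_option autoImplicit false

namespace Pool.Agent.KS6_96.Pen

open Matrix

lemma half_curve0 : half curve0 = curve0 := by
  rw [curve0, map_mul, half_x0, half_x1]; group

lemma half_inv_curve0 : half⁻¹ curve0 = curve0 := by
  have := congrArg (fun y => half⁻¹ y) half_curve0
  simp only [MulAut.inv_apply_self] at this
  exact this.symm

lemma half_zpow_curve0 (n : ℤ) : (half ^ n) curve0 = curve0 := by
  induction n with
  | zero => simp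
  | succ n ih => rw [_root_.zpow_add_one, MulAut.mul_apply, half_curve0, ih]
  | pred n ih => rw [_root_.zpow_sub_one, MulAut.mul_apply, half_inv_curve0, ih]

lemma lin_half_inv : lin half⁻¹ = !![1, -1; 0, 1] := by
  have h3 := (lin_inv half_geometric.parPres).1
  rw [lin_half] at h3
  have h4 : (!![1, -1; 0, 1] : Matrix (Fin 2) (Fin 2) ℤ) * !![1, 1; 0, 1] = 1 := by
    ext i j
    fin_cases i <;> fin_cases j <;> simp [Matrix.mul_apply, Fin.sum_univ_two]
  calc lin half⁻¹ = (!![1, -1; 0, 1] * !![1, 1; 0, 1]) * lin half⁻¹ := by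
        rw [h4, Matrix.one_mul]
    _ = !![1, -1; 0, 1] * (!![1, 1; 0, 1] * lin half⁻¹) := by rw [Matrix.mul_assoc]
    _ = _ := by rw [h3, Matrix.mul_one]

lemma half_zpow_lin (n : ℤ) : Geometric 1 (half ^ n) ∧ lin (half ^ n) = !![1, n; 0, 1] := by
  induction n with
  | zero => exact ⟨by simpa using geometric_one', by simp [lin_one, Matrix.one_fin_two]⟩
  | succ n ih =>
    rw [_root_.zpow_add_one]
    refine ⟨by simpa using ih.1.mul half_geometric, ?_⟩
    rw [lin_mul ih.1.parPres half_geometric.parPres, ih.2, lin_half]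
    ext i j
    fin_cases i <;> fin_cases j <;> simp [Matrix.mul_apply, Fin.sum_univ_two]
    ring
  | pred n ih =>
    rw [_root_.zpow_sub_one]
    refine ⟨by simpa using ih.1.mul (geometric_inv half_geometric), ?_⟩
    rw [lin_mul ih.1.parPres (geometric_inv half_geometric).parPres, ih.2, lin_half_inv]
    ext i j
    fin_cases i <;> fin_cases j <;> simp [Matrix.mul_apply, Fin.sum_univ_two]
    ring

/-- A class some even power of which fixes a slope is not pseudo-Anosov. -/
theorem not_pA_of_fix {ε : ℤˣ} {f : MulAut F3} (hf : Geometric ε f) {k : ℕ} (hk : 1 ≤ k)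
    {a b : ℤ} (hab : ¬ (a = 0 ∧ b = 0))
    (h : (((lin f * lin f) ^ k) 0 0 * a + ((lin f * lin f) ^ k) 0 1 * b = a ∧
        ((lin f * lin f) ^ k) 1 0 * a + ((lin f * lin f) ^ k) 1 1 * b = b) ∨
      (((lin f * lin f) ^ k) 0 0 * a + ((lin f * lin f) ^ k) 0 1 * b = -a ∧
        ((lin f * lin f) ^ k) 1 0 * a + ((lin f * lin f) ^ k) 1 1 * b = -b)) :
    ¬ IsPseudoAnosov f := by
  intro hpA
  set Y := (lin f * lin f) ^ k with hY
  -- a primitive vector
  obtain ⟨d, a', b', hd, hco, rfl, rfl⟩ : ∃ d a' b' : ℤ, d ≠ 0 ∧ IsCoprime a' b' ∧ a = d * a' ∧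
      b = d * b' := by
    have hg : (Int.gcd a b : ℤ) ≠ 0 := by
      intro h0
      apply hab
      have : Int.gcd a b = 0 := by exact_mod_cast h0
      exact Int.gcd_eq_zero_iff.1 this
    obtain ⟨a', ha⟩ := Int.gcd_dvd_left a b
    obtain ⟨b', hb⟩ := Int.gcd_dvd_right a b
    refine ⟨Int.gcd a b, a', b', hg, ?_, ha, hb⟩
    have hbz := Int.gcd_eq_gcd_ab a b
    refine ⟨Int.gcdA a b, Int.gcdB a b, ?_⟩
    apply mul_left_cancel₀ hg
    rw [mul_one]
    calc (Int.gcd a b : ℤ) * (Int.gcdA a b * a' + Int.gcdB a b * b')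
        = (Int.gcd a b * a') * Int.gcdA a b + (Int.gcd a b * b') * Int.gcdB a b := by ring
      _ = a * Int.gcdA a b + b * Int.gcdB a b := by rw [← ha, ← hb]
      _ = _ := hbz.symm
  have h' : (Y 0 0 * a' + Y 0 1 * b' = a' ∧ Y 1 0 * a' + Y 1 1 * b' = b') ∨
      (Y 0 0 * a' + Y 0 1 * b' = -a' ∧ Y 1 0 * a' + Y 1 1 * b' = -b') := by
    rcases h with ⟨h1, h2⟩ | ⟨h1, h2⟩
    · left
      constructor
      · apply mul_left_cancel₀ hd; linear_combination h1
      · apply mul_left_cancel₀ hd; linear_combination h2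
    · right
      constructor
      · apply mul_left_cancel₀ hd; linear_combination h1
      · apply mul_left_cancel₀ hd; linear_combination h2
  obtain ⟨v, u, huv⟩ := hco
  obtain ⟨φ, hφ, hlφ⟩ := lin_surj ⟨!![a', -u; b', v], by rw [Matrix.det_fin_two_of]; linarith⟩
  have hlφ' : lin φ = !![a', -u; b', v] := hlφ
  set F : MulAut F3 := (f * f) ^ k with hF
  have gF : Geometric 1 F := geometric_pow (geometric_sq hf) k
  have lF : lin F = Y := by
    rw [hF, (lin_pow (geometric_sq hf).parPres k).2, lin_mul hf.parPres hf.parPres]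
  set F' : MulAut F3 := φ⁻¹ * F * φ with hF'
  have gF' : Geometric 1 F' := by
    simpa [F'] using ((geometric_inv hφ).mul gF).mul hφ
  have lF' : lin φ * lin F' = Y * lin φ := by
    rw [hF', lin_mul ((geometric_inv hφ).mul gF).parPres hφ.parPres,
      lin_mul (geometric_inv hφ).parPres gF.parPres, lF, ← Matrix.mul_assoc, ← Matrix.mul_assoc,
      (lin_inv hφ.parPres).1, Matrix.one_mul]
  have dF' : lin F' 0 0 * lin F' 1 1 - lin F' 0 1 * lin F' 1 0 = 1 := by
    have := gF'.det
    rw [Matrix.det_fin_two] at this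
    simpa using this
  have c0 := congrFun (congrFun lF' 0) 0
  have c1 := congrFun (congrFun lF' 1) 0
  rw [hlφ'] at c0 c1
  simp [Matrix.mul_apply, Fin.sum_univ_two] at c0 c1
  -- the first column of `lin F'`
  have hcol : ∃ n : ℤ, lin F' = lin (half ^ n) ∨ lin F' = -lin (half ^ n) := by
    have hN : lin F' = !![lin F' 0 0, lin F' 0 1; lin F' 1 0, lin F' 1 1] := by
      ext i j
      fin_cases i <;> fin_cases j <;> rfl
    rcases h' with ⟨h1, h2⟩ | ⟨h1, h2⟩
    · have e0 : lin F' 0 0 = 1 := by
        linear_combination v * c0 + u * c1 + v * h1 + u * h2 + (1 - lin F' 0 0) * huv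
      have e1 : lin F' 1 0 = 0 := by
        linear_combination (-b') * c0 + a' * c1 + (-b') * h1 + a' * h2 - lin F' 1 0 * huv
      have e2 : lin F' 1 1 = 1 := by
        rw [e0, e1] at dF'; linarith
      refine ⟨lin F' 0 1, Or.inl ?_⟩
      rw [(half_zpow_lin _).2]
      nth_rewrite 1 [hN]
      rw [e0, e1, e2]
    · have e0 : lin F' 0 0 = -1 := by
        linear_combination v * c0 + u * c1 + v * h1 + u * h2 + (-1 - lin F' 0 0) * huv
      have e1 : lin F' 1 0 = 0 := by
        linear_combination (-b') * c0 + a' * c1 + (-b') * h1 + a' * h2 - lin F' 1 0 * huv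
      have e2 : lin F' 1 1 = -1 := by
        rw [e0, e1] at dF'; linarith
      refine ⟨-lin F' 0 1, Or.inr ?_⟩
      rw [(half_zpow_lin _).2]
      nth_rewrite 1 [hN]
      rw [e0, e1, e2]
      ext i j
      fin_cases i <;> fin_cases j <;> simp
  obtain ⟨n, hn⟩ := hcol
  have h24 := pow24_eq gF' (half_zpow_lin n).1 hn
  rw [QuotientGroup.eq] at h24
  obtain ⟨g, hgc⟩ := h24
  have e24 : (half ^ n) ^ 24 = F' ^ 24 * MulAut.conj g := by rw [hgc]; group
  have ecurve : F' ^ 24 = (half ^ n) ^ 24 * MulAut.conj g⁻¹ := by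
    rw [e24, mul_assoc, ← map_mul, mul_inv_cancel, map_one, mul_one]
  have hfixc : ((half ^ n) ^ 24 : MulAut F3) curve0 = curve0 := by
    rw [← zpow_natCast, ← _root_.zpow_mul]
    exact half_zpow_curve0 _
  have hc1 : IsConj ((F' ^ 24) curve0) curve0 := by
    rw [ecurve, MulAut.mul_apply, MulAut.conj_apply, map_mul, map_mul, hfixc]
    refine (isConj_iff.2 ⟨((half ^ n) ^ 24 : MulAut F3) g⁻¹, ?_⟩).symm
    rw [map_inv (((half ^ n) ^ 24 : MulAut F3)) g⁻¹]
  have hF24 : F ^ 24 = f ^ (2 * k * 24) := by
    rw [hF, ← pow_two, ← pow_mul, ← pow_mul, mul_assoc]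
  have hFF : φ * F' ^ 24 = F ^ 24 * φ := by
    have : F = φ * F' * φ⁻¹ := by rw [hF']; group
    rw [this, conj_pow]; group
  have hc2 := isConj_map (φ := φ) hc1
  have e3 : φ ((F' ^ 24) curve0) = (f ^ (2 * k * 24)) (φ curve0) := by
    rw [← MulAut.mul_apply, hFF, hF24]; rfl
  rw [e3] at hc2
  exact (hpA (2 * k * 24) (by omega) φ hφ).1 hc2

/-- The trace of the linear part of an orientation-reversing pseudo-Anosov class. -/
lemma trace_ne_zero {f : MulAut F3} (hf : Geometric (-1) f) (hpA : IsPseudoAnosov f) :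
    (lin f).trace ≠ 0 := by
  intro h0
  have hd := hf.det
  rw [Matrix.det_fin_two] at hd
  rw [Matrix.trace_fin_two] at h0
  simp only [Units.val_neg, Units.val_one] at hd
  refine not_pA_of_fix hf (k := 1) le_rfl (a := 1) (b := 0) (by simp) (Or.inl ?_) hpA
  rw [pow_one]
  simp only [Matrix.mul_apply, Fin.sum_univ_two]
  constructor
  · linear_combination (-1) * hd + lin f 0 0 * h0
  · linear_combination lin f 1 0 * h0

/-- Every pseudo-Anosov class has a code. -/
theorem exists_code {ε : ℤˣ} {f : MulAut F3} (hf : Geometric ε f) (hpA : IsPseudoAnosov f) :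
    ∃ c, IsCode f c := by
  have hd := hf.det
  have hdM : (lin f * lin f).det = 1 := by
    rw [Matrix.det_mul, hd]
    rw [← Units.val_mul, Int.units_mul_self, Units.val_one]
  rcases lt_or_ge (lin f * lin f).trace 3 with htr | htr
  · exfalso
    rw [Matrix.det_fin_two] at hd hdM
    rw [Matrix.trace_fin_two] at htr
    set p := lin f 0 0 with hp
    set q := lin f 0 1 with hq
    set r := lin f 1 0 with hr
    set s := lin f 1 1 with hs
    have m00 : (lin f * lin f) 0 0 = p * p + q * r := by
      rw [Matrix.mul_apply, Fin.sum_univ_two]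
    have m01 : (lin f * lin f) 0 1 = p * q + q * s := by
      rw [Matrix.mul_apply, Fin.sum_univ_two]
    have m10 : (lin f * lin f) 1 0 = r * p + s * r := by
      rw [Matrix.mul_apply, Fin.sum_univ_two]
    have m11 : (lin f * lin f) 1 1 = r * q + s * s := by
      rw [Matrix.mul_apply, Fin.sum_univ_two]
    rw [m00, m11] at htr
    rcases Int.units_eq_one_or ε with hε | hε
    · rw [hε] at hd
      simp only [Units.val_one] at hd
      have ht2 : (p + s) ^ 2 < 5 := by nlinarith
      have ht3 : -2 ≤ p + s ∧ p + s ≤ 2 := by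
        constructor <;> nlinarith
      have hcase : p + s = 0 ∨ (p + s = 1 ∨ p + s = -1) ∨ (p + s = 2 ∨ p + s = -2) := by omega
      rcases hcase with h0 | h1 | h2
      · -- the square is `- 1`
        refine not_pA_of_fix hf (k := 1) le_rfl (a := 1) (b := 0) (by simp) (Or.inr ?_) hpA
        rw [pow_one, m00, m01, m10, m11]
        constructor
        · linear_combination (-1) * hd + p * h0
        · linear_combination r * h0
      · -- the sixth power is `1`
        have hCH : lin f * lin f = (p + s) • lin f - 1 := by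
          ext i j
          fin_cases i <;> fin_cases j
          · change (lin f * lin f) 0 0 = (p + s) * p - 1
            rw [m00]; linear_combination (-1) * hd
          · change (lin f * lin f) 0 1 = (p + s) * q - 0
            rw [m01]; ring
          · change (lin f * lin f) 1 0 = (p + s) * r - 0
            rw [m10]; ring
          · change (lin f * lin f) 1 1 = (p + s) * s - 1
            rw [m11]; linear_combination (-1) * hd
        have ht : (p + s) * (p + s) = 1 := by rcases h1 with h | h <;> rw [h] <;> norm_num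
        have h4 : (lin f * lin f) * (lin f * lin f) = -((p + s) • lin f) := by
          nth_rewrite 1 [hCH]
          nth_rewrite 1 [hCH]
          rw [Matrix.sub_mul, Matrix.mul_sub, Matrix.smul_mul, Matrix.mul_smul, smul_smul, ht,
            one_smul, hCH]
          simp only [Matrix.one_mul, Matrix.mul_one]
          abel
        have h6 : (lin f * lin f) ^ 3 = 1 := by
          rw [pow_succ, pow_two, h4, Matrix.neg_mul, Matrix.smul_mul]
          nth_rewrite 1 [hCH]
          rw [Matrix.mul_sub, Matrix.mul_smul, smul_sub, smul_smul, ht, one_smul, hCH,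
            Matrix.mul_one]
          abel
        refine not_pA_of_fix hf (k := 3) (by norm_num) (a := 1) (b := 0) (by simp)
          (Or.inl ?_) hpA
        rw [h6]; simp
      · -- parabolic or `± 1`
        have ht : (p + s) * (p + s) = 4 := by rcases h2 with h | h <;> rw [h] <;> norm_num
        set M := lin f * lin f with hM
        have htrM : M 0 0 + M 1 1 = 2 := by
          rw [m00, m11]; linear_combination ht - 2 * hd
        by_cases hz : M 0 1 = 0 ∧ M 0 0 = 1
        · refine not_pA_of_fix hf (k := 1) le_rfl (a := 0) (b := 1) (by simp) (Or.inl ?_) hpA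
          rw [pow_one]
          constructor
          · linear_combination hz.1
          · linear_combination htrM - hz.2
        · refine not_pA_of_fix hf (k := 1) le_rfl (a := M 0 1) (b := 1 - M 0 0) ?_ (Or.inl ?_) hpA
          · rintro ⟨h1, h2⟩
            exact hz ⟨h1, by linarith⟩
          · rw [pow_one]
            constructor
            · ring
            · linear_combination (-1) * hdM + htrM
    · rw [hε] at hd hf
      simp only [Units.val_neg, Units.val_one] at hd
      have ht2 : (p + s) ^ 2 < 1 := by nlinarith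
      have h0 : p + s = 0 := by nlinarith
      exact trace_ne_zero hf hpA (by rw [Matrix.trace_fin_two]; exact h0)
  · obtain ⟨c, g, h1, h2, h3, h4⟩ := exists_word hdM htr
    exact ⟨c, h1, h2, g, h3, h4⟩

/-! ### Orientation-reversing classes -/

lemma sq_of_neg {F g : Matrix (Fin 2) (Fin 2) ℤ} {w : List Bool}
    (h : F * g = g * (LR w * Sw)) : F * F * g = g * LR (w ++ swp w) := by
  rw [Matrix.mul_assoc, h, ← Matrix.mul_assoc, h, LR_append, ← Sw_LR]
  simp only [Matrix.mul_assoc]

/-- The code of an orientation-reversing pseudo-Anosov class. -/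
theorem exists_code_neg {f : MulAut F3} (hf : Geometric (-1) f) (hpA : IsPseudoAnosov f) :
    ∃ w, w ≠ [] ∧ IsCode f (w ++ swp w) := by
  have h0 := trace_ne_zero hf hpA
  have hd := hf.det
  simp only [Units.val_neg, Units.val_one] at hd
  rcases lt_or_gt_of_ne h0 with h | h
  · obtain ⟨w, g, hw, hg, he⟩ := exists_word_neg (M := -lin f)
      (by rw [Matrix.det_neg, hd]; simp) (by rw [Matrix.trace_neg]; omega)
    refine ⟨w, hw, (both_mem hw).1, (both_mem hw).2, g, hg, ?_⟩
    have := sq_of_neg he
    rwa [neg_mul_neg] at this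
  · obtain ⟨w, g, hw, hg, he⟩ := exists_word_neg hd (by omega)
    exact ⟨w, hw, (both_mem hw).1, (both_mem hw).2, g, hg, sq_of_neg he⟩

/-- The orientation-reversing class of a word. -/
def revClass (w : List Bool) : MulAut F3 := wd w * Pen.refl

lemma revClass_geometric (w : List Bool) : Geometric (-1) (revClass w) := by
  simpa [revClass] using (wd_geometric w).mul refl_geometric

lemma revClass_code {w : List Bool} (hw : w ≠ []) : IsCode (revClass w) (w ++ swp w) := by
  refine ⟨(both_mem hw).1, (both_mem hw).2, 1, by simp, ?_⟩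
  have h : lin (revClass w) = -(LR w * Sw) := by
    rw [revClass, lin_mul (wd_geometric w).parPres refl_geometric.parPres, lin_wd, lin_refl]
    have : (!![0, -1; -1, 0] : Matrix (Fin 2) (Fin 2) ℤ) = -Sw := by
      ext i j
      fin_cases i <;> fin_cases j <;> simp [Sw]
    rw [this, Matrix.mul_neg]
  have h2 : (LR w * Sw) * 1 = 1 * (LR w * Sw) := by rw [Matrix.mul_one, Matrix.one_mul]
  rw [h, neg_mul_neg]
  exact sq_of_neg h2

end Pool.Agent.KS6_96.Pen
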