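import Pool.Agent.KS6_96.Pen.Codes

/-!
# Combinatorics of Penner words: a finite criterion
-/

set_option autoImplicit false

namespace Pool.Agent.KS6_96.Pen

/-- The letters of the periodic word with period `c`. -/
def cyc (c : List Bool) (i : ℕ) : Bool := c.getD (i % c.length) true

lemma cyc_add (c : List Bool) (i : ℕ) : cyc c (i + c.length) = cyc c i := by
  unfold cyc
  rw [Nat.add_mod_right]

lemma cyc_add_mul (c : List Bool) (i k : ℕ) : cyc c (i + k * c.length) = cyc c i := by
  unfold cyc
  rw [Nat.add_mul_mod_self_right]

lemma rep_length (j : ℕ) (c : List Bool) : (rep j c).length = j * c.length := by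
  induction j with
  | zero => simp [rep_zero]
  | succ j ih => rw [rep_succ, List.length_append, ih]; ring

lemma getD_rep (j : ℕ) (c : List Bool) (i : ℕ) (hi : i < j * c.length) :
    (rep j c).getD i true = cyc c i := by
  induction j generalizing i with
  | zero => simp at hi
  | succ j ih =>
    rw [rep_succ]
    rcases lt_or_ge i c.length with h | h
    · rw [List.getD_append _ _ _ _ h, cyc, Nat.mod_eq_of_lt h]
    · rw [List.getD_append_right _ _ _ _ h, ih (i - c.length) (by
        rw [Nat.succ_mul] at hi; omega)]
      conv_rhs => rw [show i = (i - c.length) + c.length by omega, cyc_add]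

lemma cyc_rep {j : ℕ} {c : List Bool} (hj : 1 ≤ j) (hc : c ≠ []) (i : ℕ) :
    cyc (rep j c) i = cyc c i := by
  have hN : 0 < c.length := List.length_pos_iff.2 hc
  have hlt : i % (j * c.length) < j * c.length := Nat.mod_lt _ (by positivity)
  unfold cyc
  rw [rep_length, getD_rep j c _ hlt, cyc, Nat.mod_mul_left_mod]

lemma cyc_rotate (c : List Bool) (t i : ℕ) (hc : c ≠ []) :
    cyc (c.rotate t) i = cyc c (i + t) := by
  have hN : 0 < c.length := List.length_pos_iff.2 hc
  unfold cyc
  rw [List.length_rotate]
  have h1 : i % c.length < (c.rotate t).length := by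
    rw [List.length_rotate]; exact Nat.mod_lt _ hN
  have h2 : (i + t) % c.length < c.length := Nat.mod_lt _ hN
  rw [List.getD_eq_getElem _ _ h1, List.getD_eq_getElem _ _ h2, List.getElem_rotate]
  congr 1
  rw [Nat.add_mod (i % c.length), Nat.mod_mod, ← Nat.add_mod]

/-- The letters of a rotation of a power. -/
lemma cyc_of_rotated {j : ℕ} {c W : List Bool} (hj : 1 ≤ j) (hc : c ≠ []) (h : rep j c ~r W) :
    W.length = j * c.length ∧ ∃ t, ∀ i, cyc W i = cyc c (i + t) := by
  obtain ⟨t, rfl⟩ := h
  have hne : rep j c ≠ [] := by
    intro h0
    have h1 := congrArg List.length h0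
    rw [rep_length] at h1
    have hN : 0 < c.length := List.length_pos_iff.2 hc
    have h2 : 0 < j * c.length := by positivity
    rw [h1] at h2
    simp at h2
  refine ⟨by rw [List.length_rotate, rep_length], t, fun i => ?_⟩
  rw [cyc_rotate _ _ _ hne, cyc_rep hj hc]

/-- Conversely. -/
lemma rotated_of_cyc {j : ℕ} {c W : List Bool} (hc : c ≠ [])
    (hl : W.length = j * c.length) {t : ℕ}
    (h : ∀ i < W.length, W.getD i true = cyc c (i + t)) : rep j c ~r W := by
  refine ⟨t, ?_⟩
  apply List.ext_getElem
  · rw [List.length_rotate, rep_length, hl]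
  · intro i h1 h2
    rw [List.getElem_rotate]
    have h3 := h i h2
    rw [List.getD_eq_getElem _ _ h2] at h3
    rw [h3]
    have hpos : 0 < (rep j c).length := by rw [rep_length, ← hl]; omega
    have h4 : (i + t) % (rep j c).length < (rep j c).length := Nat.mod_lt _ hpos
    have h5 := getD_rep j c ((i + t) % (rep j c).length) (by rw [← rep_length]; exact h4)
    rw [List.getD_eq_getElem _ _ h4] at h5
    rw [h5, rep_length, cyc, Nat.mod_mul_left_mod, cyc]

lemma cyc_mid (A M B : List Bool) (i : ℕ) (hi : i < M.length) :
    cyc (A ++ M ++ B) (A.length + i) = M.getD i true := by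
  unfold cyc
  have h1 : A.length + i < (A ++ M ++ B).length := by simp; omega
  rw [Nat.mod_eq_of_lt h1, List.append_assoc, List.getD_append_right _ _ _ _ (by omega),
    Nat.add_sub_cancel_left, List.getD_append _ _ _ _ hi]

/-- A word with both letters is not constant. -/
lemma not_const {c : List Bool} (ct : true ∈ c) (cf : false ∈ c) {t : ℕ} {b : Bool}
    (h : ∀ i < c.length, cyc c (i + t) = b) : False := by
  have hall : ∀ i, cyc c (i + t) = b := by
    intro i
    have hN : 0 < c.length := List.length_pos_iff.2 (List.ne_nil_of_mem ct)
    have e := Nat.mod_add_div i c.length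
    have : cyc c (i + t) = cyc c (i % c.length + t) := by
      conv_lhs => rw [← e]
      rw [show i % c.length + c.length * (i / c.length) + t =
        (i % c.length + t) + (i / c.length) * c.length by ring, cyc_add_mul]
    rw [this]
    exact h _ (Nat.mod_lt _ hN)
  have hmem : ∀ x ∈ c, x = b := by
    intro x hx
    obtain ⟨n, hn, rfl⟩ := List.getElem_of_mem hx
    have h1 : cyc c n = (c)[n] := by
      unfold cyc
      rw [Nat.mod_eq_of_lt hn, List.getD_eq_getElem _ _ hn]
    rw [← h1]
    -- choose an index congruent to `n`
    have hN : 0 < c.length := by omega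
    have h2 := hall (n + (t * c.length - t))
    have h3 : n + (t * c.length - t) + t = n + t * c.length := by
      have : t ≤ t * c.length := Nat.le_mul_of_pos_right _ hN
      omega
    rwa [h3, cyc_add_mul] at h2
  have e1 := hmem _ ct
  have e2 := hmem _ cf
  rw [← e1] at e2
  exact Bool.noConfusion e2

/-! ### The doubled words -/

lemma dbl_length (l : List Bool) : (dbl l).length = 2 * l.length := by
  induction l with
  | nil => rfl
  | cons c l ih =>
    have : dbl (c :: l) = c :: c :: dbl l := rfl
    rw [this]; simp [ih]; ring

lemma dbl_getD (l : List Bool) (k : ℕ) (hk : k < l.length) :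
    (dbl l).getD (2 * k) true = l.getD k true ∧ (dbl l).getD (2 * k + 1) true = l.getD k true := by
  induction l generalizing k with
  | nil => simp at hk
  | cons c l ih =>
    have e : dbl (c :: l) = c :: c :: dbl l := rfl
    rw [e]
    rcases k with _ | k
    · simp
    · have := ih k (by simpa using hk)
      rw [show 2 * (k + 1) = (2 * k) + 1 + 1 by ring]
      simpa using this

lemma cyc_dbl {l : List Bool} (hl : l ≠ []) (i : ℕ) :
    cyc (dbl l) (2 * i) = cyc (dbl l) (2 * i + 1) := by
  have hN : 0 < l.length := List.length_pos_iff.2 hl
  unfold cyc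
  rw [dbl_length]
  have h1 : (2 * i) % (2 * l.length) = 2 * (i % l.length) := Nat.mul_mod_mul_left _ _ _
  have h2 : (2 * i + 1) % (2 * l.length) = 2 * (i % l.length) + 1 := by
    have hlt : i % l.length < l.length := Nat.mod_lt _ hN
    rw [Nat.add_mod, h1]
    rcases Nat.lt_or_ge 1 (2 * l.length) with h | h
    · rw [Nat.mod_eq_of_lt h, Nat.mod_eq_of_lt (by omega)]
    · omega
  rw [h1, h2]
  have := dbl_getD l (i % l.length) (Nat.mod_lt _ hN)
  rw [this.1, this.2]

/-- If a power is a rotation of a doubled word, then the word itself is. -/
lemma dbl_root {j : ℕ} {c l : List Bool} (hj : 1 ≤ j) (ct : true ∈ c) (cf : false ∈ c)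
    (h : rep j c ~r dbl l) : ∃ l', c ~r dbl l' := by
  have hc : c ≠ [] := List.ne_nil_of_mem ct
  have hN : 0 < c.length := List.length_pos_iff.2 hc
  obtain ⟨hlen, t, ht⟩ := cyc_of_rotated hj hc h
  have hl : l ≠ [] := by
    rintro rfl
    have : 0 < j * c.length := by positivity
    simp [dbl] at hlen
    rcases hlen with h | h
    · omega
    · exact hc h
  have hpair : ∀ i, cyc c (2 * i + t) = cyc c (2 * i + 1 + t) := by
    intro i
    rw [← ht, ← ht, cyc_dbl hl]
  rcases Nat.even_or_odd' c.length with ⟨n, hn | hn⟩
  · refine ⟨(List.range n).map (fun i => cyc c (2 * i + t)), t, ?_⟩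
    apply List.ext_getElem
    · rw [List.length_rotate, dbl_length]; simp [hn]
    · intro i h1 h2
      have e1 : (c.rotate t)[i] = cyc c (i + t) := by
        rw [List.getElem_rotate]
        unfold cyc
        rw [List.getD_eq_getElem _ _ (Nat.mod_lt _ hN)]
      rw [e1]
      have h3 : (dbl ((List.range n).map (fun i => cyc c (2 * i + t)))).getD i true =
          (dbl ((List.range n).map (fun i => cyc c (2 * i + t))))[i] :=
        List.getD_eq_getElem _ _ h2
      rw [← h3]
      rw [List.length_rotate] at h1
      rcases Nat.even_or_odd' i with ⟨k, hk | hk⟩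
      · have hkn : k < n := by omega
        have := (dbl_getD ((List.range n).map (fun i => cyc c (2 * i + t))) k
          (by simpa using hkn)).1
        rw [hk, this, List.getD_eq_getElem _ _ (by simpa using hkn)]
        simp
      · have hkn : k < n := by omega
        have := (dbl_getD ((List.range n).map (fun i => cyc c (2 * i + t))) k
          (by simpa using hkn)).2
        rw [hk, this, List.getD_eq_getElem _ _ (by simpa using hkn), ← hpair]
        simp
  · exfalso
    have hstep : ∀ i, cyc c (i + t) = cyc c (i + 1 + t) := by
      intro i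
      rcases Nat.even_or_odd' i with ⟨k, hk | hk⟩
      · rw [hk]; exact hpair k
      · have := hpair (k + n + 1)
        have e1 : 2 * (k + n + 1) + t = (i + t) + c.length := by omega
        have e2 : 2 * (k + n + 1) + 1 + t = (i + 1 + t) + c.length := by omega
        rwa [e1, e2, cyc_add, cyc_add] at this
    have hconst : ∀ i, cyc c (i + t) = cyc c t := by
      intro i
      induction i with
      | zero => simp
      | succ i ih => rw [← hstep, ih]
    exact not_const ct cf (t := t) (b := cyc c t) (fun i _ => hconst i)

/-! ### The blocks -/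

/-- The position facts for a block inside a word. -/
lemma blk_facts (X Y m : List Bool) (p : ℕ × ℕ) :
    (∀ i < 2 * p.1 + 1, cyc (X ++ blk m p ++ Y) (X.length + i) = true) ∧
    (∀ i < m.length, cyc (X ++ blk m p ++ Y) (X.length + (2 * p.1 + 2) + i) =
      m.getD i true) ∧
    cyc (X ++ blk m p ++ Y) (X.length + (2 * p.1 + 2) + m.length) = true ∧
    (∀ i < 2 * p.2 + 1, cyc (X ++ blk m p ++ Y) (X.length + (2 * p.1 + 2) + m.length + 1 + i) =
      false) ∧
    cyc (X ++ blk m p ++ Y) (X.length + (2 * p.1 + 2) + m.length + 1 + (2 * p.2 + 1)) = true ∧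
    (∀ i < m.length, cyc (X ++ blk m p ++ Y)
      (X.length + (2 * p.1 + 2) + m.length + 1 + (2 * p.2 + 1) + 1 + i) =
      (swp m).reverse.getD i true) := by
  refine ⟨?_, ?_, ?_, ?_, ?_, ?_⟩
  · intro i hi
    have e : X ++ blk m p ++ Y = X ++ List.replicate (2 * p.1 + 1) true ++
        (([false] ++ m ++ [true]) ++ List.replicate (2 * p.2 + 1) false ++
          ([true] ++ (swp m).reverse ++ [false]) ++ Y) := by
      unfold blk; simp only [List.append_assoc]
    rw [e, cyc_mid _ _ _ _ (by simpa using hi), List.getD_eq_getElem _ _ (by simpa using hi),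
      List.getElem_replicate]
  · intro i hi
    have e : X ++ blk m p ++ Y = (X ++ List.replicate (2 * p.1 + 1) true ++ [false]) ++ m ++
        ([true] ++ List.replicate (2 * p.2 + 1) false ++
          ([true] ++ (swp m).reverse ++ [false]) ++ Y) := by
      unfold blk; simp only [List.append_assoc]
    have el : X.length + (2 * p.1 + 2) =
        (X ++ List.replicate (2 * p.1 + 1) true ++ [false]).length := by
      simp only [List.length_append, List.length_replicate, List.length_singleton]; ring
    rw [e, el, cyc_mid _ _ _ _ hi]
  · have e : X ++ blk m p ++ Y = (X ++ List.replicate (2 * p.1 + 1) true ++ [false] ++ m) ++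
        [true] ++ (List.replicate (2 * p.2 + 1) false ++
          ([true] ++ (swp m).reverse ++ [false]) ++ Y) := by
      unfold blk; simp only [List.append_assoc]
    have el : X.length + (2 * p.1 + 2) + m.length =
        (X ++ List.replicate (2 * p.1 + 1) true ++ [false] ++ m).length + 0 := by simp; ring
    rw [e, el, cyc_mid _ _ _ _ (by simp)]
    rfl
  · intro i hi
    have e : X ++ blk m p ++ Y = (X ++ List.replicate (2 * p.1 + 1) true ++ [false] ++ m ++
        [true]) ++ List.replicate (2 * p.2 + 1) false ++
          (([true] ++ (swp m).reverse ++ [false]) ++ Y) := by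
      unfold blk; simp only [List.append_assoc]
    have el : X.length + (2 * p.1 + 2) + m.length + 1 =
        (X ++ List.replicate (2 * p.1 + 1) true ++ [false] ++ m ++ [true]).length := by
      simp; ring
    rw [e, el, cyc_mid _ _ _ _ (by simpa using hi), List.getD_eq_getElem _ _ (by simpa using hi),
      List.getElem_replicate]
  · have e : X ++ blk m p ++ Y = (X ++ List.replicate (2 * p.1 + 1) true ++ [false] ++ m ++
        [true] ++ List.replicate (2 * p.2 + 1) false) ++ [true] ++
          ((swp m).reverse ++ [false] ++ Y) := by
      unfold blk; simp only [List.append_assoc]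
    have el : X.length + (2 * p.1 + 2) + m.length + 1 + (2 * p.2 + 1) =
        (X ++ List.replicate (2 * p.1 + 1) true ++ [false] ++ m ++ [true] ++
          List.replicate (2 * p.2 + 1) false).length + 0 := by
      simp; ring
    rw [e, el, cyc_mid _ _ _ _ (by simp)]
    rfl
  · intro i hi
    have e : X ++ blk m p ++ Y = (X ++ List.replicate (2 * p.1 + 1) true ++ [false] ++ m ++
        [true] ++ List.replicate (2 * p.2 + 1) false ++ [true]) ++ (swp m).reverse ++
          ([false] ++ Y) := by
      unfold blk; simp only [List.append_assoc]
    have el : X.length + (2 * p.1 + 2) + m.length + 1 + (2 * p.2 + 1) + 1 =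
        (X ++ List.replicate (2 * p.1 + 1) true ++ [false] ++ m ++ [true] ++
          List.replicate (2 * p.2 + 1) false ++ [true]).length := by
      simp; ring
    rw [e, el, cyc_mid _ _ _ _ (by simpa [swp] using hi)]

/-- The word `m` and the exponents are shorter than the period. -/
lemma blk_bounds {j : ℕ} {c X Y m : List Bool} {p : ℕ × ℕ} (hj : 1 ≤ j) (ct : true ∈ c)
    (cf : false ∈ c) (h : rep j c ~r X ++ blk m p ++ Y) :
    m.length < c.length ∧ 2 * p.1 + 1 < c.length ∧ 2 * p.2 + 1 < c.length := by
  have hc : c ≠ [] := List.ne_nil_of_mem ct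
  have hN : 0 < c.length := List.length_pos_iff.2 hc
  obtain ⟨hlen, t, ht⟩ := cyc_of_rotated hj hc h
  obtain ⟨f1, f2, f3, f4, f5, f6⟩ := blk_facts X Y m p
  refine ⟨?_, ?_, ?_⟩
  · by_contra hcon
    push Not at hcon
    have g6 := f6 (c.length - 1) (by omega)
    have g2 := f2 (m.length - c.length) (by omega)
    rw [ht] at f3 f5 g2 g6
    have e1 : X.length + (2 * p.1 + 2) + m.length + 1 + (2 * p.2 + 1) + 1 + (c.length - 1) + t =
        (X.length + (2 * p.1 + 2) + m.length + 1 + (2 * p.2 + 1) + t) + c.length := by omega
    have e2 : X.length + (2 * p.1 + 2) + m.length + t =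
        (X.length + (2 * p.1 + 2) + (m.length - c.length) + t) + c.length := by omega
    rw [e1, cyc_add, f5] at g6
    rw [e2, cyc_add, g2] at f3
    have hlt : c.length - 1 < (swp m).reverse.length := by simp [swp]; omega
    rw [List.getD_eq_getElem _ _ hlt, List.getElem_reverse] at g6
    rw [List.getD_eq_getElem _ _ (by omega)] at f3
    simp only [swp, List.getElem_map, List.length_map] at g6
    have e3 : m.length - 1 - (c.length - 1) = m.length - c.length := by omega
    simp only [e3] at g6
    rw [f3] at g6
    simp at g6
  · by_contra hcon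
    push Not at hcon
    apply not_const ct cf (t := X.length + t) (b := true)
    intro i hi
    have := f1 i (by omega)
    rw [ht] at this
    rw [show i + (X.length + t) = X.length + i + t by ring]
    exact this
  · by_contra hcon
    push Not at hcon
    apply not_const ct cf (t := X.length + (2 * p.1 + 2) + m.length + 1 + t) (b := false)
    intro i hi
    have := f4 i (by omega)
    rw [ht] at this
    rw [show i + (X.length + (2 * p.1 + 2) + m.length + 1 + t) =
      X.length + (2 * p.1 + 2) + m.length + 1 + i + t by ring]
    exact this

lemma blk_length_pos (m : List Bool) (p : ℕ × ℕ) : 0 < (blk m p).length := by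
  unfold blk; simp

/-- Few blocks suffice. -/
lemma few_blocks {c m : List Bool} (ct : true ∈ c) (n : ℕ) : ∀ (j : ℕ) (ps : List (ℕ × ℕ)),
    ps.length ≤ n → 1 ≤ j → rep j c ~r ps.flatMap (blk m) →
    ∃ (j' : ℕ) (ps' : List (ℕ × ℕ)), 1 ≤ j' ∧ ps' ≠ [] ∧ ps'.length ≤ c.length ∧
      (∀ p ∈ ps', p ∈ ps) ∧ rep j' c ~r ps'.flatMap (blk m) := by
  have hc : c ≠ [] := List.ne_nil_of_mem ct
  have hN : 0 < c.length := List.length_pos_iff.2 hc
  intro j ps _ hj h
  obtain ⟨hlen, t, ht⟩ := cyc_of_rotated hj hc h
  have hne : ps ≠ [] := by
    rintro rfl
    have : 0 < j * c.length := by positivity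
    simp at hlen
    rcases hlen with h | h
    · omega
    · exact hc h
  rcases le_or_gt ps.length c.length with hle | hgt
  · exact ⟨j, ps, hj, hne, hle, fun p hp => hp, h⟩
  · -- the positions of the first block starts
    set P : ℕ → ℕ := fun i => ((ps.take i).flatMap (blk m)).length with hP
    obtain ⟨a, ha, b, hb, hab, hPab⟩ : ∃ a ∈ Finset.range (c.length + 1),
        ∃ b ∈ Finset.range (c.length + 1), a ≠ b ∧ P a % c.length = P b % c.length := by
      apply Finset.exists_ne_map_eq_of_card_lt_of_maps_to (t := Finset.range c.length)
      · simp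
      · intro i _
        exact Finset.mem_coe.2 (Finset.mem_range.2 (Nat.mod_lt _ hN))
    rw [Finset.mem_range] at ha hb
    wlog hlt : a < b generalizing a b
    · exact this b hb a ha hab.symm hPab.symm (by omega)
    -- the blocks between the positions `a` and `b`
    set Q := (ps.drop a).take (b - a) with hQ
    have hQlen : Q.length = b - a := by
      rw [hQ, List.length_take, List.length_drop]; omega
    have hsplit : ps = ps.take a ++ Q ++ ps.drop b := by
      have e1 : ps.drop a = Q ++ (ps.drop a).drop (b - a) := (List.take_append_drop _ _).symm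
      rw [List.drop_drop] at e1
      have e2 : a + (b - a) = b := by omega
      rw [e2] at e1
      conv_lhs => rw [← List.take_append_drop a ps, e1]
      rw [List.append_assoc]
    have htake : ps.take b = ps.take a ++ Q := by
      have := congrArg (List.take b) hsplit
      rw [this, List.take_append_of_le_length (by
        rw [List.length_append, hQlen, List.length_take]; omega)]
      rw [List.take_of_length_le (by
        rw [List.length_append, hQlen, List.length_take]; omega)]
    have hPb : P b = P a + (Q.flatMap (blk m)).length := by
      simp only [hP]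
      rw [htake, List.flatMap_append, List.length_append]
    have hQpos : 0 < (Q.flatMap (blk m)).length := by
      have : Q ≠ [] := by
        intro h0
        rw [h0] at hQlen
        simp at hQlen
        omega
      obtain ⟨q, Q', hq⟩ := List.exists_cons_of_ne_nil this
      rw [hq, List.flatMap_cons, List.length_append]
      have := blk_length_pos m q
      omega
    have hdvd : c.length ∣ (Q.flatMap (blk m)).length := by
      have h1 : P a ≡ P b [MOD c.length] := hPab
      have h2 := (Nat.modEq_iff_dvd' (by omega : P a ≤ P b)).1 h1
      rwa [hPb, Nat.add_sub_cancel_left] at h2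
    obtain ⟨j', hj'⟩ := hdvd
    refine ⟨j', Q, ?_, ?_, by omega, ?_, ?_⟩
    · rcases Nat.eq_zero_or_pos j' with h0 | h0
      · rw [h0] at hj'; omega
      · exact h0
    · intro h0
      rw [h0] at hQlen
      simp at hQlen
      omega
    · intro p hp
      rw [hsplit]
      simp [hp]
    · apply rotated_of_cyc hc (t := P a + t) (by rw [hj', mul_comm])
      intro i hi
      have hW : ps.flatMap (blk m) = (ps.take a).flatMap (blk m) ++ Q.flatMap (blk m) ++
          (ps.drop b).flatMap (blk m) := by
        conv_lhs => rw [hsplit, List.flatMap_append, List.flatMap_append]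
      have h1 := cyc_mid ((ps.take a).flatMap (blk m)) (Q.flatMap (blk m))
        ((ps.drop b).flatMap (blk m)) i hi
      rw [← hW, ht] at h1
      rw [← h1]
      congr 1
      simp only [hP]
      ring

/-- **The finite criterion.** -/
theorem finite_criterion {c : List Bool} (ct : true ∈ c) (cf : false ∈ c) :
    (∃ j, 1 ≤ j ∧ PennerWord (rep j c)) ↔
      (∃ l, c ~r dbl l) ∨
      ∃ (m : List Bool) (ps : List (ℕ × ℕ)) (j : ℕ), 1 ≤ j ∧ m.length < c.length ∧
        ps.length ≤ c.length ∧ (∀ p ∈ ps, 2 * p.1 + 1 < c.length ∧ 2 * p.2 + 1 < c.length) ∧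
        rep j c ~r ps.flatMap (blk m) := by
  constructor
  · rintro ⟨j, hj, ⟨l, hl⟩ | ⟨m, ps, h⟩⟩
    · exact Or.inl (dbl_root hj ct cf hl)
    · right
      obtain ⟨j', ps', h1, h2, h3, -, h5⟩ := few_blocks ct ps.length j ps le_rfl hj h
      have hb : ∀ p ∈ ps', m.length < c.length ∧ 2 * p.1 + 1 < c.length ∧
          2 * p.2 + 1 < c.length := by
        intro p hp
        obtain ⟨s, t, hst⟩ := List.append_of_mem hp
        have hW : ps'.flatMap (blk m) = s.flatMap (blk m) ++ blk m p ++ t.flatMap (blk m) := by
          rw [hst, List.flatMap_append, List.flatMap_cons, List.append_assoc]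
        rw [hW] at h5
        exact blk_bounds h1 ct cf h5
      obtain ⟨p0, hp0⟩ := List.exists_mem_of_ne_nil _ h2
      exact ⟨m, ps', j', h1, (hb p0 hp0).1, h3, fun p hp => (hb p hp).2, h5⟩
  · rintro (⟨l, hl⟩ | ⟨m, ps, j, h1, -, -, -, h5⟩)
    · exact ⟨1, le_rfl, Or.inl ⟨l, by simpa [rep] using hl⟩⟩
    · exact ⟨j, h1, Or.inr ⟨m, ps, h5⟩⟩

/-! ### Words without isolated letters -/

/-- The periodic word `c c c ...` has an isolated letter `x y x` with `y ≠ x`. -/
def HasIsolated (c : List Bool) : Prop :=
  ∃ i, cyc c i = cyc c (i + 2) ∧ cyc c (i + 1) ≠ cyc c i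

/-- A word all of whose letters have an equal neighbour is a root of a Penner word only if it
is a doubled word. -/
theorem criterion_of_not_isolated {c : List Bool} (ct : true ∈ c) (cf : false ∈ c)
    (hiso : ¬ HasIsolated c) :
    (∃ j, 1 ≤ j ∧ PennerWord (rep j c)) ↔ ∃ l, c ~r dbl l := by
  constructor
  · rintro ⟨j, hj, ⟨l, hl⟩ | ⟨m, ps, h⟩⟩
    · exact dbl_root hj ct cf hl
    · exfalso
      have hc : c ≠ [] := List.ne_nil_of_mem ct
      have hN : 0 < c.length := List.length_pos_iff.2 hc
      obtain ⟨hlen, t, ht⟩ := cyc_of_rotated hj hc h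
      have hne : ps ≠ [] := by
        rintro rfl
        have : 0 < j * c.length := by positivity
        simp at hlen
        rcases hlen with h | h
        · omega
        · exact hc h
      have key : ∀ i, cyc (ps.flatMap (blk m)) i = cyc (ps.flatMap (blk m)) (i + 2) →
          cyc (ps.flatMap (blk m)) (i + 1) ≠ cyc (ps.flatMap (blk m)) i → False := by
        intro i h1 h2
        rw [ht, ht] at h1 h2
        exact hiso ⟨i + t, by rw [h1]; congr 1; ring, by
          intro h3; apply h2; rw [← h3]; congr 1; ring⟩
      obtain ⟨p, ps', rfl⟩ := List.exists_cons_of_ne_nil hne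
      rcases m with _ | ⟨x, m⟩
      · have e : (p :: ps').flatMap (blk []) = List.replicate (2 * p.1) true ++
            [true, false, true] ++ (List.replicate (2 * p.2 + 1) false ++
              [true, false] ++ ps'.flatMap (blk [])) := by
          rw [List.flatMap_cons]
          unfold blk
          rw [List.replicate_succ' (n := 2 * p.1)]
          simp [swp]
        have g0 := cyc_mid (List.replicate (2 * p.1) true) [true, false, true]
          (List.replicate (2 * p.2 + 1) false ++ [true, false] ++ ps'.flatMap (blk [])) 0 (by simp)
        have g1 := cyc_mid (List.replicate (2 * p.1) true) [true, false, true]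
          (List.replicate (2 * p.2 + 1) false ++ [true, false] ++ ps'.flatMap (blk [])) 1 (by simp)
        have g2 := cyc_mid (List.replicate (2 * p.1) true) [true, false, true]
          (List.replicate (2 * p.2 + 1) false ++ [true, false] ++ ps'.flatMap (blk [])) 2 (by simp)
        rw [← e] at g0 g1 g2
        rw [Nat.add_zero] at g0
        exact key _ (by rw [g0, g2]; rfl) (by rw [g0, g1]; simp)
      · cases x
        · -- `m` begins with `false`: look at the end of the word
          have hend : ∀ qs : List (ℕ × ℕ), qs ≠ [] → ∃ U, qs.flatMap (blk (false :: m)) =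
              U ++ [true, false] := by
            intro qs hqs
            rcases List.eq_nil_or_concat qs with h0 | ⟨qs', q, h0⟩
            · exact absurd h0 hqs
            · rw [h0, List.concat_eq_append, List.flatMap_append]
              refine ⟨qs'.flatMap (blk (false :: m)) ++ (List.replicate (2 * q.1 + 1) true ++
                ([false] ++ (false :: m) ++ [true]) ++ List.replicate (2 * q.2 + 1) false ++
                ([true] ++ (swp m).reverse)), ?_⟩
              simp [blk, swp]
          obtain ⟨U, hU⟩ := hend (p :: ps') (by simp)
          have hstart : ∃ V, (p :: ps').flatMap (blk (false :: m)) = true :: V := by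
            rw [List.flatMap_cons]
            unfold blk
            rw [List.replicate_succ]
            exact ⟨_, rfl⟩
          obtain ⟨V, hV⟩ := hstart
          have hWlen : ((p :: ps').flatMap (blk (false :: m))).length = U.length + 2 := by
            rw [hU]; simp
          have g0 := cyc_mid U [true, false] [] 0 (by simp)
          have g1 := cyc_mid U [true, false] [] 1 (by simp)
          have g2 : cyc ((p :: ps').flatMap (blk (false :: m))) (U.length + 2) = true := by
            rw [← hWlen]
            have := cyc_add ((p :: ps').flatMap (blk (false :: m))) 0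
            rw [Nat.zero_add] at this
            rw [this, hV]
            simp [cyc]
          rw [List.append_nil, ← hU] at g0 g1
          rw [Nat.add_zero] at g0
          exact key U.length (by rw [g0, g2]; rfl) (by rw [g0, g1]; simp)
        · have e : (p :: ps').flatMap (blk (true :: m)) = List.replicate (2 * p.1) true ++
              [true, false, true] ++ (m ++ [true] ++ List.replicate (2 * p.2 + 1) false ++
                ([true] ++ (swp (true :: m)).reverse ++ [false]) ++
                ps'.flatMap (blk (true :: m))) := by
            have eb : blk (true :: m) p = List.replicate (2 * p.1) true ++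
              [true, false, true] ++ (m ++ [true] ++ List.replicate (2 * p.2 + 1) false ++
                ([true] ++ (swp (true :: m)).reverse ++ [false])) := by
              unfold blk
              rw [List.replicate_succ' (n := 2 * p.1)]
              simp
            rw [List.flatMap_cons, eb]
            simp only [List.append_assoc]
          have g0 := cyc_mid (List.replicate (2 * p.1) true) [true, false, true]
            (m ++ [true] ++ List.replicate (2 * p.2 + 1) false ++
                ([true] ++ (swp (true :: m)).reverse ++ [false]) ++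
                ps'.flatMap (blk (true :: m))) 0 (by simp)
          have g1 := cyc_mid (List.replicate (2 * p.1) true) [true, false, true]
            (m ++ [true] ++ List.replicate (2 * p.2 + 1) false ++
                ([true] ++ (swp (true :: m)).reverse ++ [false]) ++
                ps'.flatMap (blk (true :: m))) 1 (by simp)
          have g2 := cyc_mid (List.replicate (2 * p.1) true) [true, false, true]
            (m ++ [true] ++ List.replicate (2 * p.2 + 1) false ++
                ([true] ++ (swp (true :: m)).reverse ++ [false]) ++
                ps'.flatMap (blk (true :: m))) 2 (by simp)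
          rw [← e] at g0 g1 g2
          rw [Nat.add_zero] at g0
          exact key _ (by rw [g0, g2]; rfl) (by rw [g0, g1]; simp)
  · rintro ⟨l, hl⟩
    exact ⟨1, le_rfl, Or.inl ⟨l, by simpa [rep] using hl⟩⟩

end Pool.Agent.KS6_96.Pen
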