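import Mathlib

/-!
# The extended mapping class group of the four-punctured sphere, Dehn twists and
Penner's construction (algebraic model)

Let `S` be the sphere with four punctures.  Its fundamental group is
`⟨p 0, p 1, p 2, p 3 | p 0 * p 1 * p 2 * p 3 = 1⟩`, a free group on `p 0, p 1, p 2`, where
`p i` is a loop around the `i`-th puncture.  By the Dehn-Nielsen-Baer theorem for punctured
surfaces the extended mapping class group of `S` is the group of outer automorphisms which
permute the conjugacy classes of the four peripheral loops, all of them with exponent `1`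
(orientation-preserving classes) or all of them with exponent `-1` (orientation-reversing
classes).
-/

set_option autoImplicit false

namespace Pool.Agent.KS6_96.Pen

/-- The fundamental group of the four-punctured sphere: the free group on three letters. -/
abbrev F3 : Type := FreeGroup (Fin 3)

/-- The free generators. -/
def x (i : Fin 3) : F3 := FreeGroup.of i

/-- The four peripheral loops; their product in order is `1`. -/
def per : Fin 4 → F3 := ![x 0, x 1, x 2, (x 0 * x 1 * x 2)⁻¹]

/-- `φ` induces a mapping class of the four-punctured sphere of sign `ε`: it maps the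
peripheral loops, up to conjugacy, to a permutation of their `ε`-th powers.  The sign `1`
means that the class preserves the orientation, the sign `-1` that it reverses it. -/
def Geometric (ε : ℤˣ) (φ : MulAut F3) : Prop :=
  ∃ σ : Equiv.Perm (Fin 4), ∀ i, IsConj (φ (per i)) (per (σ i) ^ (ε : ℤ))

/-- The standard essential simple closed curve: it separates the punctures `0, 1` from the
punctures `2, 3`. -/
def curve0 : F3 := x 0 * x 1

/-- The underlying endomorphism of the Dehn twist about `curve0`. -/
def twistHom : F3 →* F3 :=
  FreeGroup.lift ![curve0 * x 0 * curve0⁻¹, curve0 * x 1 * curve0⁻¹, x 2]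

/-- The endomorphism underlying the inverse twist. -/
def twistInvHom : F3 →* F3 :=
  FreeGroup.lift ![curve0⁻¹ * x 0 * curve0, curve0⁻¹ * x 1 * curve0, x 2]

lemma twistHom_x0 : twistHom (x 0) = curve0 * x 0 * curve0⁻¹ := by simp [twistHom, x]

lemma twistHom_x1 : twistHom (x 1) = curve0 * x 1 * curve0⁻¹ := by simp [twistHom, x]

lemma twistHom_x2 : twistHom (x 2) = x 2 := by simp [twistHom, x]

lemma twistInvHom_x0 : twistInvHom (x 0) = curve0⁻¹ * x 0 * curve0 := by simp [twistInvHom, x]

lemma twistInvHom_x1 : twistInvHom (x 1) = curve0⁻¹ * x 1 * curve0 := by simp [twistInvHom, x]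

lemma twistInvHom_x2 : twistInvHom (x 2) = x 2 := by simp [twistInvHom, x]

lemma twistHom_curve0 : twistHom curve0 = curve0 := by
  rw [curve0, map_mul, twistHom_x0, twistHom_x1, curve0]
  group

lemma twistInvHom_curve0 : twistInvHom curve0 = curve0 := by
  rw [curve0, map_mul, twistInvHom_x0, twistInvHom_x1, curve0]
  group

lemma twist_comp1 : twistInvHom.comp twistHom = MonoidHom.id F3 := by
  ext i
  fin_cases i
  · change twistInvHom (twistHom (x 0)) = x 0
    rw [twistHom_x0, map_mul, map_mul, map_inv, twistInvHom_curve0, twistInvHom_x0]
    group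
  · change twistInvHom (twistHom (x 1)) = x 1
    rw [twistHom_x1, map_mul, map_mul, map_inv, twistInvHom_curve0, twistInvHom_x1]
    group
  · change twistInvHom (twistHom (x 2)) = x 2
    rw [twistHom_x2, twistInvHom_x2]

lemma twist_comp2 : twistHom.comp twistInvHom = MonoidHom.id F3 := by
  ext i
  fin_cases i
  · change twistHom (twistInvHom (x 0)) = x 0
    rw [twistInvHom_x0, map_mul, map_mul, map_inv, twistHom_curve0, twistHom_x0]
    group
  · change twistHom (twistInvHom (x 1)) = x 1
    rw [twistInvHom_x1, map_mul, map_mul, map_inv, twistHom_curve0, twistHom_x1]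
    group
  · change twistHom (twistInvHom (x 2)) = x 2
    rw [twistInvHom_x2, twistHom_x2]

/-- The (positive) Dehn twist about `curve0`: it conjugates the loops `x 0`, `x 1` on one side
of the curve by the curve and fixes the loop `x 2` on the other side. -/
def twist0 : MulAut F3 := MonoidHom.toMulEquiv twistHom twistInvHom twist_comp1 twist_comp2

instance inner_normal : ((MulAut.conj : F3 →* MulAut F3).range).Normal := ⟨by
  rintro _ ⟨g, rfl⟩ φ
  refine ⟨φ g, ?_⟩
  ext y
  simp⟩

/-- The outer automorphism group of the fundamental group. -/
abbrev OutF3 : Type := MulAut F3 ⧸ (MulAut.conj : F3 →* MulAut F3).range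

/-- `t` is the positive Dehn twist about some essential simple closed curve: every essential
simple closed curve is the image of `curve0` under an orientation-preserving homeomorphism
`φ`, and the twist about the image curve is the conjugate of the standard twist by `φ`. -/
def IsDehnTwist (t : OutF3) : Prop :=
  ∃ φ : MulAut F3, Geometric 1 φ ∧ t = ((φ * twist0 * φ⁻¹ : MulAut F3) : OutF3)

/-- `A` is the set of Dehn twists about the components of a multicurve: two distinct essential
simple closed curves are disjoint if and only if their Dehn twists commute. -/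
def IsMulticurve (A : Set OutF3) : Prop :=
  (∀ t ∈ A, IsDehnTwist t) ∧ ∀ s ∈ A, ∀ t ∈ A, Commute s t

/-- The multicurves `A` and `B` fill the surface: every essential simple closed curve
intersects one of their components. -/
def Fills (A B : Set OutF3) : Prop :=
  ∀ t : OutF3, IsDehnTwist t → ∃ s ∈ A ∪ B, ¬ Commute s t

/-- `h` arises from Penner's construction: it is a product of Dehn twists about the components
of a multicurve `A` and inverse Dehn twists about the components of a multicurve `B`, where
`A` and `B` fill the surface and every component of `A` and of `B` occurs. -/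
def ArisesFromPenner (h : OutF3) : Prop :=
  ∃ A B : Set OutF3, IsMulticurve A ∧ IsMulticurve B ∧ Fills A B ∧
    ∃ l : List OutF3, (∀ g ∈ l, g ∈ A ∨ g⁻¹ ∈ B) ∧ (∀ a ∈ A, a ∈ l) ∧ (∀ b ∈ B, b⁻¹ ∈ l) ∧
      l.prod = h

/-- The mapping class `f` is pseudo-Anosov (Nielsen-Thurston): no positive power of `f`
preserves the isotopy class of an essential simple closed curve `φ curve0`. -/
def IsPseudoAnosov (f : MulAut F3) : Prop :=
  ∀ k : ℕ, 1 ≤ k → ∀ φ : MulAut F3, Geometric 1 φ →
    ¬ IsConj ((f ^ k) (φ curve0)) (φ curve0) ∧ ¬ IsConj ((f ^ k) (φ curve0)) (φ curve0)⁻¹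

end Pool.Agent.KS6_96.Pen
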