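import Pool.Agent.KS6_96.Pen.Final

/-!
# Cancellation in free groups and the transitivity of the Hurwitz moves (Artin)
-/

set_option autoImplicit false

namespace Pool.Agent.KS6_96.Pen

open FreeGroup

section general

variable {α : Type*} [DecidableEq α]

lemma red_left {A B : List (α × Bool)} (h : IsReduced (A ++ B)) : IsReduced A :=
  List.IsChain.left_of_append h

lemma red_right {A B : List (α × Bool)} (h : IsReduced (A ++ B)) : IsReduced B :=
  List.IsChain.right_of_append h

/-- Maximal cancellation between two reduced words. -/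
lemma max_cancel (v : List (α × Bool)) : ∀ u : List (α × Bool), IsReduced u → IsReduced v →
    ∃ A C B : List (α × Bool), u = A ++ invRev C ∧ v = C ++ B ∧ IsReduced (A ++ B) := by
  induction v with
  | nil =>
    intro u hu _
    exact ⟨u, [], [], by simp, by simp, by simpa using hu⟩
  | cons b v ih =>
    intro u hu hv
    rcases List.eq_nil_or_concat u with rfl | ⟨u', a, rfl⟩
    · exact ⟨[], [], b :: v, by simp, by simp, by simpa using hv⟩
    · rw [List.concat_eq_append] at hu ⊢
      by_cases h : a.1 = b.1 → a.2 = b.2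
      · refine ⟨u' ++ [a], [], b :: v, by simp, by simp, ?_⟩
        have h1 : IsReduced ([a] ++ (b :: v)) := by
          simp only [List.singleton_append, isReduced_cons_cons]
          exact ⟨h, hv⟩
        have := IsReduced.append_overlap (L₁ := u') (L₂ := [a]) (L₃ := b :: v) hu h1 (by simp)
        simpa using this
      · push Not at h
        obtain ⟨A, C, B, h1, h2, h3⟩ := ih u' (red_left hu)
          (red_right (A := [b]) hv)
        refine ⟨A, b :: C, B, ?_, ?_, h3⟩
        · rw [invRev_cons, h1, List.append_assoc]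
          congr 2
          obtain ⟨a1, a2⟩ := a
          obtain ⟨b1, b2⟩ := b
          simp only [ne_eq] at h
          obtain ⟨rfl, h⟩ := h
          cases a2 <;> cases b2 <;> simp_all [invRev]
        · rw [h2]; rfl

lemma isReduced_invRev {L : List (α × Bool)} (h : IsReduced L) : IsReduced (invRev L) := by
  rw [isReduced_iff_reduce_eq] at h ⊢
  rw [reduce_invRev, h]

lemma toWord_mk_of_isReduced {L : List (α × Bool)} (h : IsReduced L) :
    (FreeGroup.mk L).toWord = L := by
  rw [toWord_mk, h.reduce_eq]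

/-- The reduced word of a conjugate of a generator. -/
lemma conj_form (y : FreeGroup α) (j : α) : ∀ n : ℕ, ∀ g : FreeGroup α, norm g ≤ n →
    y = g * of j * g⁻¹ →
    ∃ W : List (α × Bool), y.toWord = W ++ (j, true) :: invRev W := by
  intro n
  induction n with
  | zero =>
    intro g hg hy
    have : g = 1 := norm_eq_zero.1 (by omega)
    subst this
    refine ⟨[], ?_⟩
    rw [hy]
    simp
  | succ n ih =>
    intro g hg hy
    rcases List.eq_nil_or_concat g.toWord with h | ⟨W, a, h⟩
    · rw [toWord_eq_nil_iff] at h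
      subst h
      exact ⟨[], by rw [hy]; simp⟩
    · rw [List.concat_eq_append] at h
      have hgW : g = FreeGroup.mk (W ++ [a]) := by rw [← h, mk_toWord]
      by_cases hj : a.1 = j
      · -- the last letter commutes with the generator
        obtain ⟨a1, a2⟩ := a
        simp only at hj
        subst hj
        apply ih (FreeGroup.mk W)
        · have : norm (FreeGroup.mk W) ≤ W.length := norm_mk_le
          have h2 : norm g = W.length + 1 := by
            unfold FreeGroup.norm; rw [h]; simp
          omega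
        · have e : FreeGroup.mk [(a1, a2)] * of a1 * (FreeGroup.mk [(a1, a2)])⁻¹ = of a1 := by
            cases a2
            · have : (FreeGroup.mk [(a1, false)] : FreeGroup α) = (of a1)⁻¹ := by
                simp [of, inv_mk, invRev]
              rw [this]; group
            · have : (FreeGroup.mk [(a1, true)] : FreeGroup α) = of a1 := rfl
              rw [this]; group
          rw [hy, hgW, ← mul_mk]
          calc FreeGroup.mk W * FreeGroup.mk [(a1, a2)] * of a1 *
                (FreeGroup.mk W * FreeGroup.mk [(a1, a2)])⁻¹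
              = FreeGroup.mk W * (FreeGroup.mk [(a1, a2)] * of a1 *
                (FreeGroup.mk [(a1, a2)])⁻¹) * (FreeGroup.mk W)⁻¹ := by group
            _ = _ := by rw [e]
      · refine ⟨W ++ [a], ?_⟩
        have hred : IsReduced (W ++ [a]) := by rw [← h]; exact isReduced_toWord
        have h1 : ∀ b : Bool, IsReduced ((W ++ [a]) ++ [(j, b)]) := by
          intro b
          have : IsReduced ([a] ++ [(j, b)]) := by
            simp only [List.singleton_append, isReduced_cons_cons, IsReduced.singleton, and_true]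
            intro h; exact absurd h hj
          have h2 := IsReduced.append_overlap (L₁ := W) (L₂ := [a]) (L₃ := [(j, b)]) hred this
            (by simp)
          simpa using h2
        have h2 : IsReduced ([(j, true)] ++ invRev (W ++ [a])) := by
          have := isReduced_invRev (h1 false)
          rw [invRev_append] at this
          simpa [invRev] using this
        have h3 := IsReduced.append_overlap (h1 true) h2 (by simp)
        have e : y = FreeGroup.mk ((W ++ [a]) ++ [(j, true)] ++ invRev (W ++ [a])) := by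
          rw [hy, hgW, ← mul_mk, ← mul_mk, ← inv_mk]
          rfl
        rw [e, toWord_mk_of_isReduced h3]
        simp

/-- The norm of a product of three elements, when the cancellations at both ends of the middle
factor do not meet. -/
lemma norm_triple {Y0 Y1 Y2 A0 C0 B0 A1 C1 B1 : List (α × Bool)} (h0 : Y0 = A0 ++ invRev C0)
    (h1 : Y1 = C0 ++ B0) (h1' : Y1 = A1 ++ invRev C1) (h2 : Y2 = C1 ++ B1)
    (r0 : IsReduced (A0 ++ B0)) (r1 : IsReduced (A1 ++ B1))
    (hlen : C0.length + C1.length < Y1.length) :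
    norm (FreeGroup.mk Y0 * FreeGroup.mk Y1 * FreeGroup.mk Y2) + 2 * C0.length + 2 * C1.length =
      Y0.length + Y1.length + Y2.length := by
  -- split the middle word
  have hle : C0.length ≤ A1.length := by
    have : Y1.length = A1.length + C1.length := by rw [h1']; simp
    omega
  obtain ⟨M, hM⟩ : ∃ M, A1 = C0 ++ M := by
    have hp : C0 <+: A1 := by
      apply List.prefix_of_prefix_length_le (l₃ := Y1)
      · rw [h1]; exact List.prefix_append _ _
      · rw [h1']; exact List.prefix_append _ _
      · exact hle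
    obtain ⟨M, hM⟩ := hp
    exact ⟨M, hM.symm⟩
  have hB0 : B0 = M ++ invRev C1 := by
    have : C0 ++ B0 = C0 ++ (M ++ invRev C1) := by
      rw [← h1, h1', hM, List.append_assoc]
    exact List.append_cancel_left this
  have hMne : M ≠ [] := by
    rintro rfl
    have : Y1.length = C0.length + C1.length := by rw [h1', hM]; simp
    omega
  have r : IsReduced (A0 ++ M ++ B1) := by
    apply IsReduced.append_overlap
    · rw [hB0, ← List.append_assoc] at r0
      exact red_left r0
    · rw [hM, List.append_assoc] at r1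
      exact red_right r1
    · exact hMne
  have e : FreeGroup.mk Y0 * FreeGroup.mk Y1 * FreeGroup.mk Y2 = FreeGroup.mk (A0 ++ M ++ B1) := by
    rw [h0, h1, hB0, h2]
    simp only [← mul_mk, ← inv_mk]
    group
  rw [e]
  unfold FreeGroup.norm
  rw [toWord_mk_of_isReduced r, h0, h1, hB0, h2]
  simp
  omega

lemma invRev_prefix {L M : List (α × Bool)} (h : L <:+ M) : invRev L <+: invRev M := by
  obtain ⟨t, rfl⟩ := h
  rw [invRev_append]
  exact List.prefix_append _ _

lemma invRev_suffix {L M : List (α × Bool)} (h : L <+: M) : invRev L <:+ invRev M := by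
  obtain ⟨t, rfl⟩ := h
  rw [invRev_append]
  exact List.suffix_append _ _

lemma cancel_left {W0 W1 A C B : List (α × Bool)} {j0 j1 : α}
    (h0 : W0 ++ (j0, true) :: invRev W0 = A ++ invRev C)
    (h1 : W1 ++ (j1, true) :: invRev W1 = C ++ B) (hle : W0.length ≤ W1.length)
    (hC : W0.length + 1 ≤ C.length) : ∃ V, W1 = W0 ++ (j0, false) :: V := by
  have s1 : (j0, true) :: invRev W0 <:+ invRev C := by
    apply List.suffix_of_suffix_length_le (l₃ := A ++ invRev C)
    · rw [← h0]; exact List.suffix_append _ _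
    · exact List.suffix_append _ _
    · simpa using hC
  have s2 : W0 ++ [(j0, false)] <+: C := by
    have := invRev_prefix s1
    rw [invRev_invRev, invRev_cons, invRev_invRev] at this
    simpa [invRev] using this
  have s3 : W0 ++ [(j0, false)] <+: W1 ++ [(j1, true)] := by
    apply List.prefix_of_prefix_length_le (l₃ := C ++ B)
    · exact s2.trans (List.prefix_append _ _)
    · rw [← h1]
      exact ⟨invRev W1, by simp⟩
    · simpa using hle
  rcases hle.lt_or_eq with h | h
  · have s4 : W0 ++ [(j0, false)] <+: W1 := by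
      apply List.prefix_of_prefix_length_le (l₃ := W1 ++ [(j1, true)]) s3
        (List.prefix_append _ _)
      simp; omega
    obtain ⟨V, hV⟩ := s4
    exact ⟨V, by rw [← hV]; simp⟩
  · exfalso
    have s4 := s3.eq_of_length (by simp [h])
    have := List.append_inj' s4 (by simp)
    simpa using this.2

lemma cancel_right {W0 W1 A C B : List (α × Bool)} {j0 j1 : α}
    (h0 : W0 ++ (j0, true) :: invRev W0 = A ++ invRev C)
    (h1 : W1 ++ (j1, true) :: invRev W1 = C ++ B) (hlt : W1.length < W0.length)
    (hC : W1.length + 1 ≤ C.length) : ∃ V, W0 = W1 ++ (j1, true) :: V := by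
  have s1 : W1 ++ [(j1, true)] <+: C := by
    apply List.prefix_of_prefix_length_le (l₃ := C ++ B)
    · rw [← h1]
      exact ⟨invRev W1, by simp⟩
    · exact List.prefix_append _ _
    · simpa using hC
  have s2 : (j1, false) :: invRev W1 <:+ invRev W0 := by
    apply List.suffix_of_suffix_length_le (l₃ := A ++ invRev C)
    · have := invRev_suffix s1
      rw [invRev_append] at this
      refine List.IsSuffix.trans ?_ (List.suffix_append _ _)
      simpa [invRev] using this
    · rw [← h0]
      exact ⟨W0 ++ [(j0, true)], by simp⟩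
    · simp; omega
  have s3 := invRev_prefix s2
  rw [invRev_invRev, invRev_cons, invRev_invRev] at s3
  obtain ⟨V, hV⟩ := s3
  refine ⟨V, ?_⟩
  rw [← hV]
  simp [invRev]

/-- Conjugating a conjugate of a generator after a large cancellation makes it shorter. -/
lemma norm_conj_left {W0 V : List (α × Bool)} {j0 j1 : α} :
    norm (FreeGroup.mk (W0 ++ (j0, true) :: invRev W0) *
      FreeGroup.mk ((W0 ++ (j0, false) :: V) ++ (j1, true) :: invRev (W0 ++ (j0, false) :: V)) *
      (FreeGroup.mk (W0 ++ (j0, true) :: invRev W0))⁻¹) + 2 ≤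
    ((W0 ++ (j0, false) :: V) ++ (j1, true) :: invRev (W0 ++ (j0, false) :: V)).length := by
  have e1 : FreeGroup.mk (W0 ++ (j0, true) :: invRev W0) =
      FreeGroup.mk W0 * of j0 * (FreeGroup.mk W0)⁻¹ := by
    rw [inv_mk, mul_assoc]
    show _ = _ * (FreeGroup.mk [(j0, true)] * _)
    rw [mul_mk, mul_mk]; rfl
  have e2 : FreeGroup.mk ((W0 ++ (j0, false) :: V) ++ (j1, true) ::
        invRev (W0 ++ (j0, false) :: V)) =
      FreeGroup.mk W0 * (of j0)⁻¹ * FreeGroup.mk V * of j1 *
        (FreeGroup.mk W0 * (of j0)⁻¹ * FreeGroup.mk V)⁻¹ := by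
    have e3 : FreeGroup.mk (W0 ++ (j0, false) :: V) =
        FreeGroup.mk W0 * (of j0)⁻¹ * FreeGroup.mk V := by
      have : (of j0 : FreeGroup α)⁻¹ = FreeGroup.mk [(j0, false)] := by
        simp [of, inv_mk, invRev]
      rw [this, mul_mk, mul_mk]; simp
    rw [← e3, inv_mk]
    show _ = _ * FreeGroup.mk [(j1, true)] * _
    rw [mul_mk, mul_mk]; simp
  have e4 : FreeGroup.mk (W0 ++ (j0, true) :: invRev W0) *
      FreeGroup.mk ((W0 ++ (j0, false) :: V) ++ (j1, true) :: invRev (W0 ++ (j0, false) :: V)) *
      (FreeGroup.mk (W0 ++ (j0, true) :: invRev W0))⁻¹ =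
      FreeGroup.mk ((W0 ++ V) ++ (j1, true) :: invRev (W0 ++ V)) := by
    have e5 : FreeGroup.mk ((W0 ++ V) ++ (j1, true) :: invRev (W0 ++ V)) =
        FreeGroup.mk W0 * FreeGroup.mk V * of j1 * (FreeGroup.mk W0 * FreeGroup.mk V)⁻¹ := by
      rw [mul_mk, inv_mk]
      show _ = _ * FreeGroup.mk [(j1, true)] * _
      rw [mul_mk, mul_mk]; simp
    rw [e1, e2, e5]
    group
  rw [e4]
  refine (Nat.add_le_add_right norm_mk_le 2).trans ?_
  simp
  omega

lemma norm_conj_right {W1 V : List (α × Bool)} {j0 j1 : α} :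
    norm ((FreeGroup.mk (W1 ++ (j1, true) :: invRev W1))⁻¹ *
      FreeGroup.mk ((W1 ++ (j1, true) :: V) ++ (j0, true) :: invRev (W1 ++ (j1, true) :: V)) *
      FreeGroup.mk (W1 ++ (j1, true) :: invRev W1)) + 2 ≤
    ((W1 ++ (j1, true) :: V) ++ (j0, true) :: invRev (W1 ++ (j1, true) :: V)).length := by
  have e1 : FreeGroup.mk (W1 ++ (j1, true) :: invRev W1) =
      FreeGroup.mk W1 * of j1 * (FreeGroup.mk W1)⁻¹ := by
    rw [inv_mk, mul_assoc]
    show _ = _ * (FreeGroup.mk [(j1, true)] * _)
    rw [mul_mk, mul_mk]; rfl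
  have e2 : FreeGroup.mk ((W1 ++ (j1, true) :: V) ++ (j0, true) ::
        invRev (W1 ++ (j1, true) :: V)) =
      FreeGroup.mk W1 * of j1 * FreeGroup.mk V * of j0 *
        (FreeGroup.mk W1 * of j1 * FreeGroup.mk V)⁻¹ := by
    have e3 : FreeGroup.mk (W1 ++ (j1, true) :: V) =
        FreeGroup.mk W1 * of j1 * FreeGroup.mk V := by
      show _ = _ * FreeGroup.mk [(j1, true)] * _
      rw [mul_mk, mul_mk]; simp
    rw [← e3, inv_mk]
    show _ = _ * FreeGroup.mk [(j0, true)] * _
    rw [mul_mk, mul_mk]; simp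
  have e4 : (FreeGroup.mk (W1 ++ (j1, true) :: invRev W1))⁻¹ *
      FreeGroup.mk ((W1 ++ (j1, true) :: V) ++ (j0, true) :: invRev (W1 ++ (j1, true) :: V)) *
      FreeGroup.mk (W1 ++ (j1, true) :: invRev W1) =
      FreeGroup.mk ((W1 ++ V) ++ (j0, true) :: invRev (W1 ++ V)) := by
    have e5 : FreeGroup.mk ((W1 ++ V) ++ (j0, true) :: invRev (W1 ++ V)) =
        FreeGroup.mk W1 * FreeGroup.mk V * of j0 * (FreeGroup.mk W1 * FreeGroup.mk V)⁻¹ := by
      rw [mul_mk, inv_mk]
      show _ = _ * FreeGroup.mk [(j0, true)] * _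
      rw [mul_mk, mul_mk]; simp
    rw [e1, e2, e5]
    group
  rw [e4]
  refine (Nat.add_le_add_right norm_mk_le 2).trans ?_
  simp
  omega

end general

/-- `y` is a conjugate of a free generator. -/
def ConjGen (y : F3) : Prop := ∃ (j : Fin 3) (g : F3), y = g * x j * g⁻¹

lemma ConjGen.form {y : F3} (h : ConjGen y) :
    ∃ (j : Fin 3) (W : List (Fin 3 × Bool)), y.toWord = W ++ (j, true) :: invRev W := by
  obtain ⟨j, g, hg⟩ := h
  exact ⟨j, conj_form y j _ g le_rfl hg⟩

lemma ConjGen.conj {y : F3} (h : ConjGen y) (g : F3) : ConjGen (g * y * g⁻¹) := by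
  obtain ⟨j, k, hk⟩ := h
  exact ⟨j, g * k, by rw [hk]; group⟩

/-- One reduction step for a pair. -/
lemma pair_step {y0 y1 : F3} {W0 W1 A C B : List (Fin 3 × Bool)} {j0 j1 : Fin 3}
    (e0 : y0.toWord = W0 ++ (j0, true) :: invRev W0)
    (e1 : y1.toWord = W1 ++ (j1, true) :: invRev W1)
    (h0 : y0.toWord = A ++ invRev C) (h1 : y1.toWord = C ++ B)
    (hC : min W0.length W1.length < C.length) :
    norm (y0 * y1 * y0⁻¹) < norm y1 ∨ norm (y1⁻¹ * y0 * y1) < norm y0 := by
  have m0 : y0 = FreeGroup.mk (W0 ++ (j0, true) :: invRev W0) := by rw [← e0, mk_toWord]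
  have m1 : y1 = FreeGroup.mk (W1 ++ (j1, true) :: invRev W1) := by rw [← e1, mk_toWord]
  rcases le_or_gt W0.length W1.length with hle | hlt
  · left
    rw [min_eq_left hle] at hC
    obtain ⟨V, hV⟩ := cancel_left (e0 ▸ h0) (e1 ▸ h1) hle hC
    have hn : norm y1 = (W1 ++ (j1, true) :: invRev W1).length := by
      unfold FreeGroup.norm; rw [e1]
    have := norm_conj_left (W0 := W0) (V := V) (j0 := j0) (j1 := j1)
    rw [← hV, ← m0, ← m1, ← hn] at this
    omega
  · right
    rw [min_eq_right hlt.le] at hC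
    obtain ⟨V, hV⟩ := cancel_right (e0 ▸ h0) (e1 ▸ h1) hlt hC
    have hn : norm y0 = (W0 ++ (j0, true) :: invRev W0).length := by
      unfold FreeGroup.norm; rw [e0]
    have := norm_conj_right (W1 := W1) (V := V) (j0 := j0) (j1 := j1)
    rw [← hV, ← m1, ← m0, ← hn] at this
    omega

/-- Either one of the Hurwitz moves makes the triple shorter, or the triple is `(x 0, x 1, x 2)`. -/
lemma hurwitz_step {y0 y1 y2 : F3} (h0 : ConjGen y0) (h1 : ConjGen y1) (h2 : ConjGen y2)
    (hp : y0 * y1 * y2 = x 0 * x 1 * x 2) :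
    (norm (y0 * y1 * y0⁻¹) < norm y1 ∨ norm (y1⁻¹ * y0 * y1) < norm y0) ∨
    (norm (y1 * y2 * y1⁻¹) < norm y2 ∨ norm (y2⁻¹ * y1 * y2) < norm y1) ∨
    (y0 = x 0 ∧ y1 = x 1 ∧ y2 = x 2) := by
  obtain ⟨j0, W0, e0⟩ := h0.form
  obtain ⟨j1, W1, e1⟩ := h1.form
  obtain ⟨j2, W2, e2⟩ := h2.form
  obtain ⟨A0, C0, B0, a0, b0, r0⟩ := max_cancel y1.toWord y0.toWord isReduced_toWord
    isReduced_toWord
  obtain ⟨A1, C1, B1, a1, b1, r1⟩ := max_cancel y2.toWord y1.toWord isReduced_toWord
    isReduced_toWord
  by_cases c0 : min W0.length W1.length < C0.length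
  · exact Or.inl (pair_step e0 e1 a0 b0 c0)
  by_cases c1 : min W1.length W2.length < C1.length
  · exact Or.inr (Or.inl (pair_step e1 e2 a1 b1 c1))
  right; right
  push Not at c0 c1
  have l0 : y0.toWord.length = 2 * W0.length + 1 := by rw [e0]; simp; omega
  have l1 : y1.toWord.length = 2 * W1.length + 1 := by rw [e1]; simp; omega
  have l2 : y2.toWord.length = 2 * W2.length + 1 := by rw [e2]; simp; omega
  have hc0 := le_min_iff.1 c0
  have hc1 := le_min_iff.1 c1
  have hn := norm_triple a0 b0 a1 b1 r0 r1 (by omega)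
  rw [mk_toWord, mk_toWord, mk_toWord, hp] at hn
  have hx : norm (x 0 * x 1 * x 2 : F3) = 3 := by decide
  rw [hx] at hn
  have w0 : W0 = [] := List.length_eq_zero_iff.1 (by omega)
  have w1 : W1 = [] := List.length_eq_zero_iff.1 (by omega)
  have w2 : W2 = [] := List.length_eq_zero_iff.1 (by omega)
  subst w0 w1 w2
  have m0 : y0 = x j0 := by rw [← mk_toWord (x := y0), e0]; rfl
  have m1 : y1 = x j1 := by rw [← mk_toWord (x := y1), e1]; rfl
  have m2 : y2 = x j2 := by rw [← mk_toWord (x := y2), e2]; rfl
  rw [m0, m1, m2] at hp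
  have key : ∀ i j k : Fin 3, x i * x j * x k = x 0 * x 1 * x 2 → i = 0 ∧ j = 1 ∧ k = 2 := by
    intro i j k h
    have h' := congrArg FreeGroup.toWord h
    fin_cases i <;> fin_cases j <;> fin_cases k <;> first | exact ⟨rfl, rfl, rfl⟩ | exact absurd h' (by decide)
  obtain ⟨rfl, rfl, rfl⟩ := key _ _ _ hp
  exact ⟨m0, m1, m2⟩

end Pool.Agent.KS6_96.Pen
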