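import Pool.Agent.KS6_96.Pen.Alg

/-!
# An orientation-reversing pseudo-Anosov class with no power arising from Penner's construction
-/

set_option autoImplicit false

namespace Pool.Agent.KS6_96.Pen

open Matrix

lemma Geometric.mul {ε δ : ℤˣ} {φ ψ : MulAut F3} (h : Geometric ε φ) (h' : Geometric δ ψ) :
    Geometric (ε * δ) (φ * ψ) := by
  obtain ⟨σ, hσ⟩ := h
  obtain ⟨τ, hτ⟩ := h'
  refine ⟨σ * τ, fun i => ?_⟩
  obtain ⟨c, hc⟩ := isConj_iff.1 (hτ i).symm
  obtain ⟨d, hd⟩ := isConj_iff.1 (hσ (τ i)).symm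
  refine (isConj_iff.2 ⟨φ c * d, ?_⟩).symm
  rw [MulAut.mul_apply, ← hc, map_mul, map_mul, map_inv, map_zpow, ← hd, Equiv.Perm.mul_apply,
    Units.val_mul, _root_.zpow_mul]
  rcases Int.units_eq_one_or ε with h | h <;> rcases Int.units_eq_one_or δ with h' | h' <;>
    simp [h, h'] <;> group

/-- The half twist about `curve0` (its square is the Dehn twist about `curve0`). -/
def halfHom : F3 →* F3 := FreeGroup.lift ![x 0 * x 1 * (x 0)⁻¹, x 0, x 2]

/-- The inverse half twist. -/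
def halfInvHom : F3 →* F3 := FreeGroup.lift ![x 1, (x 1)⁻¹ * x 0 * x 1, x 2]

lemma halfHom_x0 : halfHom (x 0) = x 0 * x 1 * (x 0)⁻¹ := by simp [halfHom, x]
lemma halfHom_x1 : halfHom (x 1) = x 0 := by simp [halfHom, x]
lemma halfHom_x2 : halfHom (x 2) = x 2 := by simp [halfHom, x]
lemma halfInvHom_x0 : halfInvHom (x 0) = x 1 := by simp [halfInvHom, x]
lemma halfInvHom_x1 : halfInvHom (x 1) = (x 1)⁻¹ * x 0 * x 1 := by simp [halfInvHom, x]
lemma halfInvHom_x2 : halfInvHom (x 2) = x 2 := by simp [halfInvHom, x]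

lemma half_comp1 : halfInvHom.comp halfHom = MonoidHom.id F3 := by
  ext i
  fin_cases i
  · change halfInvHom (halfHom (x 0)) = x 0
    rw [halfHom_x0, map_mul, map_mul, map_inv, halfInvHom_x0, halfInvHom_x1]
    group
  · change halfInvHom (halfHom (x 1)) = x 1
    rw [halfHom_x1, halfInvHom_x0]
  · change halfInvHom (halfHom (x 2)) = x 2
    rw [halfHom_x2, halfInvHom_x2]

lemma half_comp2 : halfHom.comp halfInvHom = MonoidHom.id F3 := by
  ext i
  fin_cases i
  · change halfHom (halfInvHom (x 0)) = x 0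
    rw [halfInvHom_x0, halfHom_x1]
  · change halfHom (halfInvHom (x 1)) = x 1
    rw [halfInvHom_x1, map_mul, map_mul, map_inv, halfHom_x0, halfHom_x1]
    group
  · change halfHom (halfInvHom (x 2)) = x 2
    rw [halfInvHom_x2, halfHom_x2]

/-- The half twist as an automorphism. -/
def half : MulAut F3 := MonoidHom.toMulEquiv halfHom halfInvHom half_comp1 half_comp2

lemma half_x0 : half (x 0) = x 0 * x 1 * (x 0)⁻¹ := halfHom_x0
lemma half_x1 : half (x 1) = x 0 := halfHom_x1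
lemma half_x2 : half (x 2) = x 2 := halfHom_x2

/-- The square of the half twist is the Dehn twist. -/
lemma half_sq : half * half = twist0 := by
  apply MulEquiv.toMonoidHom_injective
  ext i
  fin_cases i
  · change half (half (x 0)) = twist0 (x 0)
    rw [half_x0, map_mul, map_mul, map_inv, half_x0, half_x1, twist0_x0, curve0]
    group
  · change half (half (x 1)) = twist0 (x 1)
    rw [half_x1, half_x0, twist0_x1, curve0]
    group
  · change half (half (x 2)) = twist0 (x 2)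
    rw [half_x2, half_x2, twist0_x2]

lemma per0 : per 0 = x 0 := rfl
lemma per1 : per 1 = x 1 := rfl
lemma per2 : per 2 = x 2 := rfl
lemma per3 : per 3 = (x 0 * x 1 * x 2)⁻¹ := rfl

lemma half_geometric : Geometric 1 half := by
  refine ⟨Equiv.swap 0 1, fun i => ?_⟩
  fin_cases i
  · change IsConj (half (per 0)) (per (Equiv.swap (0 : Fin 4) 1 0) ^ (1 : ℤ))
    rw [Equiv.swap_apply_left, per0, per1, half_x0]
    exact (isConj_iff.2 ⟨x 0, by simp⟩).symm
  · change IsConj (half (per 1)) (per (Equiv.swap (0 : Fin 4) 1 1) ^ (1 : ℤ))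
    rw [Equiv.swap_apply_right, per0, per1, half_x1, zpow_one]
  · change IsConj (half (per 2)) (per (Equiv.swap (0 : Fin 4) 1 2) ^ (1 : ℤ))
    rw [Equiv.swap_apply_of_ne_of_ne (by decide) (by decide), per2, half_x2, zpow_one]
  · change IsConj (half (per 3)) (per (Equiv.swap (0 : Fin 4) 1 3) ^ (1 : ℤ))
    rw [Equiv.swap_apply_of_ne_of_ne (by decide) (by decide), per3, map_inv, map_mul, map_mul,
      half_x0, half_x1, half_x2, zpow_one]
    have e : x 0 * x 1 * (x 0)⁻¹ * x 0 * x 2 = x 0 * x 1 * x 2 := by group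
    rw [e]

/-- A reflection: `x 0 ↦ (x 2)⁻¹`, `x 1 ↦ (x 1)⁻¹`, `x 2 ↦ (x 0)⁻¹`. -/
def reflHom : F3 →* F3 := FreeGroup.lift ![(x 2)⁻¹, (x 1)⁻¹, (x 0)⁻¹]

lemma reflHom_x0 : reflHom (x 0) = (x 2)⁻¹ := by simp [reflHom, x]
lemma reflHom_x1 : reflHom (x 1) = (x 1)⁻¹ := by simp [reflHom, x]
lemma reflHom_x2 : reflHom (x 2) = (x 0)⁻¹ := by simp [reflHom, x]

lemma refl_comp : reflHom.comp reflHom = MonoidHom.id F3 := by
  ext i
  fin_cases i
  · change reflHom (reflHom (x 0)) = x 0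
    rw [reflHom_x0, map_inv, reflHom_x2, inv_inv]
  · change reflHom (reflHom (x 1)) = x 1
    rw [reflHom_x1, map_inv, reflHom_x1, inv_inv]
  · change reflHom (reflHom (x 2)) = x 2
    rw [reflHom_x2, map_inv, reflHom_x0, inv_inv]

/-- The reflection as an automorphism. -/
def refl : MulAut F3 := MonoidHom.toMulEquiv reflHom reflHom refl_comp refl_comp

lemma refl_x0 : refl (x 0) = (x 2)⁻¹ := reflHom_x0
lemma refl_x1 : refl (x 1) = (x 1)⁻¹ := reflHom_x1
lemma refl_x2 : refl (x 2) = (x 0)⁻¹ := reflHom_x2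

lemma refl_geometric : Geometric (-1) refl := by
  refine ⟨Equiv.swap 0 2, fun i => ?_⟩
  fin_cases i
  · change IsConj (refl (per 0)) (per (Equiv.swap (0 : Fin 4) 2 0) ^ (-1 : ℤ))
    rw [Equiv.swap_apply_left, per0, per2, refl_x0, _root_.zpow_neg_one]
  · change IsConj (refl (per 1)) (per (Equiv.swap (0 : Fin 4) 2 1) ^ (-1 : ℤ))
    rw [Equiv.swap_apply_of_ne_of_ne (by decide) (by decide), per1, refl_x1, _root_.zpow_neg_one]
  · change IsConj (refl (per 2)) (per (Equiv.swap (0 : Fin 4) 2 2) ^ (-1 : ℤ))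
    rw [Equiv.swap_apply_right, per0, per2, refl_x2, _root_.zpow_neg_one]
  · change IsConj (refl (per 3)) (per (Equiv.swap (0 : Fin 4) 2 3) ^ (-1 : ℤ))
    rw [Equiv.swap_apply_of_ne_of_ne (by decide) (by decide), per3, map_inv, map_mul, map_mul,
      refl_x0, refl_x1, refl_x2, _root_.zpow_neg_one]
    have e : ((x 2)⁻¹ * (x 1)⁻¹ * (x 0)⁻¹)⁻¹ = ((x 0 * x 1 * x 2)⁻¹)⁻¹ := by group
    rw [e]

/-- The orientation-reversing mapping class of the example. -/
def fex : MulAut F3 := half * half * half * refl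

lemma fex_geometric : Geometric (-1) fex := by
  have h := ((half_geometric.mul half_geometric).mul half_geometric).mul refl_geometric
  simpa [fex] using h

lemma lin_half : lin half = !![1, 1; 0, 1] := by
  unfold lin
  rw [half_x0, half_x1, half_x2]
  ext i j
  fin_cases i <;> fin_cases j <;> simp

lemma lin_refl : lin refl = !![0, -1; -1, 0] := by
  unfold lin
  rw [refl_x0, refl_x1, refl_x2]
  ext i j
  fin_cases i <;> fin_cases j <;> simp

lemma lin_fex : lin fex = F := by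
  have h1 := half_geometric.parPres
  have h2 := refl_geometric.parPres
  rw [fex, lin_mul ((h1.mul h1).mul h1) h2, lin_mul (h1.mul h1) h1, lin_mul h1 h1, lin_half,
    lin_refl]
  ext i j
  fin_cases i <;> fin_cases j <;> simp [F, Matrix.mul_apply, Fin.sum_univ_two]

/-- The linear parts of two automorphisms with the same outer class agree up to sign. -/
lemma lin_out {φ ψ : MulAut F3} (h : ParPres φ) (he : (φ : OutF3) = (ψ : OutF3)) :
    lin ψ = lin φ ∨ lin ψ = -lin φ := by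
  rw [QuotientGroup.eq] at he
  obtain ⟨g, hg⟩ := he
  have hψ : ψ = φ * MulAut.conj g := by rw [hg]; group
  rw [hψ, lin_mul h (ParPres.conj g)]
  rcases lin_conj g with h | h
  · left; rw [h, Matrix.mul_one]
  · right; rw [h, Matrix.mul_neg, Matrix.mul_one]

lemma parallel_of_commute {a c a' c' : ℤ}
    (h : T a c * T a' c' = T a' c' * T a c ∨ T a c * T a' c' = -(T a' c' * T a c)) :
    a * c' - a' * c = 0 := by
  rcases h with h | h
  · have h01 := congrFun (congrFun h 0) 1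
    have h00 := congrFun (congrFun h 0) 0
    simp [T, nil, Matrix.mul_apply, Fin.sum_univ_two] at h01 h00
    have e1 : (a * a') * (a * c' - a' * c) = 0 := by linarith
    have e2 : (a * c' - a' * c) * (a * c' + a' * c) = 0 := by linarith
    rcases mul_eq_zero.1 e1 with h1 | h1
    · rcases mul_eq_zero.1 e2 with h2 | h2
      · exact h2
      · rcases mul_eq_zero.1 h1 with h3 | h3
        · subst h3; linarith
        · subst h3; linarith
    · exact h1
  · exfalso
    have ht := congrArg Matrix.trace h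
    rw [Matrix.trace_neg, Matrix.trace_mul_comm (T a' c')] at ht
    have h0 : (T a c * T a' c').trace = 0 := by linarith
    simp [T, nil, Matrix.trace, Matrix.mul_apply, Fin.sum_univ_two] at h0
    have : 2 * (a * c' - a' * c) ^ 2 = 1 := by linarith
    omega

lemma T_eq_of_parallel {a b c d a' b' c' d' : ℤ} (h : a * d - b * c = 1)
    (h' : a' * d' - b' * c' = 1) (hp : a * c' - a' * c = 0) : T a' c' = T a c := by
  have e1 : a' = (a' * d - c' * b) * a := by linear_combination (-a') * h + b * hp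
  have e2 : c' = (a' * d - c' * b) * c := by linear_combination (-c') * h + d * hp
  have e3 : a = (a * d' - c * b') * a' := by linear_combination (-a) * h' - b' * hp
  have e4 : c = (a * d' - c * b') * c' := by linear_combination (-c) * h' - d' * hp
  have e5 : (a' * d - c' * b) * (a * d' - c * b') = 1 := by
    have : (a' * d - c' * b) * (a * d' - c * b') =
        ((a' * d - c' * b) * a) * d' - b' * ((a' * d - c' * b) * c) := by ring
    rw [this, ← e1, ← e2]; exact h'
  rcases Int.eq_one_or_neg_one_of_mul_eq_one e5 with hl | hl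
  · rw [hl] at e1 e2
    rw [e1, e2]; simp
  · rw [hl] at e1 e2
    rw [e1, e2]; simp [T, nil]

/-- All twists about the components of a multicurve have the same linear part. -/
lemma multicurve_rep {A : Set OutF3} (hA : IsMulticurve A) :
    ∃ a c : ℤ, ∀ t ∈ A, ∃ τ : MulAut F3, ParPres τ ∧ (τ : OutF3) = t ∧ lin τ = T a c := by
  rcases A.eq_empty_or_nonempty with rfl | ⟨t0, ht0⟩
  · exact ⟨0, 0, by simp⟩
  · obtain ⟨φ0, hφ0, e0⟩ := hA.1 t0 ht0
    obtain ⟨hp0, hl0⟩ := lin_twist hφ0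
    refine ⟨lin φ0 0 0, lin φ0 1 0, fun t ht => ?_⟩
    obtain ⟨φ, hφ, e⟩ := hA.1 t ht
    obtain ⟨hp, hl⟩ := lin_twist hφ
    refine ⟨φ * twist0 * φ⁻¹, hp, e.symm, ?_⟩
    rw [hl]
    have hc := hA.2 t0 ht0 t ht
    have hc' : (((φ * twist0 * φ⁻¹) * (φ0 * twist0 * φ0⁻¹) : MulAut F3) : OutF3) =
        (((φ0 * twist0 * φ0⁻¹) * (φ * twist0 * φ⁻¹) : MulAut F3) : OutF3) := by
      rw [QuotientGroup.mk_mul, QuotientGroup.mk_mul _ (φ0 * twist0 * φ0⁻¹)
        (φ * twist0 * φ⁻¹), ← e, ← e0]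
      exact hc.eq.symm
    have h3 := lin_out (hp.mul hp0) hc'
    rw [lin_mul hp hp0, lin_mul hp0 hp, hl0, hl] at h3
    have hpar := parallel_of_commute h3
    have d0 := hφ0.det
    have d1 := hφ.det
    rw [Matrix.det_fin_two] at d0 d1
    simp only [Units.val_one] at d0 d1
    exact T_eq_of_parallel d0 d1 hpar

lemma inv_rep {τ : MulAut F3} {b d : ℤ} (hp : ParPres τ) (h : lin τ = T b d) :
    lin τ⁻¹ = Tinv b d := by
  have h1 := (lin_inv hp).1
  rw [h] at h1
  have : Tinv b d * (T b d * lin τ⁻¹) = Tinv b d := by rw [h1, Matrix.mul_one]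
  rwa [← Matrix.mul_assoc, Tinv_mul_T, Matrix.one_mul] at this

/-- A product of twists from two multicurves is represented by a word in two matrices. -/
lemma prod_rep {A B : Set OutF3} (hA : IsMulticurve A) (hB : IsMulticurve B) :
    ∃ a c b d : ℤ, ∀ l : List OutF3, (∀ g ∈ l, g ∈ A ∨ g⁻¹ ∈ B) →
      ∃ ψ : MulAut F3, ParPres ψ ∧ (ψ : OutF3) = l.prod ∧
        ∃ m : List Bool, lin ψ = sword a c b d m := by
  obtain ⟨a, c, hac⟩ := multicurve_rep hA
  obtain ⟨b, d, hbd⟩ := multicurve_rep hB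
  refine ⟨a, c, b, d, fun l => ?_⟩
  induction l with
  | nil =>
    intro _
    exact ⟨1, ParPres.one, by simp, [], by simp [lin_one, sword]⟩
  | cons g l ih =>
    intro h
    obtain ⟨ψ, hψ, hψ', m, hm⟩ := ih (fun g' hg' => h g' (List.mem_cons_of_mem _ hg'))
    rcases h g List.mem_cons_self with hg | hg
    · obtain ⟨τ, h1, h2, h3⟩ := hac g hg
      refine ⟨τ * ψ, h1.mul hψ, ?_, true :: m, ?_⟩
      · rw [QuotientGroup.mk_mul, h2, hψ', List.prod_cons]
      · rw [lin_mul h1 hψ, h3, hm, sword_cons]; rfl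
    · obtain ⟨τ, h1, h2, h3⟩ := hbd g⁻¹ hg
      refine ⟨τ⁻¹ * ψ, h1.inv.mul hψ, ?_, false :: m, ?_⟩
      · rw [QuotientGroup.mk_mul, QuotientGroup.mk_inv, h2, inv_inv, hψ', List.prod_cons]
      · rw [lin_mul h1.inv hψ, inv_rep h1 h3, hm, sword_cons]; rfl

/-- No positive power of `fex` is a product of twists about a multicurve and inverse twists
about a multicurve. -/
theorem fex_not_prod {A B : Set OutF3} (hA : IsMulticurve A) (hB : IsMulticurve B) (k : ℕ)
    (hk : 1 ≤ k) (l : List OutF3) (hl : ∀ g ∈ l, g ∈ A ∨ g⁻¹ ∈ B) :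
    l.prod ≠ ((fex ^ k : MulAut F3) : OutF3) := by
  intro he
  obtain ⟨a, c, b, d, h⟩ := prod_rep hA hB
  obtain ⟨ψ, hψ, hψ', m, hm⟩ := h l hl
  have hpow := lin_pow fex_geometric.parPres k
  have h1 := lin_out hpow.1 (show ((fex ^ k : MulAut F3) : OutF3) = (ψ : OutF3) by
    rw [hψ', he])
  rw [hpow.2, lin_fex, hm] at h1
  have h2 := sword_ne a c b d m k hk
  rcases h1 with h1 | h1
  · exact h2.1 h1
  · exact h2.2 h1

theorem fex_not_penner (k : ℕ) (hk : 1 ≤ k) :
    ¬ ArisesFromPenner ((fex ^ k : MulAut F3) : OutF3) := by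
  rintro ⟨A, B, hA, hB, -, l, hl, -, -, he⟩
  exact fex_not_prod hA hB k hk l hl he

lemma G_pow_fix (k : ℕ) (hk : 1 ≤ k) (a c : ℤ)
    (h1 : (G ^ k) 0 0 * a + (G ^ k) 0 1 * c = a) (h2 : (G ^ k) 1 0 * a + (G ^ k) 1 1 * c = c) :
    a = 0 ∧ c = 0 := by
  have ht := G_pow_trace k hk
  have hd : (G ^ k).det = 1 := by
    rw [Matrix.det_pow]; simp [G, Matrix.det_fin_two]
  rw [Matrix.det_fin_two] at hd
  simp only [Matrix.trace, Fin.sum_univ_two, Matrix.diag_apply] at ht
  set p := (G ^ k) 0 0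
  set q := (G ^ k) 0 1
  set r := (G ^ k) 1 0
  set s := (G ^ k) 1 1
  have e1 : (2 - (p + s)) * a = 0 := by
    linear_combination (s - 1) * h1 - q * h2 - a * hd
  have e2 : (2 - (p + s)) * c = 0 := by
    linear_combination (p - 1) * h2 - r * h1 - c * hd
  have hne : 2 - (p + s) ≠ 0 := by omega
  exact ⟨(mul_eq_zero.1 e1).resolve_left hne, (mul_eq_zero.1 e2).resolve_left hne⟩

lemma F_pow_fix (k : ℕ) (hk : 1 ≤ k) (a c : ℤ)
    (h : ((F ^ k) 0 0 * a + (F ^ k) 0 1 * c = a ∧ (F ^ k) 1 0 * a + (F ^ k) 1 1 * c = c) ∨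
      ((F ^ k) 0 0 * a + (F ^ k) 0 1 * c = -a ∧ (F ^ k) 1 0 * a + (F ^ k) 1 1 * c = -c)) :
    a = 0 ∧ c = 0 := by
  have hG : G ^ k = F ^ k * F ^ k := by rw [← F_sq, ← pow_mul, ← pow_add, two_mul]
  have e00 : (G ^ k) 0 0 = (F ^ k) 0 0 * (F ^ k) 0 0 + (F ^ k) 0 1 * (F ^ k) 1 0 := by
    rw [hG, Matrix.mul_apply, Fin.sum_univ_two]
  have e01 : (G ^ k) 0 1 = (F ^ k) 0 0 * (F ^ k) 0 1 + (F ^ k) 0 1 * (F ^ k) 1 1 := by
    rw [hG, Matrix.mul_apply, Fin.sum_univ_two]
  have e10 : (G ^ k) 1 0 = (F ^ k) 1 0 * (F ^ k) 0 0 + (F ^ k) 1 1 * (F ^ k) 1 0 := by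
    rw [hG, Matrix.mul_apply, Fin.sum_univ_two]
  have e11 : (G ^ k) 1 1 = (F ^ k) 1 0 * (F ^ k) 0 1 + (F ^ k) 1 1 * (F ^ k) 1 1 := by
    rw [hG, Matrix.mul_apply, Fin.sum_univ_two]
  apply G_pow_fix k hk a c
  · rw [e00, e01]
    rcases h with ⟨h1, h2⟩ | ⟨h1, h2⟩
    · linear_combination ((F ^ k) 0 0 + 1) * h1 + (F ^ k) 0 1 * h2
    · linear_combination ((F ^ k) 0 0 - 1) * h1 + (F ^ k) 0 1 * h2
  · rw [e10, e11]
    rcases h with ⟨h1, h2⟩ | ⟨h1, h2⟩
    · linear_combination (F ^ k) 1 0 * h1 + ((F ^ k) 1 1 + 1) * h2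
    · linear_combination (F ^ k) 1 0 * h1 + ((F ^ k) 1 1 - 1) * h2

/-- Translation part of an even element under conjugation. -/
lemma conj_even (h g : E) (hg : g.e = 1) :
    (h * g * h⁻¹).b1 = h.e * g.b1 ∧ (h * g * h⁻¹).b2 = h.e * g.b2 := by
  have := E.usq h.e
  constructor
  · simp [hg]
    linear_combination (-h.b1) * this
  · simp [hg]
    linear_combination (-h.b2) * this

theorem fex_pseudoAnosov : IsPseudoAnosov fex := by
  intro k hk φ hφ
  have hp := hφ.parPres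
  have hd := hφ.det
  rw [Matrix.det_fin_two] at hd
  simp only [Units.val_one] at hd
  have hpow := lin_pow fex_geometric.parPres k
  rw [lin_fex] at hpow
  have hu : (Pi (φ curve0)).e = 1 := by rw [hp]; simp [curve0]
  have hb := lin_aff hp curve0
  have hc1 : (Pi curve0).b1 = -1 := by simp [curve0]
  have hc2 : (Pi curve0).b2 = 0 := by simp [curve0]
  have hc3 : (Pi curve0).e = 1 := by simp [curve0]
  rw [hc1, hc2, hc3] at hb
  have hb1 : (Pi (φ curve0)).b1 = -(lin φ 0 0) := by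
    have := hb.1; push_cast at this; linarith
  have hb2 : (Pi (φ curve0)).b2 = -(lin φ 1 0) := by
    have := hb.2; push_cast at this; linarith
  have hv := lin_aff hpow.1 (φ curve0)
  rw [hpow.2, hu, hb1, hb2] at hv
  have hv1 : (Pi ((fex ^ k) (φ curve0))).b1 =
      (F ^ k) 0 0 * -(lin φ 0 0) + (F ^ k) 0 1 * -(lin φ 1 0) := by
    have := hv.1; push_cast at this; linarith
  have hv2 : (Pi ((fex ^ k) (φ curve0))).b2 =
      (F ^ k) 1 0 * -(lin φ 0 0) + (F ^ k) 1 1 * -(lin φ 1 0) := by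
    have := hv.2; push_cast at this; linarith
  -- both alternatives are impossible
  have main : ¬ (((F ^ k) 0 0 * -(lin φ 0 0) + (F ^ k) 0 1 * -(lin φ 1 0) = -(lin φ 0 0) ∧
        (F ^ k) 1 0 * -(lin φ 0 0) + (F ^ k) 1 1 * -(lin φ 1 0) = -(lin φ 1 0)) ∨
      ((F ^ k) 0 0 * -(lin φ 0 0) + (F ^ k) 0 1 * -(lin φ 1 0) = - -(lin φ 0 0) ∧
        (F ^ k) 1 0 * -(lin φ 0 0) + (F ^ k) 1 1 * -(lin φ 1 0) = - -(lin φ 1 0))) := by
    intro h
    obtain ⟨h1, h2⟩ := F_pow_fix k hk _ _ h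
    have h1' : lin φ 0 0 = 0 := by linarith
    have h2' : lin φ 1 0 = 0 := by linarith
    rw [h1', h2'] at hd
    simp at hd
  constructor
  · intro hconj
    obtain ⟨c, hc⟩ := isConj_iff.1 hconj.symm
    have hcb := conj_even (Pi c) (Pi (φ curve0)) hu
    rw [← map_inv, ← map_mul, ← map_mul, hc, hb1, hb2, hv1, hv2] at hcb
    rcases Int.units_eq_one_or (Pi c).e with he | he
    · rw [he] at hcb
      apply main; left
      simpa using hcb
    · rw [he] at hcb
      apply main; right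
      simpa using hcb
  · intro hconj
    obtain ⟨c, hc⟩ := isConj_iff.1 hconj.symm
    have hu' : (Pi (φ curve0)⁻¹).e = 1 := by simp [hu]
    have hcb := conj_even (Pi c) (Pi (φ curve0)⁻¹) hu'
    have hi1 : (Pi (φ curve0)⁻¹).b1 = lin φ 0 0 := by simp [hu, hb1]
    have hi2 : (Pi (φ curve0)⁻¹).b2 = lin φ 1 0 := by simp [hu, hb2]
    have hE : Pi c * Pi (φ curve0)⁻¹ * (Pi c)⁻¹ = Pi ((fex ^ k) (φ curve0)) := by
      rw [← hc, map_mul Pi, map_mul Pi, map_inv Pi c]
    rw [hE, hi1, hi2, hv1, hv2] at hcb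
    rcases Int.units_eq_one_or (Pi c).e with he | he
    · rw [he] at hcb
      apply main; right
      simpa using hcb
    · rw [he] at hcb
      apply main; left
      simpa using hcb

/-- The main theorem. -/
theorem main : ∃ f : MulAut F3, Geometric (-1) f ∧ IsPseudoAnosov f ∧
    ∀ k : ℕ, 1 ≤ k → ¬ ArisesFromPenner ((f ^ k : MulAut F3) : OutF3) :=
  ⟨fex, fex_geometric, fex_pseudoAnosov, fex_not_penner⟩

end Pool.Agent.KS6_96.Pen
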