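import Pool.Agent.KS6_96.Pen.Blocks

/-!
# The words of Penner products
-/

set_option autoImplicit false

namespace Pool.Agent.KS6_96.Pen

open Matrix

/-- The group `SL(2, ℤ)`. -/
abbrev SL : Type := Matrix.SpecialLinearGroup (Fin 2) ℤ

/-- The matrix `L`. -/
def La : SL := ⟨!![1, 1; 0, 1], by simp [Matrix.det_fin_two]⟩

/-- The matrix `R`. -/
def Rb : SL := ⟨!![1, 0; 1, 1], by simp [Matrix.det_fin_two]⟩

lemma coe_La : (La : Matrix (Fin 2) (Fin 2) ℤ) = !![1, 1; 0, 1] := rfl
lemma coe_Rb : (Rb : Matrix (Fin 2) (Fin 2) ℤ) = !![1, 0; 1, 1] := rfl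

lemma coe_ev (l : List Bool) : ((ev La Rb l : SL) : Matrix (Fin 2) (Fin 2) ℤ) = LR l := by
  induction l with
  | nil => simp
  | cons c l ih =>
    cases c
    · rw [ev_false, Matrix.SpecialLinearGroup.coe_mul, ih, LR_cons]; rfl
    · rw [ev_true, Matrix.SpecialLinearGroup.coe_mul, ih, LR_cons]; rfl

lemma coe_La_inv : ((La⁻¹ : SL) : Matrix (Fin 2) (Fin 2) ℤ) = !![1, -1; 0, 1] := by
  rw [Matrix.SpecialLinearGroup.coe_inv, coe_La, Matrix.adjugate_fin_two_of]
  simp

lemma coe_Rb_inv : ((Rb⁻¹ : SL) : Matrix (Fin 2) (Fin 2) ℤ) = !![1, 0; -1, 1] := by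
  rw [Matrix.SpecialLinearGroup.coe_inv, coe_Rb, Matrix.adjugate_fin_two_of]
  simp

lemma braid_SL : La * Rb⁻¹ * La = Rb⁻¹ * La * Rb⁻¹ := by
  apply Subtype.ext
  simp only [Matrix.SpecialLinearGroup.coe_mul, coe_La, coe_Rb_inv]
  ext i j
  fin_cases i <;> fin_cases j <;> simp [Matrix.mul_apply, Fin.sum_univ_two]

/-- The twist matrix as an element of the group. -/
def TS (a c : ℤ) : SL := ⟨T a c, det_T a c⟩

lemma coe_TS (a c : ℤ) : (TS a c : Matrix (Fin 2) (Fin 2) ℤ) = T a c := rfl

lemma TS_inv (a c : ℤ) : (TS a c)⁻¹ = ⟨Tinv a c, det_Tinv a c⟩ := by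
  apply inv_eq_of_mul_eq_one_right
  apply Subtype.ext
  exact T_mul_Tinv a c

lemma sword_eq (a c b d : ℤ) (l : List Bool) :
    sword a c b d l = ((ev (TS a c) (TS b d)⁻¹ l : SL) : Matrix (Fin 2) (Fin 2) ℤ) := by
  induction l with
  | nil => simp [sword]
  | cons z l ih =>
    rw [sword_cons, ih]
    cases z
    · rw [ev_false, Matrix.SpecialLinearGroup.coe_mul, TS_inv]; rfl
    · rw [ev_true, Matrix.SpecialLinearGroup.coe_mul]; rfl

lemma TS_conj (H : SL) (a c : ℤ) :
    TS (H 0 0 * a + H 0 1 * c) (H 1 0 * a + H 1 1 * c) = H * TS a c * H⁻¹ := by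
  rw [eq_mul_inv_iff_mul_eq]
  apply Subtype.ext
  rw [Matrix.SpecialLinearGroup.coe_mul, Matrix.SpecialLinearGroup.coe_mul, coe_TS, coe_TS]
  have hd : H 0 0 * H 1 1 - H 0 1 * H 1 0 = 1 := by
    rw [← Matrix.det_fin_two]; exact H.2
  have hH : (H : Matrix (Fin 2) (Fin 2) ℤ) = !![H 0 0, H 0 1; H 1 0, H 1 1] := by
    ext i j
    fin_cases i <;> fin_cases j <;> rfl
  rw [hH]
  generalize H 0 0 = p at *
  generalize H 0 1 = q at *
  generalize H 1 0 = r at *
  generalize H 1 1 = s at *
  ext i j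
  fin_cases i <;> fin_cases j <;>
    simp [T, nil, Matrix.mul_apply, Fin.sum_univ_two]
  · linear_combination (-2 * c * (p * a + q * c)) * hd
  · linear_combination (2 * a * (p * a + q * c)) * hd
  · linear_combination (-2 * c * (r * a + s * c)) * hd
  · linear_combination (2 * a * (r * a + s * c)) * hd

lemma TS_10 : TS 1 0 = La ^ 2 := by
  apply Subtype.ext
  rw [Matrix.SpecialLinearGroup.coe_pow, coe_TS, coe_La]
  ext i j
  fin_cases i <;> fin_cases j <;> simp [T, nil, pow_two, Matrix.mul_apply, Fin.sum_univ_two]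

lemma TS_01 : (TS 0 1)⁻¹ = Rb ^ 2 := by
  rw [TS_inv]
  apply Subtype.ext
  rw [Matrix.SpecialLinearGroup.coe_pow, coe_Rb]
  ext i j
  fin_cases i <;> fin_cases j <;> simp [Tinv, nil, pow_two, Matrix.mul_apply, Fin.sum_univ_two]

lemma ev_conj {G : Type*} [Group G] (h a b : G) (l : List Bool) :
    ev (h * a * h⁻¹) (h * b * h⁻¹) l = h * ev a b l * h⁻¹ := by
  induction l with
  | nil => simp
  | cons c l ih =>
    cases c
    · rw [ev_false, ev_false, ih]; group
    · rw [ev_true, ev_true, ih]; group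

lemma mem_dbl {c : Bool} {l : List Bool} (h : c ∈ l) : c ∈ dbl l := by
  unfold dbl
  exact List.mem_flatMap.2 ⟨c, h, by simp⟩

lemma mem_blk (m : List Bool) (p : ℕ × ℕ) (c : Bool) : c ∈ blk m p := by
  unfold blk
  cases c <;> simp

/-- The coefficients of the second column of the conjugating matrix. -/
lemma conjElt_col (m : List Bool) :
    (conjElt La Rb m) 0 1 = -(LR m 1 0 + LR m 1 1) ∧
    (conjElt La Rb m) 1 1 = (LR m 0 0 + LR m 0 1) + (LR m 1 0 + LR m 1 1) := by
  have e : ((conjElt La Rb m : SL) : Matrix (Fin 2) (Fin 2) ℤ) =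
      !![1, -1; 0, 1] * !![1, 0; 1, 1] * LR m * !![1, 1; 0, 1] := by
    unfold conjElt
    rw [Matrix.SpecialLinearGroup.coe_mul, Matrix.SpecialLinearGroup.coe_mul,
      Matrix.SpecialLinearGroup.coe_mul, coe_ev, coe_La_inv, coe_La, coe_Rb]
  have hM : LR m = !![LR m 0 0, LR m 0 1; LR m 1 0, LR m 1 1] := by
    ext i j
    fin_cases i <;> fin_cases j <;> rfl
  rw [e]
  generalize LR m 0 0 = p at *
  generalize LR m 0 1 = q at *
  generalize LR m 1 0 = r at *
  generalize LR m 1 1 = s at *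
  rw [hM]
  constructor
  · simp [Matrix.mul_apply, Fin.sum_univ_two]; ring
  · simp [Matrix.mul_apply, Fin.sum_univ_two]; ring

/-- A word whose matrix is conjugate to a product of twists is a Penner word. -/
theorem penner_of_ev {a c b d : ℤ} (hac : IsCoprime a c) (hbd : IsCoprime b d)
    {l w : List Bool} (ht : true ∈ l) (hf : false ∈ l) (hn : 0 < a * d - c * b)
    (wt : true ∈ w) (wf : false ∈ w) {g : SL}
    (h : ev (TS a c) (TS b d)⁻¹ l * g = g * ev La Rb w) : PennerWord w := by
  -- the final step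
  have fin : ∀ (W : List Bool) (k : SL), true ∈ W → false ∈ W →
      ev (TS a c) (TS b d)⁻¹ l = k * ev La Rb W * k⁻¹ → w ~r W := by
    intro W k hW1 hW2 hk
    have e : k⁻¹ * g * ev La Rb w = ev La Rb W * (k⁻¹ * g) := by
      rw [mul_assoc, ← h, hk]; group
    have e' := congrArg (fun M : SL => (M : Matrix (Fin 2) (Fin 2) ℤ)) e
    simp only [Matrix.SpecialLinearGroup.coe_mul, coe_ev] at e'
    rw [← Matrix.SpecialLinearGroup.coe_mul] at e'
    exact rotated_of_conj wt wf hW1 hW2 (k⁻¹ * g).2 e'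
  obtain ⟨v, u, huv⟩ := hac
  set n := a * d - c * b with hndef
  rcases (show n = 1 ∨ 2 ≤ n by omega) with hn1 | hn2
  · left
    refine ⟨l, fin (dbl l) ⟨!![a, b; c, d], ?_⟩ (mem_dbl ht) (mem_dbl hf) ?_⟩
    · rw [Matrix.det_fin_two_of]; linarith
    · set H : SL := ⟨!![a, b; c, d], _⟩
      have e1 : TS a c = H * La ^ 2 * H⁻¹ := by
        rw [← TS_10, ← TS_conj]
        simp [H]
      have e2 : (TS b d)⁻¹ = H * Rb ^ 2 * H⁻¹ := by
        have : TS b d = H * TS 0 1 * H⁻¹ := by
          rw [← TS_conj]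
          simp [H]
        rw [this, ← TS_01]; group
      rw [e1, e2, ev_conj, ev_dbl]
  · right
    -- `a * v + c * u = 1`; put `u' = - u`
    set y1 := v * b + u * d with hy1
    have hb : b = a * y1 + (-u) * n := by
      rw [hy1, hndef]; linear_combination (-b) * huv
    have hd : d = c * y1 + v * n := by
      rw [hy1, hndef]; linear_combination (-d) * huv
    have hco : IsCoprime y1 n := by
      obtain ⟨s, t, hst⟩ := hbd
      refine ⟨s * a + t * c, s * (-u) + t * v, ?_⟩
      linear_combination hst - s * hb - t * hd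
    set a0 := y1 % n with ha0
    set k0 := y1 / n with hk0
    have hdiv : y1 = n * k0 + a0 := (Int.mul_ediv_add_emod y1 n).symm
    have ha1 : 0 ≤ a0 := Int.emod_nonneg _ (by omega)
    have ha2 : a0 < n := Int.emod_lt_of_pos _ (by omega)
    have hco0 : IsCoprime a0 n := by
      obtain ⟨s, t, hst⟩ := hco
      exact ⟨s, t + s * k0, by linear_combination hst - s * hdiv⟩
    have ha3 : a0 ≠ 0 := by
      intro h0
      rw [h0] at hco0
      have hu : IsUnit n := isCoprime_zero_left.1 hco0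
      rcases Int.isUnit_iff.1 hu with h | h <;> omega
    have hco1 : IsCoprime a0 (n - a0) := by
      obtain ⟨s, t, hst⟩ := hco0
      exact ⟨s + t, t, by rw [← hst]; ring⟩
    obtain ⟨m, hm1, hm2⟩ := stern_brocot n.toNat a0 (n - a0) (by omega) (by omega) hco1
      (by omega)
    obtain ⟨p, q, w', hpq, hqp⟩ := exists_rotation ht hf
    obtain ⟨ps, hps⟩ := compress w'.length w' le_rfl
    have hdet : (!![a, -u + (k0 + 1) * a; c, v + (k0 + 1) * c] : Matrix _ _ ℤ).det = 1 := by
      rw [Matrix.det_fin_two_of]; linear_combination huv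
    set H : SL := ⟨!![a, -u + (k0 + 1) * a; c, v + (k0 + 1) * c], hdet⟩ with hH
    have e1 : TS a c = H * La ^ 2 * H⁻¹ := by
      rw [← TS_10, ← TS_conj]
      simp [H]
    have hGm := conjElt_col m
    rw [hm1, hm2] at hGm
    have e3 : TS (a0 - n) n = conjElt La Rb m * TS 0 1 * (conjElt La Rb m)⁻¹ := by
      rw [← TS_conj, hGm.1, hGm.2]
      congr 1 <;> ring
    have e2 : (TS b d)⁻¹ = H * (conjElt La Rb m * Rb ^ 2 * (conjElt La Rb m)⁻¹) * H⁻¹ := by
      have : TS b d = H * TS (a0 - n) n * H⁻¹ := by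
        rw [← TS_conj]
        congr 1
        · simp only [H, Matrix.of_apply, Matrix.cons_val', Matrix.cons_val_zero,
            Matrix.cons_val_fin_one, Matrix.cons_val_one]
          linear_combination hb + a * hdiv
        · simp only [H, Matrix.of_apply, Matrix.cons_val', Matrix.cons_val_zero,
            Matrix.cons_val_fin_one, Matrix.cons_val_one]
          linear_combination hd + c * hdiv
      rw [this, e3, ← TS_01]; group
    set A := La ^ 2
    set B := conjElt La Rb m * Rb ^ 2 * (conjElt La Rb m)⁻¹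
    have e4 : ev (TS a c) (TS b d)⁻¹ l = H * ev A B l * H⁻¹ := by
      rw [e1, e2, ev_conj]
    have e5 : ev A B l = ev A B p * ev La Rb (ps.flatMap (blk m)) * (ev A B p)⁻¹ := by
      have e6 : ev La Rb (ps.flatMap (blk m)) = ev A B q * ev A B p := by
        rw [← ev_append, ev_blks braid_SL, ← hps, ← hqp]
      rw [e6, hpq, ev_append]; group
    have hne : ps ≠ [] := by
      rintro rfl
      simp at hps
    obtain ⟨p0, hp0⟩ := List.exists_mem_of_ne_nil _ hne
    refine ⟨m, ps, fin _ (H * ev A B p) ?_ ?_ ?_⟩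
    · exact List.mem_flatMap.2 ⟨p0, hp0, mem_blk m p0 true⟩
    · exact List.mem_flatMap.2 ⟨p0, hp0, mem_blk m p0 false⟩
    · rw [e4, e5]; group

/-- The trace of a conjugate. -/
lemma LR_trace {w : List Bool} (wt : true ∈ w) (wf : false ∈ w) : 3 ≤ (LR w).trace := by
  have h1 := LR_pos01 wt
  have h2 := LR_pos10 wf
  obtain ⟨h3, h4, -, -⟩ := LR_nonneg w
  have h5 := det_LR' w
  rw [Matrix.trace_fin_two]
  have : 1 ≤ LR w 0 1 * LR w 1 0 := by nlinarith
  have h6 : 2 ≤ LR w 0 0 * LR w 1 1 := by linarith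
  by_contra hcon
  push Not at hcon
  have : LR w 0 0 = 1 := by omega
  have h8 : LR w 1 1 = 1 := by omega
  rw [this, h8] at h6
  omega

/-- The necessary condition: the word of a class some power of which is a product of twists and
inverse twists. -/
theorem penner_of_sword {a c b d : ℤ} (hac : IsCoprime a c) (hbd : IsCoprime b d)
    {l w : List Bool} (wt : true ∈ w) (wf : false ∈ w) {g : SL}
    (h : sword a c b d l * (g : Matrix (Fin 2) (Fin 2) ℤ) =
      (g : Matrix (Fin 2) (Fin 2) ℤ) * LR w) : PennerWord w := by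
  have htr : (sword a c b d l).trace = (LR w).trace := by
    have e : sword a c b d l = (g : Matrix (Fin 2) (Fin 2) ℤ) * LR w *
        ((g⁻¹ : SL) : Matrix (Fin 2) (Fin 2) ℤ) := by
      rw [← h, Matrix.mul_assoc, ← Matrix.SpecialLinearGroup.coe_mul, mul_inv_cancel]
      simp
    rw [e, Matrix.trace_mul_comm, ← Matrix.mul_assoc, ← Matrix.SpecialLinearGroup.coe_mul,
      inv_mul_cancel]
    simp
  have h3 := LR_trace wt wf
  rw [← htr] at h3
  have hn : a * d - c * b ≠ 0 := by
    intro h0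
    rw [trace_par a c b d h0] at h3
    omega
  have ht : true ∈ l := by
    by_contra hcon
    rw [trace_single a c b d false l (fun z hz => by
      cases z
      · rfl
      · exact absurd hz hcon)] at h3
    omega
  have hf : false ∈ l := by
    by_contra hcon
    rw [trace_single a c b d true l (fun z hz => by
      cases z
      · exact absurd hz hcon
      · rfl)] at h3
    omega
  have main : ∀ b d : ℤ, IsCoprime b d → 0 < a * d - c * b →
      sword a c b d l * (g : Matrix (Fin 2) (Fin 2) ℤ) =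
      (g : Matrix (Fin 2) (Fin 2) ℤ) * LR w → PennerWord w := by
    intro b d hbd hn h
    refine penner_of_ev hac hbd ht hf hn wt wf (g := g) ?_
    apply Subtype.ext
    rw [Matrix.SpecialLinearGroup.coe_mul, Matrix.SpecialLinearGroup.coe_mul, coe_ev, ← sword_eq]
    exact h
  rcases lt_or_gt_of_ne hn with h0 | h0
  · refine main (-b) (-d) (hbd.neg_neg) (by linarith) ?_
    rw [sword_neg]; exact h
  · exact main b d hbd h0 h

end Pool.Agent.KS6_96.Pen
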