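import Pool.Agent.KS6_96.Pen.Comb

/-!
# The classes of the words `L ^ t`
-/

set_option autoImplicit false

namespace Pool.Agent.KS6_96.Pen

/-- The code of the class of `L ^ t`. -/
lemma code_pow (t : ℕ) : List.replicate t true ++ swp (List.replicate t true) =
    List.replicate t true ++ List.replicate t false := by
  simp [swp]

lemma cyc_pow {t : ℕ} (ht : 1 ≤ t) (i : ℕ) :
    cyc (List.replicate t true ++ List.replicate t false) i = decide (i % (2 * t) < t) := by
  unfold cyc
  have hl : (List.replicate t true ++ List.replicate t false).length = 2 * t := by simp; ring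
  rw [hl]
  have hlt : i % (2 * t) < 2 * t := Nat.mod_lt _ (by omega)
  rcases lt_or_ge (i % (2 * t)) t with h | h
  · rw [List.getD_append _ _ _ _ (by simpa using h), List.getD_eq_getElem _ _ (by simpa using h),
      List.getElem_replicate]
    simp [h]
  · rw [List.getD_append_right _ _ _ _ (by simpa using h)]
    rw [List.getD_eq_getElem _ _ (by simp; omega), List.getElem_replicate]
    simp [h]

lemma not_isolated_pow {t : ℕ} (ht : 2 ≤ t) :
    ¬ HasIsolated (List.replicate t true ++ List.replicate t false) := by
  rintro ⟨i, h1, h2⟩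
  rw [cyc_pow (by omega), cyc_pow (by omega)] at h1 h2
  have hr : i % (2 * t) < 2 * t := Nat.mod_lt _ (by omega)
  have e1 : (i + 1) % (2 * t) = (i % (2 * t) + 1) % (2 * t) := by
    rw [Nat.add_mod, Nat.mod_eq_of_lt (show 1 < 2 * t by omega)]
  have e2 : (i + 2) % (2 * t) = (i % (2 * t) + 2) % (2 * t) := by
    rw [Nat.add_mod, Nat.mod_eq_of_lt (show 2 < 2 * t by omega)]
  rw [e1] at h2
  rw [e2] at h1
  set r := i % (2 * t)
  apply h2
  rcases lt_or_ge (r + 2) (2 * t) with h | h
  · rw [Nat.mod_eq_of_lt h] at h1
    rw [Nat.mod_eq_of_lt (by omega)]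
    rw [decide_eq_decide] at h1 ⊢
    omega
  · rcases lt_or_ge (r + 1) (2 * t) with h' | h'
    · rw [Nat.mod_eq_of_lt h']
      have : r + 2 = 2 * t := by omega
      rw [this, Nat.mod_self] at h1
      rw [decide_eq_decide] at h1 ⊢
      omega
    · have e3 : r + 1 = 2 * t := by omega
      have e4 : (r + 2) % (2 * t) = 1 := by
        rw [show r + 2 = 1 + 2 * t by omega, Nat.add_mod_right, Nat.mod_eq_of_lt (by omega)]
      rw [e4] at h1
      rw [e3, Nat.mod_self]
      rw [decide_eq_decide] at h1 ⊢
      omega

lemma count_dbl (l : List Bool) : (dbl l).count true = 2 * l.count true := by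
  induction l with
  | nil => rfl
  | cons c l ih =>
    have : dbl (c :: l) = c :: c :: dbl l := rfl
    rw [this]
    cases c <;> simp [ih]
    ring

lemma dbl_replicate (s : ℕ) (b : Bool) : dbl (List.replicate s b) = List.replicate (2 * s) b := by
  induction s with
  | zero => rfl
  | succ s ih =>
    have : dbl (List.replicate (s + 1) b) = b :: b :: dbl (List.replicate s b) := rfl
    rw [this, ih, show 2 * (s + 1) = (2 * s + 1) + 1 by ring, List.replicate_succ,
      List.replicate_succ]

lemma dbl_append (l m : List Bool) : dbl (l ++ m) = dbl l ++ dbl m := by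
  simp [dbl]

/-- The criterion for the words `L ^ t R ^ t`. -/
theorem pow_criterion {t : ℕ} (ht : 1 ≤ t) :
    (∃ j, 1 ≤ j ∧ PennerWord (rep j (List.replicate t true ++ List.replicate t false))) ↔
      t = 1 ∨ Even t := by
  have ct : true ∈ List.replicate t true ++ List.replicate t false :=
    List.mem_append_left _ (List.mem_replicate.2 ⟨by omega, rfl⟩)
  have cf : false ∈ List.replicate t true ++ List.replicate t false :=
    List.mem_append_right _ (List.mem_replicate.2 ⟨by omega, rfl⟩)
  rcases (show t = 1 ∨ 2 ≤ t by omega) with rfl | h2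
  · refine ⟨fun _ => Or.inl rfl, fun _ => ⟨3, by norm_num, Or.inr ⟨[], [(0, 0)], ?_⟩⟩⟩
    have : rep 3 (List.replicate 1 true ++ List.replicate 1 false) =
        [((0 : ℕ), (0 : ℕ))].flatMap (blk []) := by decide
    rw [this]
  · rw [criterion_of_not_isolated ct cf (not_isolated_pow h2)]
    constructor
    · rintro ⟨l, hl⟩
      right
      have h1 := hl.perm.count_eq true
      rw [count_dbl] at h1
      have h3 : (List.replicate t true ++ List.replicate t false).count true = t := by
        simp [List.count_replicate]
      rw [h3] at h1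
      exact ⟨l.count true, by omega⟩
    · rintro (rfl | ⟨s, hs⟩)
      · omega
      · refine ⟨List.replicate s true ++ List.replicate s false, ?_⟩
        rw [dbl_append, dbl_replicate, dbl_replicate, ← two_mul] at *
        rw [hs]

end Pool.Agent.KS6_96.Pen
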