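import Pool.Agent.KS6_96.Pen.Suff

/-!
# Reduction of matrices, codes of pseudo-Anosov classes
-/

set_option autoImplicit false

namespace Pool.Agent.KS6_96.Pen

open Matrix

/-! ### Reduction of a matrix of determinant `± 1` -/

/-- A matrix of determinant `δ = ± 1` and trace `t > 0`, with `t ≥ 3` if `δ = 1`, is conjugate in
`SL(2, ℤ)` to a matrix with entries `≥ 0` and positive off-diagonal entries. -/
lemma reduce_mat (δ t : ℤ) (hδ : (δ = 1 ∧ 3 ≤ t) ∨ (δ = -1 ∧ 1 ≤ t)) (n : ℕ) :
    ∀ a b c d : ℤ, a * d - b * c = δ → a + d = t → |c| ≤ n →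
    ∃ (g : SL) (a' b' c' d' : ℤ), 0 ≤ a' ∧ 1 ≤ b' ∧ 1 ≤ c' ∧ 0 ≤ d' ∧
      !![a, b; c, d] * (g : Matrix (Fin 2) (Fin 2) ℤ) =
        (g : Matrix (Fin 2) (Fin 2) ℤ) * !![a', b'; c', d'] := by
  induction n with
  | zero =>
    intro a b c d hdet htr hc
    exfalso
    have : c = 0 := by
      rw [← abs_eq_zero]; have := abs_nonneg c; push_cast at hc; omega
    subst this
    have had : a * d = δ := by linarith
    rcases hδ with ⟨h1, h2⟩ | ⟨h1, h2⟩
    · rw [h1] at had
      rcases Int.eq_one_or_neg_one_of_mul_eq_one had with h | h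
      · subst h; omega
      · subst h; omega
    · rw [h1] at had
      rcases Int.eq_one_or_neg_one_of_mul_eq_neg_one had with h | h
      · subst h; omega
      · subst h; omega
  | succ n ih =>
    intro a b c d hdet htr hc
    by_cases hc0 : c = 0
    · exact ih a b c d hdet htr (by rw [hc0]; simp)
    -- the shear
    obtain ⟨s, hs⟩ : ∃ s : ℤ, |a - d + 2 * s * c| ≤ |c| := by
      have hcpos : 0 < |c| := abs_pos.2 hc0
      -- `r` is the symmetric remainder of `a - d` modulo `2 |c|`
      set q := (a - d + |c|) / (2 * |c|) with hq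
      set r := (a - d + |c|) % (2 * |c|) with hr
      have e := Int.mul_ediv_add_emod (a - d + |c|) (2 * |c|)
      rw [← hq, ← hr] at e
      have r1 : 0 ≤ r := Int.emod_nonneg _ (by omega)
      have r2 : r < 2 * |c| := Int.emod_lt_of_pos _ (by omega)
      rcases abs_choice c with h | h
      · refine ⟨-q, ?_⟩
        rw [abs_le]
        have e2 : a - d + 2 * (-q) * c = r - |c| := by
          rw [h] at e ⊢
          linarith
        rw [e2]; omega
      · refine ⟨q, ?_⟩
        rw [abs_le]
        have e2 : a - d + 2 * q * c = r - |c| := by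
          have : c = -|c| := by rw [h]; ring
          nth_rewrite 1 [this]
          linarith
        rw [e2]; omega
    set a1 := a + s * c with ha1
    set d1 := d - s * c with hd1
    set b1 := b + s * (d - a) - s * s * c with hb1
    have hs1 : |a1 - d1| ≤ |c| := by
      have : a1 - d1 = a - d + 2 * s * c := by rw [ha1, hd1]; ring
      rw [this]; exact hs
    have hdet1 : a1 * d1 - b1 * c = δ := by rw [ha1, hd1, hb1, ← hdet]; ring
    have htr1 : a1 + d1 = t := by rw [ha1, hd1, ← htr]; ring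
    -- conjugation by the shear
    set U : SL := ⟨!![1, -s; 0, 1], by simp [Matrix.det_fin_two]⟩ with hU
    have eU : !![a, b; c, d] * (U : Matrix (Fin 2) (Fin 2) ℤ) =
        (U : Matrix (Fin 2) (Fin 2) ℤ) * !![a1, b1; c, d1] := by
      rw [ha1, hb1, hd1]
      ext i j
      fin_cases i <;> fin_cases j <;> simp [hU, Matrix.mul_apply, Fin.sum_univ_two] <;> ring
    set V : SL := ⟨!![0, 1; -1, 0], by simp [Matrix.det_fin_two]⟩ with hV
    have eV : !![a1, b1; c, d1] * (V : Matrix (Fin 2) (Fin 2) ℤ) =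
        (V : Matrix (Fin 2) (Fin 2) ℤ) * !![d1, -c; -b1, a1] := by
      ext i j
      fin_cases i <;> fin_cases j <;> simp [hV, Matrix.mul_apply, Fin.sum_univ_two]
    have eUV : !![a, b; c, d] * ((U * V : SL) : Matrix (Fin 2) (Fin 2) ℤ) =
        ((U * V : SL) : Matrix (Fin 2) (Fin 2) ℤ) * !![d1, -c; -b1, a1] := by
      rw [Matrix.SpecialLinearGroup.coe_mul, ← Matrix.mul_assoc, eU, Matrix.mul_assoc, eV,
        Matrix.mul_assoc]
    rcases lt_or_ge 0 (b1 * c) with hbc | hbc
    · -- reduced
      have had : 0 ≤ a1 * d1 := by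
        rcases hδ with ⟨h1, h2⟩ | ⟨h1, h2⟩ <;> rw [h1] at hdet1 <;> linarith
      have hpos : 0 ≤ a1 ∧ 0 ≤ d1 := by
        have ht : 1 ≤ t := by omega
        constructor
        · by_contra hcon
          push Not at hcon
          have : 0 < d1 := by omega
          nlinarith
        · by_contra hcon
          push Not at hcon
          have : 0 < a1 := by omega
          nlinarith
      rcases lt_or_gt_of_ne hc0 with h | h
      · have hb : b1 < 0 := by
          by_contra hcon
          push Not at hcon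
          nlinarith
        exact ⟨U * V, d1, -c, -b1, a1, hpos.2, by omega, by omega, hpos.1, eUV⟩
      · have hb : 0 < b1 := by
          by_contra hcon
          push Not at hcon
          nlinarith
        exact ⟨U, a1, b1, c, d1, hpos.1, by omega, by omega, hpos.2, eU⟩
    · -- descent
      have hdisc : (a1 - d1) ^ 2 + 4 * (b1 * c) = t ^ 2 - 4 * δ := by
        rw [← htr1, ← hdet1]; ring
      have hD : 0 < t ^ 2 - 4 * δ := by
        rcases hδ with ⟨h1, h2⟩ | ⟨h1, h2⟩ <;> rw [h1] <;> nlinarith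
      have h1 : (a1 - d1) ^ 2 ≤ |c| ^ 2 := by
        rw [← sq_abs (a1 - d1)]
        exact pow_le_pow_left₀ (abs_nonneg _) hs1 2
      have h2 : 4 * (|b1| * |c|) < |c| ^ 2 := by
        rw [← abs_mul, abs_of_nonpos hbc]; linarith
      have hcpos : 0 < |c| := abs_pos.2 hc0
      have h3 : |b1| < |c| := by
        by_contra hcon
        push Not at hcon
        nlinarith
      obtain ⟨g, a', b', c', d', p1, p2, p3, p4, e⟩ := ih d1 (-c) (-b1) a1
        (by linear_combination hdet1) (by rw [← htr1]; ring)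
        (by rw [abs_neg]; push_cast at hc ⊢; omega)
      refine ⟨U * V * g, a', b', c', d', p1, p2, p3, p4, ?_⟩
      rw [Matrix.SpecialLinearGroup.coe_mul (U * V) g, ← Matrix.mul_assoc, eUV,
        Matrix.mul_assoc, e, Matrix.mul_assoc]

lemma LR01_zero {w : List Bool} (h : true ∉ w) : LR w 0 1 = 0 := by
  induction w with
  | nil => simp
  | cons c w ih =>
    cases c
    · have := ih (by simpa using h)
      rw [LR_cons_false]; simpa using this
    · simp at h

lemma LR10_zero {w : List Bool} (h : false ∉ w) : LR w 1 0 = 0 := by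
  induction w with
  | nil => simp
  | cons c w ih =>
    cases c
    · simp at h
    · have := ih (by simpa using h)
      rw [LR_cons_true]; simpa using this

/-- Reduction in determinant one. -/
lemma exists_word {M : Matrix (Fin 2) (Fin 2) ℤ} (hdet : M.det = 1) (htr : 3 ≤ M.trace) :
    ∃ (c : List Bool) (g : Matrix (Fin 2) (Fin 2) ℤ), true ∈ c ∧ false ∈ c ∧ g.det = 1 ∧
      M * g = g * LR c := by
  rw [Matrix.det_fin_two] at hdet
  rw [Matrix.trace_fin_two] at htr
  obtain ⟨g, a', b', c', d', p1, p2, p3, p4, e⟩ := reduce_mat 1 (M 0 0 + M 1 1)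
    (Or.inl ⟨rfl, htr⟩) (M 1 0).natAbs (M 0 0) (M 0 1) (M 1 0) (M 1 1) hdet rfl (by simp)
  have hM : M = !![M 0 0, M 0 1; M 1 0, M 1 1] := by
    ext i j
    fin_cases i <;> fin_cases j <;> rfl
  rw [← hM] at e
  have hd : a' * d' - b' * c' = 1 := by
    have := congrArg Matrix.det e
    rw [Matrix.det_mul, Matrix.det_mul, g.2, Matrix.det_fin_two M, hdet, one_mul, one_mul,
      Matrix.det_fin_two_of] at this
    exact this.symm
  obtain ⟨c, hc⟩ := LR_surj (a' + b' + c' + d').toNat a' b' c' d' p1 (by omega) (by omega) p4 hd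
    (by omega)
  refine ⟨c, g, ?_, ?_, g.2, by rw [hc]; exact e⟩
  · by_contra hcon
    have := LR01_zero hcon
    rw [hc] at this
    simp at this
    omega
  · by_contra hcon
    have := LR10_zero hcon
    rw [hc] at this
    simp at this
    omega

/-- The matrix exchanging the coordinates. -/
def Sw : Matrix (Fin 2) (Fin 2) ℤ := !![0, 1; 1, 0]

lemma Sw_sq : Sw * Sw = 1 := by
  ext i j
  fin_cases i <;> fin_cases j <;> simp [Sw, Matrix.mul_apply, Fin.sum_univ_two]

lemma Sw_LRl (c : Bool) : Sw * LRl c * Sw = LRl (!c) := by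
  cases c <;> ext i j <;> fin_cases i <;> fin_cases j <;>
    simp [Sw, LRl, Matrix.mul_apply, Fin.sum_univ_two]

lemma Sw_LR (w : List Bool) : Sw * LR w * Sw = LR (swp w) := by
  induction w with
  | nil => simp [swp, Sw_sq]
  | cons c w ih =>
    have : swp (c :: w) = (!c) :: swp w := rfl
    rw [this, LR_cons, LR_cons, ← ih, ← Sw_LRl]
    calc Sw * (LRl c * LR w) * Sw = Sw * LRl c * 1 * LR w * Sw := by
          simp only [Matrix.mul_assoc, Matrix.one_mul]
      _ = _ := by rw [← Sw_sq]; simp only [Matrix.mul_assoc]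

lemma mem_swp {c : Bool} {w : List Bool} : c ∈ swp w ↔ (!c) ∈ w := by
  unfold swp
  cases c <;> simp

lemma both_mem {w : List Bool} (hw : w ≠ []) : true ∈ w ++ swp w ∧ false ∈ w ++ swp w := by
  obtain ⟨c, hc⟩ := List.exists_mem_of_ne_nil _ hw
  rw [List.mem_append, List.mem_append, mem_swp, mem_swp]
  cases c
  · exact ⟨Or.inr hc, Or.inl hc⟩
  · exact ⟨Or.inl hc, Or.inr hc⟩

/-- Reduction in determinant minus one. -/
lemma exists_word_neg {M : Matrix (Fin 2) (Fin 2) ℤ} (hdet : M.det = -1) (htr : 1 ≤ M.trace) :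
    ∃ (w : List Bool) (g : Matrix (Fin 2) (Fin 2) ℤ), w ≠ [] ∧ g.det = 1 ∧
      M * g = g * (LR w * Sw) := by
  rw [Matrix.det_fin_two] at hdet
  have htr' := htr
  rw [Matrix.trace_fin_two] at htr
  obtain ⟨g, a', b', c', d', p1, p2, p3, p4, e⟩ := reduce_mat (-1) (M 0 0 + M 1 1)
    (Or.inr ⟨rfl, htr⟩) (M 1 0).natAbs (M 0 0) (M 0 1) (M 1 0) (M 1 1) hdet rfl (by simp)
  have hM : M = !![M 0 0, M 0 1; M 1 0, M 1 1] := by
    ext i j
    fin_cases i <;> fin_cases j <;> rfl
  rw [← hM] at e
  have hd : a' * d' - b' * c' = -1 := by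
    have := congrArg Matrix.det e
    rw [Matrix.det_mul, Matrix.det_mul, g.2, Matrix.det_fin_two M, hdet, one_mul, mul_one,
      Matrix.det_fin_two_of] at this
    exact this.symm
  obtain ⟨w, hw⟩ := LR_surj (b' + a' + d' + c').toNat b' a' d' c' (by omega) p1 p4 (by omega)
    (by linear_combination (-1) * hd) (by omega)
  have hS : !![a', b'; c', d'] = LR w * Sw := by
    rw [hw]
    ext i j
    fin_cases i <;> fin_cases j <;> simp [Sw, Matrix.mul_apply, Fin.sum_univ_two]
  refine ⟨w, g, ?_, g.2, by rw [← hS]; exact e⟩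
  rintro rfl
  -- the trace would be zero
  rw [LR_nil, Matrix.one_mul] at hS
  have h1 : a' = 0 := by
    have := congrFun (congrFun hS 0) 0
    simpa [Sw] using this
  have h2 : d' = 0 := by
    have := congrFun (congrFun hS 1) 1
    simpa [Sw] using this
  have e2 : M = (g : Matrix (Fin 2) (Fin 2) ℤ) * !![a', b'; c', d'] *
      ((g⁻¹ : SL) : Matrix (Fin 2) (Fin 2) ℤ) := by
    rw [← e, Matrix.mul_assoc, ← Matrix.SpecialLinearGroup.coe_mul, mul_inv_cancel]
    simp
  have e3 : M.trace = a' + d' := by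
    rw [e2, Matrix.trace_mul_comm, ← Matrix.mul_assoc, ← Matrix.SpecialLinearGroup.coe_mul,
      inv_mul_cancel]
    simp [Matrix.trace_fin_two]
  omega

/-! ### Codes and pseudo-Anosov classes -/

lemma LR_no_fix {w : List Bool} (wt : true ∈ w) (wf : false ∈ w) {a c : ℤ}
    (h1 : LR w 0 0 * a + LR w 0 1 * c = a) (h2 : LR w 1 0 * a + LR w 1 1 * c = c) :
    a = 0 ∧ c = 0 := by
  have htr := LR_trace wt wf
  have hd := det_LR' w
  rw [Matrix.trace_fin_two] at htr
  set p := LR w 0 0
  set q := LR w 0 1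
  set r := LR w 1 0
  set s := LR w 1 1
  have e1 : (2 - (p + s)) * a = 0 := by
    linear_combination (s - 1) * h1 - q * h2 - a * hd
  have e2 : (2 - (p + s)) * c = 0 := by
    linear_combination (p - 1) * h2 - r * h1 - c * hd
  have hne : 2 - (p + s) ≠ 0 := by omega
  exact ⟨(mul_eq_zero.1 e1).resolve_left hne, (mul_eq_zero.1 e2).resolve_left hne⟩

/-- A power of a class which preserves a curve preserves its slope. -/
lemma slope_of_conj {F φ : MulAut F3} (hF : ParPres F) (hφ : Geometric 1 φ)
    (h : IsConj (F (φ curve0)) (φ curve0) ∨ IsConj (F (φ curve0)) (φ curve0)⁻¹) :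
    (lin F 0 0 * lin φ 0 0 + lin F 0 1 * lin φ 1 0 = lin φ 0 0 ∧
      lin F 1 0 * lin φ 0 0 + lin F 1 1 * lin φ 1 0 = lin φ 1 0) ∨
    (lin F 0 0 * lin φ 0 0 + lin F 0 1 * lin φ 1 0 = -lin φ 0 0 ∧
      lin F 1 0 * lin φ 0 0 + lin F 1 1 * lin φ 1 0 = -lin φ 1 0) := by
  have hp := hφ.parPres
  have hu : (Pi (φ curve0)).e = 1 := by rw [hp]; simp [curve0]
  have hb := lin_aff hp curve0
  have hc1 : (Pi curve0).b1 = -1 := by simp [curve0]
  have hc2 : (Pi curve0).b2 = 0 := by simp [curve0]
  have hc3 : (Pi curve0).e = 1 := by simp [curve0]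
  rw [hc1, hc2, hc3] at hb
  have hb1 : (Pi (φ curve0)).b1 = -(lin φ 0 0) := by
    have := hb.1; push_cast at this; linarith
  have hb2 : (Pi (φ curve0)).b2 = -(lin φ 1 0) := by
    have := hb.2; push_cast at this; linarith
  have hv := lin_aff hF (φ curve0)
  rw [hu, hb1, hb2] at hv
  have hv1 : (Pi (F (φ curve0))).b1 =
      lin F 0 0 * -(lin φ 0 0) + lin F 0 1 * -(lin φ 1 0) := by
    have := hv.1; push_cast at this; linarith
  have hv2 : (Pi (F (φ curve0))).b2 =
      lin F 1 0 * -(lin φ 0 0) + lin F 1 1 * -(lin φ 1 0) := by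
    have := hv.2; push_cast at this; linarith
  rcases h with hconj | hconj
  · obtain ⟨c, hc⟩ := isConj_iff.1 hconj.symm
    have hcb := conj_even (Pi c) (Pi (φ curve0)) hu
    rw [← map_inv, ← map_mul, ← map_mul, hc, hb1, hb2, hv1, hv2] at hcb
    rcases Int.units_eq_one_or (Pi c).e with he | he
    · rw [he] at hcb
      left
      push_cast at hcb
      constructor <;> linarith [hcb.1, hcb.2]
    · rw [he] at hcb
      right
      push_cast at hcb
      constructor <;> linarith [hcb.1, hcb.2]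
  · obtain ⟨c, hc⟩ := isConj_iff.1 hconj.symm
    have hu' : (Pi (φ curve0)⁻¹).e = 1 := by simp [hu]
    have hcb := conj_even (Pi c) (Pi (φ curve0)⁻¹) hu'
    have hi1 : (Pi (φ curve0)⁻¹).b1 = lin φ 0 0 := by simp [hu, hb1]
    have hi2 : (Pi (φ curve0)⁻¹).b2 = lin φ 1 0 := by simp [hu, hb2]
    have hE : Pi c * Pi (φ curve0)⁻¹ * (Pi c)⁻¹ = Pi (F (φ curve0)) := by
      rw [← hc, map_mul Pi, map_mul Pi, map_inv Pi c]
    rw [hE, hi1, hi2, hv1, hv2] at hcb
    rcases Int.units_eq_one_or (Pi c).e with he | he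
    · rw [he] at hcb
      right
      push_cast at hcb
      constructor <;> linarith [hcb.1, hcb.2]
    · rw [he] at hcb
      left
      push_cast at hcb
      constructor <;> linarith [hcb.1, hcb.2]

lemma comm_pow {M N g : Matrix (Fin 2) (Fin 2) ℤ} (h : M * g = g * N) (k : ℕ) :
    M ^ k * g = g * N ^ k := by
  induction k with
  | zero => simp
  | succ k ih => rw [pow_succ', Matrix.mul_assoc, ih, ← Matrix.mul_assoc, h, Matrix.mul_assoc,
      ← pow_succ']

/-- A class with a code is pseudo-Anosov. -/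
theorem pseudoAnosov_of_code {ε : ℤˣ} {f : MulAut F3} (hf : Geometric ε f) {c : List Bool}
    (hc : IsCode f c) : IsPseudoAnosov f := by
  intro k hk φ hφ
  rw [← not_or]
  intro hcon
  obtain ⟨ct, cf, g, hg, hgc⟩ := hc
  have hpow := lin_pow hf.parPres k
  have hs := slope_of_conj hpow.1 hφ hcon
  rw [hpow.2] at hs
  set a := lin φ 0 0
  set b := lin φ 1 0
  set X := lin f ^ k with hX
  -- the square fixes the vector
  have hXX : X * X = (lin f * lin f) ^ k := ((Commute.refl (lin f)).mul_pow k).symm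
  have h2 : (X * X) 0 0 * a + (X * X) 0 1 * b = a ∧ (X * X) 1 0 * a + (X * X) 1 1 * b = b := by
    simp only [Matrix.mul_apply, Fin.sum_univ_two]
    rcases hs with ⟨h1, h2⟩ | ⟨h1, h2⟩
    · constructor
      · linear_combination (X 0 0 + 1) * h1 + X 0 1 * h2
      · linear_combination X 1 0 * h1 + (X 1 1 + 1) * h2
    · constructor
      · linear_combination (X 0 0 - 1) * h1 + X 0 1 * h2
      · linear_combination X 1 0 * h1 + (X 1 1 - 1) * h2
  rw [hXX] at h2
  have hcomm := comm_pow hgc k
  rw [← LR_rep] at hcomm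
  set Y := (lin f * lin f) ^ k
  -- pull back by `g`
  rw [Matrix.det_fin_two] at hg
  set a1 := g 1 1 * a - g 0 1 * b with ha1
  set b1 := -(g 1 0 * a) + g 0 0 * b with hb1
  have ea : a = g 0 0 * a1 + g 0 1 * b1 := by
    rw [ha1, hb1]; linear_combination (-a) * hg
  have eb : b = g 1 0 * a1 + g 1 1 * b1 := by
    rw [ha1, hb1]; linear_combination (-b) * hg
  have c00 := congrFun (congrFun hcomm 0) 0
  have c01 := congrFun (congrFun hcomm 0) 1
  have c10 := congrFun (congrFun hcomm 1) 0
  have c11 := congrFun (congrFun hcomm 1) 1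
  simp only [Matrix.mul_apply, Fin.sum_univ_two] at c00 c01 c10 c11
  set Z := LR (rep k c) with hZ
  set u := Z 0 0 * a1 + Z 0 1 * b1 - a1 with hu
  set v := Z 1 0 * a1 + Z 1 1 * b1 - b1 with hv
  have e1 : g 0 0 * u + g 0 1 * v = 0 := by
    have h3 := h2.1
    rw [ea, eb] at h3
    rw [hu, hv]
    linear_combination h3 - a1 * c00 - b1 * c01
  have e2 : g 1 0 * u + g 1 1 * v = 0 := by
    have h3 := h2.2
    rw [ea, eb] at h3
    rw [hu, hv]
    linear_combination h3 - a1 * c10 - b1 * c11
  have u0 : u = 0 := by linear_combination g 1 1 * e1 - g 0 1 * e2 - u * hg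
  have v0 : v = 0 := by linear_combination g 0 0 * e2 - g 1 0 * e1 - v * hg
  have hfix := LR_no_fix (mem_rep hk ct) (mem_rep hk cf) (a := a1) (c := b1)
    (by rw [← hZ]; linarith) (by rw [← hZ]; linarith)
  have a0 : a = 0 := by rw [ea, hfix.1, hfix.2]; simp
  have b0 : b = 0 := by rw [eb, hfix.1, hfix.2]; simp
  have hd := hφ.det
  rw [Matrix.det_fin_two] at hd
  simp only [Units.val_one] at hd
  change a * _ - _ * b = 1 at hd
  rw [a0, b0] at hd
  simp at hd

/-- The code is unique up to rotation. -/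
theorem code_unique {f : MulAut F3} {c c' : List Bool} (hc : IsCode f c) (hc' : IsCode f c') :
    c ~r c' := by
  obtain ⟨ct, cf, g, hg, hgc⟩ := hc
  obtain ⟨ct', cf', g', hg', hgc'⟩ := hc'
  have hadj : g'.adjugate * g' = 1 := by rw [Matrix.adjugate_mul, hg', one_smul]
  have hadj' : g' * g'.adjugate = 1 := by rw [Matrix.mul_adjugate, hg', one_smul]
  refine rotated_of_conj ct cf ct' cf' (g := g'.adjugate * g) ?_ ?_
  · rw [Matrix.det_mul, Matrix.det_adjugate, hg, hg']; simp
  · have h1 : LR c' * g'.adjugate = g'.adjugate * (lin f * lin f) := by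
      calc LR c' * g'.adjugate = (g'.adjugate * g') * LR c' * g'.adjugate := by
            rw [hadj, Matrix.one_mul]
        _ = g'.adjugate * (g' * LR c') * g'.adjugate := by simp only [Matrix.mul_assoc]
        _ = g'.adjugate * ((lin f * lin f) * g') * g'.adjugate := by rw [hgc']
        _ = g'.adjugate * (lin f * lin f) * (g' * g'.adjugate) := by
            simp only [Matrix.mul_assoc]
        _ = _ := by rw [hadj', Matrix.mul_one]
    rw [Matrix.mul_assoc, ← hgc, ← Matrix.mul_assoc (LR c'), h1]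
    simp only [Matrix.mul_assoc]

end Pool.Agent.KS6_96.Pen
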