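import Pool.Agent.KS6_96.Pen.Necc

/-!
# The classification of the classes with a power arising from Penner's construction
-/

set_option autoImplicit false

namespace Pool.Agent.KS6_96.Pen

open Matrix

/-- The word `c` repeated `n` times. -/
def rep (n : ℕ) (c : List Bool) : List Bool := (List.replicate n c).flatten

lemma rep_zero (c : List Bool) : rep 0 c = [] := rfl

lemma rep_succ (n : ℕ) (c : List Bool) : rep (n + 1) c = c ++ rep n c := by
  simp [rep, List.replicate_succ]

lemma LR_rep (n : ℕ) (c : List Bool) : LR (rep n c) = LR c ^ n := by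
  induction n with
  | zero => simp [rep_zero]
  | succ n ih => rw [rep_succ, LR_append, ih, pow_succ']

lemma mem_rep {n : ℕ} (hn : 1 ≤ n) {c : List Bool} {b : Bool} (h : b ∈ c) : b ∈ rep n c := by
  obtain ⟨n, rfl⟩ := Nat.exists_eq_add_of_le' hn
  rw [rep_succ]
  exact List.mem_append_left _ h

/-- The word `c` describes the conjugacy class of the square of the linear part of `f`. -/
def IsCode (f : MulAut F3) (c : List Bool) : Prop :=
  true ∈ c ∧ false ∈ c ∧ ∃ g : Matrix (Fin 2) (Fin 2) ℤ, g.det = 1 ∧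
    lin f * lin f * g = g * LR c

/-! ### Closure properties of Penner's construction -/

lemma arises_pow {h : OutF3} (ha : ArisesFromPenner h) {n : ℕ} (hn : 1 ≤ n) :
    ArisesFromPenner (h ^ n) := by
  obtain ⟨A, B, hA, hB, hF, l, h1, h2, h3, h4⟩ := ha
  obtain ⟨n, rfl⟩ := Nat.exists_eq_add_of_le' hn
  refine ⟨A, B, hA, hB, hF, (List.replicate (n + 1) l).flatten, ?_, ?_, ?_, ?_⟩
  · intro g hg
    rw [List.mem_flatten] at hg
    obtain ⟨l', hl', hg⟩ := hg
    rw [List.eq_of_mem_replicate hl'] at hg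
    exact h1 g hg
  · intro a ha
    exact List.mem_flatten.2 ⟨l, List.mem_replicate.2 ⟨by omega, rfl⟩, h2 a ha⟩
  · intro b hb
    exact List.mem_flatten.2 ⟨l, List.mem_replicate.2 ⟨by omega, rfl⟩, h3 b hb⟩
  · rw [List.prod_flatten, List.map_replicate, List.prod_replicate, h4]

lemma dehn_conj {t : OutF3} (ht : IsDehnTwist t) {φ : MulAut F3} (hφ : Geometric 1 φ) :
    IsDehnTwist ((φ : OutF3) * t * (φ : OutF3)⁻¹) := by
  obtain ⟨ψ, hψ, rfl⟩ := ht
  refine ⟨φ * ψ, by simpa using hφ.mul hψ, ?_⟩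
  have e : φ * ψ * twist0 * (φ * ψ)⁻¹ = φ * (ψ * twist0 * ψ⁻¹) * φ⁻¹ := by group
  rw [e]
  rfl

lemma arises_conj {h : OutF3} (ha : ArisesFromPenner h) {φ : MulAut F3} (hφ : Geometric 1 φ) :
    ArisesFromPenner ((φ : OutF3) * h * (φ : OutF3)⁻¹) := by
  obtain ⟨A, B, hA, hB, hF, l, h1, h2, h3, h4⟩ := ha
  set κ : OutF3 := (φ : OutF3) with hκ
  have hcomm : ∀ s t : OutF3, Commute s t → Commute (κ * s * κ⁻¹) (κ * t * κ⁻¹) := by
    intro s t h
    have : κ * s * κ⁻¹ * (κ * t * κ⁻¹) = κ * (s * t) * κ⁻¹ := by group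
    have h' : κ * t * κ⁻¹ * (κ * s * κ⁻¹) = κ * (t * s) * κ⁻¹ := by group
    change _ * _ = _ * _
    rw [this, h', h.eq]
  have hmc : ∀ C : Set OutF3, IsMulticurve C → IsMulticurve ((fun t => κ * t * κ⁻¹) '' C) := by
    rintro C ⟨c1, c2⟩
    refine ⟨?_, ?_⟩
    · rintro _ ⟨t, ht, rfl⟩
      exact dehn_conj (c1 t ht) hφ
    · rintro _ ⟨s, hs, rfl⟩ _ ⟨t, ht, rfl⟩
      exact hcomm s t (c2 s hs t ht)
  refine ⟨(fun t => κ * t * κ⁻¹) '' A, (fun t => κ * t * κ⁻¹) '' B, hmc A hA, hmc B hB, ?_,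
    l.map (fun t => κ * t * κ⁻¹), ?_, ?_, ?_, ?_⟩
  · intro t ht
    have ht' : IsDehnTwist (κ⁻¹ * t * κ) := by
      have := dehn_conj ht (geometric_inv hφ)
      rw [QuotientGroup.mk_inv, inv_inv, ← hκ] at this
      exact this
    obtain ⟨s, hs, hst⟩ := hF _ ht'
    refine ⟨κ * s * κ⁻¹, ?_, ?_⟩
    · rcases hs with hs | hs
      · exact Or.inl ⟨s, hs, rfl⟩
      · exact Or.inr ⟨s, hs, rfl⟩
    · intro hc
      apply hst
      have e1 : κ⁻¹ * (κ * s * κ⁻¹ * t) * κ = s * (κ⁻¹ * t * κ) := by group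
      have e2 : κ⁻¹ * (t * (κ * s * κ⁻¹)) * κ = (κ⁻¹ * t * κ) * s := by group
      change _ * _ = _ * _
      rw [← e1, ← e2, hc.eq]
  · intro g hg
    rw [List.mem_map] at hg
    obtain ⟨t, ht, rfl⟩ := hg
    rcases h1 t ht with h | h
    · exact Or.inl ⟨t, h, rfl⟩
    · exact Or.inr ⟨t⁻¹, h, by group⟩
  · rintro _ ⟨a, ha, rfl⟩
    exact List.mem_map.2 ⟨a, h2 a ha, rfl⟩
  · rintro _ ⟨b, hb, rfl⟩
    exact List.mem_map.2 ⟨b⁻¹, h3 b hb, by group⟩
  · have : ∀ l : List OutF3, (l.map (fun t => κ * t * κ⁻¹)).prod = κ * l.prod * κ⁻¹ := by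
      intro l
      induction l with
      | nil => simp
      | cons a l ih => rw [List.map_cons, List.prod_cons, ih, List.prod_cons]; group
    rw [this, h4]

/-! ### The words arise from Penner's construction -/

lemma hb_sq : hb ^ 2 = (rot * twist0 * rot⁻¹)⁻¹ := by
  rw [← refl_twist, ← half_sq, pow_two]
  unfold hb
  calc Pen.refl * half * Pen.refl * (Pen.refl * half * Pen.refl)
      = Pen.refl * half * (Pen.refl * Pen.refl) * (half * Pen.refl) := by
        simp only [mul_assoc]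
    _ = _ := by rw [refl_refl, mul_one]; simp only [mul_assoc]

lemma suff_core {Gm : MulAut F3} (hG : Geometric 1 Gm) (h11 : lin Gm 1 1 ≠ 0) {l : List Bool}
    (ht : true ∈ l) (hf : false ∈ l) :
    ArisesFromPenner ((ev (half ^ 2) (Gm * hb ^ 2 * Gm⁻¹) l : MulAut F3) : OutF3) := by
  set tA : OutF3 := ((1 * twist0 * 1⁻¹ : MulAut F3) : OutF3) with htA
  set tB : OutF3 := (((Gm * rot) * twist0 * (Gm * rot)⁻¹ : MulAut F3) : OutF3) with htB
  have gR : Geometric 1 (Gm * rot) := by simpa using hG.mul rot_geometric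
  have eA : ((half ^ 2 : MulAut F3) : OutF3) = tA := by
    rw [htA, pow_two, half_sq]; simp
  have eB : ((Gm * hb ^ 2 * Gm⁻¹ : MulAut F3) : OutF3) = tB⁻¹ := by
    have e : Gm * (rot * twist0 * rot⁻¹)⁻¹ * Gm⁻¹ = ((Gm * rot) * twist0 * (Gm * rot)⁻¹)⁻¹ := by
      group
    rw [htB, hb_sq, e]
    rfl
  have hev : ∀ l : List Bool, ((ev (half ^ 2) (Gm * hb ^ 2 * Gm⁻¹) l : MulAut F3) : OutF3) =
      (l.map (fun c => cond c tA tB⁻¹)).prod := by
    intro l
    induction l with
    | nil => simp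
    | cons c l ih =>
      cases c
      · rw [ev_false, QuotientGroup.mk_mul, ih, eB]; simp
      · rw [ev_true, QuotientGroup.mk_mul, ih, eA]; simp
  refine ⟨{tA}, {tB}, ⟨?_, ?_⟩, ⟨?_, ?_⟩, ?_, l.map (fun c => cond c tA tB⁻¹), ?_, ?_, ?_,
    (hev l).symm⟩
  · rintro t rfl
    exact ⟨1, geometric_one', rfl⟩
  · rintro s rfl t rfl
    exact Commute.refl _
  · rintro t rfl
    exact ⟨Gm * rot, gR, rfl⟩
  · rintro s rfl t rfl
    exact Commute.refl _
  · rintro t ⟨φ, hφ, rfl⟩
    by_contra hcon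
    push Not at hcon
    have c1 := parallel geometric_one' hφ (hcon _ (Or.inl rfl))
    have c2 := parallel gR hφ (hcon _ (Or.inr rfl))
    have hd := hφ.det
    have hr := rot_geometric.det
    rw [Matrix.det_fin_two] at hd hr
    simp only [Units.val_one] at hd hr
    rw [lin_one] at c1
    rw [lin_mul hG.parPres rot_geometric.parPres, Matrix.mul_apply, Matrix.mul_apply,
      Fin.sum_univ_two, Fin.sum_univ_two, lin_rot] at c2
    rw [lin_rot] at hr
    simp only [Matrix.one_apply_eq, one_mul, ne_eq, one_ne_zero, not_false_eq_true,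
      Matrix.one_apply_ne, mul_zero, sub_zero] at c1
    have c3 : lin φ 0 0 * (lin Gm 1 1 * lin rot 1 0) = 0 := by
      rw [c1] at c2
      linear_combination (-1) * c2
    rcases mul_eq_zero.1 c3 with c4 | c4
    · rw [c1, c4] at hd; simp at hd
    · rcases mul_eq_zero.1 c4 with c5 | c5
      · exact h11 c5
      · rw [c5] at hr; simp at hr
  · intro g hg
    rw [List.mem_map] at hg
    obtain ⟨c, -, rfl⟩ := hg
    cases c
    · exact Or.inr (by simp)
    · exact Or.inl rfl
  · rintro a rfl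
    exact List.mem_map.2 ⟨true, ht, rfl⟩
  · rintro b rfl
    exact List.mem_map.2 ⟨false, hf, rfl⟩

lemma ev_geometric_conjElt (m : List Bool) : Geometric 1 (conjElt half hb m) ∧
    lin (conjElt half hb m) = ((conjElt La Rb m : SL) : Matrix (Fin 2) (Fin 2) ℤ) := by
  have g1 := geometric_inv half_geometric
  have g2 := hb_geometric
  have g3 := wd_geometric m
  have g4 := half_geometric
  have e : conjElt half hb m = half⁻¹ * hb * wd m * half := rfl
  have gg : Geometric 1 (half⁻¹ * hb * wd m * half) := by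
    simpa using ((g1.mul g2).mul g3).mul g4
  refine ⟨e ▸ gg, ?_⟩
  have hi : lin half⁻¹ = !![1, -1; 0, 1] := by
    have h3 := (lin_inv g4.parPres).1
    rw [lin_half] at h3
    have h4 : (!![1, -1; 0, 1] : Matrix (Fin 2) (Fin 2) ℤ) * !![1, 1; 0, 1] = 1 := by
      ext i j
      fin_cases i <;> fin_cases j <;> simp [Matrix.mul_apply, Fin.sum_univ_two]
    calc lin half⁻¹ = (!![1, -1; 0, 1] * !![1, 1; 0, 1]) * lin half⁻¹ := by
          rw [h4, Matrix.one_mul]
      _ = !![1, -1; 0, 1] * (!![1, 1; 0, 1] * lin half⁻¹) := by rw [Matrix.mul_assoc]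
      _ = _ := by rw [h3, Matrix.mul_one]
  have p1 := g1.parPres
  have p2 := g2.parPres
  have p3 := g3.parPres
  have p4 := g4.parPres
  rw [e, lin_mul ((p1.mul p2).mul p3) p4, lin_mul (p1.mul p2) p3, lin_mul p1 p2, hi, lin_hb,
    lin_wd, lin_half]
  unfold conjElt
  rw [Matrix.SpecialLinearGroup.coe_mul, Matrix.SpecialLinearGroup.coe_mul,
    Matrix.SpecialLinearGroup.coe_mul, coe_ev, coe_La_inv, coe_La, coe_Rb]
  rfl

/-- The classes of Penner words arise from Penner's construction. -/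
theorem arises_of_pennerWord {w : List Bool} (wt : true ∈ w) (wf : false ∈ w)
    (hw : PennerWord w) : ArisesFromPenner ((wd w : MulAut F3) : OutF3) := by
  have hrot : ∀ W : List Bool, w ~r W → ArisesFromPenner ((wd W : MulAut F3) : OutF3) →
      ArisesFromPenner ((wd w : MulAut F3) : OutF3) := by
    intro W h hW
    obtain ⟨n, hn, rfl⟩ := List.isRotated_iff_mod.1 h
    have e : w = w.take n ++ w.drop n := (List.take_append_drop n w).symm
    have e' : w.rotate n = w.drop n ++ w.take n := by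
      rw [List.rotate_eq_drop_append_take hn]
    rw [e', wd_append] at hW
    have := arises_conj hW (wd_geometric (w.take n))
    have e2 : ((wd w : MulAut F3) : OutF3) = ((wd (w.take n) : MulAut F3) : OutF3) *
        ((wd (w.drop n) * wd (w.take n) : MulAut F3) : OutF3) *
        ((wd (w.take n) : MulAut F3) : OutF3)⁻¹ := by
      conv_lhs => rw [e, wd_append]
      rw [← QuotientGroup.mk_inv, ← QuotientGroup.mk_mul, ← QuotientGroup.mk_mul]
      congr 1
      group
    rw [e2]
    exact this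
  rcases hw with ⟨l, hl⟩ | ⟨m, l, hl⟩
  · apply hrot _ hl
    have e : wd (dbl l) = ev (half ^ 2) (1 * hb ^ 2 * 1⁻¹) l := by
      rw [wd, ev_dbl]; simp
    rw [e]
    apply suff_core geometric_one'
    · rw [lin_one]; simp
    · have := hl.mem_iff.1 wt
      rw [dbl, List.mem_flatMap] at this
      obtain ⟨a, ha, hba⟩ := this
      have : true = a := by simpa using hba
      rwa [← this] at ha
    · have := hl.mem_iff.1 wf
      rw [dbl, List.mem_flatMap] at this
      obtain ⟨a, ha, hba⟩ := this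
      have : false = a := by simpa using hba
      rwa [← this] at ha
  · apply hrot _ hl
    rw [wd, ev_blks braid]
    obtain ⟨g1, g2⟩ := ev_geometric_conjElt m
    have hne : l ≠ [] := by
      rintro rfl
      have := hl.mem_iff.1 wt
      simp at this
    obtain ⟨p0, hp0⟩ := List.exists_mem_of_ne_nil _ hne
    apply suff_core g1
    · rw [g2]
      have := (conjElt_col m).2
      obtain ⟨h1, h2, h3, h4⟩ := LR_nonneg m
      rw [this]
      omega
    · exact List.mem_flatMap.2 ⟨p0, hp0, by simp⟩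
    · exact List.mem_flatMap.2 ⟨p0, hp0, by simp⟩

/-! ### Surjectivity of the linear part and comparison of classes -/

/-- Every matrix of determinant one is the linear part of a mapping class. -/
lemma lin_surj (g : SL) : ∃ ψ : MulAut F3, Geometric 1 ψ ∧ lin ψ = g := by
  have hg : g ∈ Subgroup.closure {ModularGroup.S, ModularGroup.T} := by
    rw [SpecialLinearGroup.SL2Z_generators]; trivial
  induction hg using Subgroup.closure_induction with
  | mem x hx =>
    simp only [Set.mem_insert_iff, Set.mem_singleton_iff] at hx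
    rcases hx with rfl | rfl
    · refine ⟨Dl⁻¹, geometric_inv Dl_geometric, ?_⟩
      have h3 := (lin_inv Dl_geometric.parPres).1
      rw [lin_Dl] at h3
      have h4 : (!![0, -1; 1, 0] : Matrix (Fin 2) (Fin 2) ℤ) * !![0, 1; -1, 0] = 1 := by
        ext i j
        fin_cases i <;> fin_cases j <;> simp [Matrix.mul_apply, Fin.sum_univ_two]
      calc lin Dl⁻¹ = (!![0, -1; 1, 0] * !![0, 1; -1, 0]) * lin Dl⁻¹ := by
            rw [h4, Matrix.one_mul]
        _ = !![0, -1; 1, 0] * (!![0, 1; -1, 0] * lin Dl⁻¹) := by rw [Matrix.mul_assoc]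
        _ = !![0, -1; 1, 0] := by rw [h3, Matrix.mul_one]
        _ = _ := rfl
    · exact ⟨half, half_geometric, by rw [lin_half]; rfl⟩
  | one => exact ⟨1, geometric_one', by rw [lin_one]; rfl⟩
  | mul x y _ _ hx hy =>
    obtain ⟨φ, h1, h2⟩ := hx
    obtain ⟨ψ, h3, h4⟩ := hy
    exact ⟨φ * ψ, by simpa using h1.mul h3, by
      rw [lin_mul h1.parPres h3.parPres, h2, h4, Matrix.SpecialLinearGroup.coe_mul]⟩
  | inv x _ hx =>
    obtain ⟨φ, h1, h2⟩ := hx
    refine ⟨φ⁻¹, geometric_inv h1, ?_⟩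
    have h3 := (lin_inv h1.parPres).1
    rw [h2] at h3
    calc lin φ⁻¹ = (((x⁻¹ * x : SL) : SL) : Matrix (Fin 2) (Fin 2) ℤ) * lin φ⁻¹ := by
          rw [inv_mul_cancel]; simp
      _ = ((x⁻¹ : SL) : Matrix (Fin 2) (Fin 2) ℤ) * ((x : Matrix (Fin 2) (Fin 2) ℤ) * lin φ⁻¹) := by
          rw [Matrix.SpecialLinearGroup.coe_mul, Matrix.mul_assoc]
      _ = _ := by rw [h3, Matrix.mul_one]

/-- `φ` fixes the four punctures. -/
def Pure (φ : MulAut F3) : Prop := ∀ i, IsConj (φ (per i)) (per i)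

lemma isConj_map {φ : MulAut F3} {g h : F3} (hc : IsConj g h) : IsConj (φ g) (φ h) := by
  obtain ⟨c, hc⟩ := isConj_iff.1 hc
  exact isConj_iff.2 ⟨φ c, by rw [← hc]; simp⟩

lemma Pure.mul {φ ψ : MulAut F3} (h : Pure φ) (h' : Pure ψ) : Pure (φ * ψ) := fun i =>
  (isConj_map (φ := φ) (h' i)).trans (h i)

lemma Pure.inv {φ : MulAut F3} (h : Pure φ) : Pure φ⁻¹ := fun i => by
  have := isConj_map (φ := φ⁻¹) (h i)
  rw [MulAut.inv_apply_self] at this
  exact this.symm

lemma perm24 (σ : Equiv.Perm (Fin 4)) : σ ^ 24 = 1 := by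
  have h := pow_card_eq_one (x := σ)
  have h2 : Fintype.card (Equiv.Perm (Fin 4)) = 24 := by rw [Fintype.card_perm]; rfl
  rwa [h2] at h

lemma pure_pow {φ : MulAut F3} (h : Geometric 1 φ) : Pure (φ ^ 24) := by
  obtain ⟨σ, hσ⟩ := h
  have key : ∀ k : ℕ, ∀ i, IsConj ((φ ^ k) (per i)) (per ((σ ^ k) i)) := by
    intro k
    induction k with
    | zero => intro i; exact IsConj.refl _
    | succ k ih =>
      intro i
      rw [pow_succ', pow_succ']
      have h1 := isConj_map (φ := φ) (ih i)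
      have h2 := hσ ((σ ^ k) i)
      simp only [Units.val_one, zpow_one] at h2
      exact h1.trans h2
  intro i
  have := key 24 i
  rw [perm24] at this
  exact this

/-- Two orientation-preserving classes with the same linear part have the same 24-th power. -/
lemma pow24_eq {φ ψ : MulAut F3} (hφ : Geometric 1 φ) (hψ : Geometric 1 ψ)
    (h : lin φ = lin ψ ∨ lin φ = -lin ψ) :
    ((φ ^ 24 : MulAut F3) : OutF3) = ((ψ ^ 24 : MulAut F3) : OutF3) := by
  have hl1 := lin_pow hφ.parPres 24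
  have hl2 := lin_pow hψ.parPres 24
  have hp : Pure (φ ^ 24 * (ψ ^ 24)⁻¹) := (pure_pow hφ).mul (pure_pow hψ).inv
  have hlin : lin (φ ^ 24 * (ψ ^ 24)⁻¹) = 1 := by
    rw [lin_mul hl1.1 hl2.1.inv]
    have e : lin (φ ^ 24) = lin (ψ ^ 24) := by
      rw [hl1.2, hl2.2]
      rcases h with h | h
      · rw [h]
      · rw [h, Even.neg_pow ⟨12, rfl⟩]
    rw [e]
    exact (lin_inv hl2.1).1
  have := faithful hp (Or.inl hlin)
  rw [QuotientGroup.mk_mul, QuotientGroup.mk_inv, mul_inv_eq_one] at this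
  exact this

/-! ### The classification -/

lemma geometric_sq {ε : ℤˣ} {f : MulAut F3} (hf : Geometric ε f) : Geometric 1 (f * f) := by
  have := hf.mul hf
  rwa [Int.units_mul_self] at this

/-- Necessity. -/
theorem necessity {ε : ℤˣ} {f : MulAut F3} (hf : Geometric ε f) {c : List Bool}
    (hc : IsCode f c) {k : ℕ} (hk : 1 ≤ k) (ha : ArisesFromPenner ((f ^ k : MulAut F3) : OutF3)) :
    PennerWord (rep k c) := by
  obtain ⟨ct, cf, g, hg, hgc⟩ := hc
  obtain ⟨A, B, hA, hB, -, l, hl, -, -, he⟩ := ha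
  obtain ⟨a, c', b, d, hac, hbd, h⟩ := prod_rep' hA hB
  obtain ⟨ψ, hψ, hψ', m, hm⟩ := h l hl
  have hpow := lin_pow hf.parPres k
  have h1 := lin_out hpow.1 (show ((f ^ k : MulAut F3) : OutF3) = (ψ : OutF3) by
    rw [hψ', he])
  rw [hpow.2, hm] at h1
  -- the square of the word
  have h2 : sword a c' b d (m ++ m) = (lin f * lin f) ^ k := by
    have e : sword a c' b d (m ++ m) = sword a c' b d m * sword a c' b d m := by
      simp [sword]
    have e2 : (lin f * lin f) ^ k = lin f ^ k * lin f ^ k := (Commute.refl (lin f)).mul_pow k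
    rw [e, e2]
    rcases h1 with h1 | h1 <;> rw [h1]
    simp
  refine penner_of_sword (g := ⟨g, hg⟩) hac hbd (mem_rep hk ct) (mem_rep hk cf) (l := m ++ m) ?_
  rw [h2, LR_rep]
  change (lin f * lin f) ^ k * g = g * LR c ^ k
  clear h2 h1 hpow
  induction k with
  | zero => omega
  | succ k ih =>
    rcases Nat.eq_zero_or_pos k with rfl | hk'
    · simpa using hgc
    · have ih' : (lin f * lin f) ^ k * g = g * LR c ^ k := by
        clear he ih
        induction k with
        | zero => simp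
        | succ k ih =>
          rcases Nat.eq_zero_or_pos k with rfl | hk'
          · simpa using hgc
          · rw [pow_succ', Matrix.mul_assoc, ih (by omega) hk', ← Matrix.mul_assoc, hgc,
              Matrix.mul_assoc, ← pow_succ']
      rw [pow_succ', Matrix.mul_assoc, ih', ← Matrix.mul_assoc, hgc, Matrix.mul_assoc,
        ← pow_succ']

/-- Sufficiency. -/
theorem sufficiency {ε : ℤˣ} {f : MulAut F3} (hf : Geometric ε f) {c : List Bool}
    (hc : IsCode f c) {j : ℕ} (hj : 1 ≤ j) (hw : PennerWord (rep j c)) :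
    ∃ k : ℕ, 1 ≤ k ∧ ArisesFromPenner ((f ^ k : MulAut F3) : OutF3) := by
  obtain ⟨ct, cf, g, hg, hgc⟩ := hc
  obtain ⟨ψ, hψ, hψl⟩ := lin_surj ⟨g, hg⟩
  have hψl' : lin ψ = g := hψl
  have g2 := geometric_sq hf
  set F1 : MulAut F3 := ψ⁻¹ * (f * f) * ψ with hF1
  have gF1 : Geometric 1 F1 := by
    simpa [F1] using ((geometric_inv hψ).mul g2).mul hψ
  have lF1 : lin F1 = LR c := by
    rw [hF1, lin_mul ((geometric_inv hψ).mul g2).parPres hψ.parPres,
      lin_mul (geometric_inv hψ).parPres g2.parPres, lin_mul hf.parPres hf.parPres, hψl',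
      Matrix.mul_assoc, hgc, ← Matrix.mul_assoc, ← hψl', (lin_inv hψ.parPres).2, Matrix.one_mul]
  have gF1j : Geometric 1 (F1 ^ j) := geometric_pow gF1 j
  have lF1j : lin (F1 ^ j) = lin (wd (rep j c)) := by
    rw [(lin_pow gF1.parPres j).2, lF1, lin_wd, LR_rep]
  have h24 := pow24_eq gF1j (wd_geometric (rep j c)) (Or.inl lF1j)
  have ha := arises_of_pennerWord (mem_rep hj ct) (mem_rep hj cf) hw
  have ha24 := arises_pow ha (n := 24) (by norm_num)
  rw [← QuotientGroup.mk_pow, ← h24] at ha24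
  have ha3 := arises_conj ha24 hψ
  refine ⟨2 * j * 24, by omega, ?_⟩
  have e : ((f ^ (2 * j * 24) : MulAut F3) : OutF3) =
      ((ψ : MulAut F3) : OutF3) * (((F1 ^ j) ^ 24 : MulAut F3) : OutF3) *
        ((ψ : MulAut F3) : OutF3)⁻¹ := by
    rw [← QuotientGroup.mk_inv, ← QuotientGroup.mk_mul, ← QuotientGroup.mk_mul]
    congr 1
    rw [← conj_pow, ← conj_pow, hF1, pow_mul, pow_mul, pow_two]
    congr 2
    group
  rw [e]
  exact ha3

end Pool.Agent.KS6_96.Pen
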